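import Pool.Agent.Y922.ZF.GenP
import Pool.Agent.W401.Cheb.Main

/-!
# Artin `L`-series of a Galois extension of `ℚ` are independent at the primes
-/

set_option autoImplicit false

open Finset Filter Asymptotics Topology NumberField

namespace Pool.Agent.Y922.ZF

open Pool.Agent.W401.Cheb in
/-- Coefficients which are given at almost all primes by the values of class functions at Frobenius elements. -/
theorem PI_artin (N : Type) [Field N] [NumberField N] [IsGalois ℚ N] {Y : Type} (χ : Y → Gal(N/ℚ) → ℂ)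
    (hχ : LinearIndependent ℂ χ) [Finite Y] (a : Y → ℕ → ℂ)
    (ha : ∀ y, ∃ D : ℕ, ∀ p : ℕ, D < p → ∀ [Fact p.Prime], ∀ (φ : 𝓞 N →+* AlgebraicClosure (ZMod p))
      (σ : Gal(N/ℚ)), (∀ x : 𝓞 N, φ (σ • x) = φ x ^ p) → a y p = χ y σ) : PI a := by
  classical
  have := Fintype.ofFinite Y
  refine ⟨Gal(N/ℚ), χ, hχ, fun σ M => ?_⟩
  choose D hD using ha
  obtain ⟨p, ⟨hp, hx⟩, hpM⟩ := (infinite_frob N σ).exists_gt (M + ∑ y, D y)
  have : Fact p.Prime := ⟨hp⟩
  refine ⟨p, by omega, hp, 1, one_ne_zero, fun y => ?_⟩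
  rw [xp, dif_pos hp] at hx
  have h1 : Nonempty {φ : 𝓞 N →+* AlgebraicClosure (ZMod p) // HasFrob p φ σ} := by
    by_contra hne
    rw [not_nonempty_iff] at hne
    exact hx Nat.card_of_isEmpty
  obtain ⟨φ, hφ⟩ := h1
  have h2 : D y < p := by
    have := Finset.single_le_sum (f := fun y => D y) (fun i _ => Nat.zero_le _) (Finset.mem_univ y)
    omega
  rw [mul_one]
  exact hD y p h2 φ σ hφ

end Pool.Agent.Y922.ZF
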