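import Pool.Agent.Y922.ZF.Full
import Pool.Agent.H340R2.LW

/-!
# The three families
-/

set_option autoImplicit false

open Finset Filter Asymptotics Topology

namespace Pool.Agent.Y922.ZF

/-- the number `π` is admissible -/
theorem pi_ok (v : Fin 1 → ℤ) (hv : ∃ x : ℚ, ∏ l, (![Real.pi] l : ℝ) ^ v l = x) : v = 0 := by
  obtain ⟨x, hx⟩ := hv
  rw [Fin.prod_univ_one] at hx
  simp only [Matrix.cons_val_zero] at hx
  have htr := Pool.Agent.H340R2.LW.transcendental_pi
  funext l
  have hl : l = 0 := Subsingleton.elim _ _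
  rw [hl]
  by_contra hne
  have hne' : v 0 ≠ 0 := hne
  have hx0 : IsAlgebraic ℚ (x : ℝ) := isAlgebraic_algebraMap (A := ℝ) x
  rcases lt_or_gt_of_ne hne' with h0 | h0
  · obtain ⟨n, hn⟩ := Int.eq_ofNat_of_zero_le (show 0 ≤ -v 0 by omega)
    have h1 : Real.pi ^ n = (x : ℝ)⁻¹ := by
      rw [← hx, ← zpow_neg, hn, zpow_natCast]
    refine htr (IsAlgebraic.of_pow (n := n) (by omega) ?_)
    rw [h1]
    exact hx0.inv
  · obtain ⟨n, hn⟩ := Int.eq_ofNat_of_zero_le (show 0 ≤ v 0 by omega)
    have h1 : Real.pi ^ n = (x : ℝ) := by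
      rw [← hx, hn, zpow_natCast]
    refine htr (IsAlgebraic.of_pow (n := n) (by omega) ?_)
    rw [h1]
    exact hx0

theorem countable_negnat : {z : ℂ | ∃ m : ℕ, z = -m}.Countable := by
  have h1 : {z : ℂ | ∃ m : ℕ, z = -m} = Set.range fun m : ℕ => (-(m : ℂ)) := by
    ext z
    constructor
    · rintro ⟨m, rfl⟩
      exact ⟨m, rfl⟩
    · rintro ⟨m, rfl⟩
      exact ⟨m, rfl⟩
  rw [h1]
  exact Set.countable_range _

/-- exponentials, the Gamma function, derivatives of the digamma function and of the zeta function -/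
noncomputable def vA {h : ℕ} (β : Fin h → ℝ) (w : ℕ) (s : ℂ) : Fin h ⊕ (Unit ⊕ (Fin w ⊕ Fin w)) → ℂ
  | Sum.inl l => (β l : ℂ) ^ s
  | Sum.inr (Sum.inl _) => Complex.Gamma s
  | Sum.inr (Sum.inr (Sum.inl k)) => iteratedDeriv k Complex.digamma s
  | Sum.inr (Sum.inr (Sum.inr k)) => iteratedDeriv k riemannZeta s

theorem oneA (g : ℕ) {h : ℕ} (β : Fin h → ℝ) (hβ0 : ∀ l, 0 < β l)
    (hβ : ∀ v : Fin h → ℤ, (∃ x : ℚ, ∏ l, β l ^ v l = x) → v = 0) (w : ℕ) (L : Set ℂ) (hL : IsCompact L)
    (hL1 : ∀ s ∈ L, s ≠ 1 ∧ ∀ m : ℕ, s ≠ -m) :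
    Y124.OneV g (fun R T => {t | t ∈ L ∧ Y120.Pt R T t}) (vA β w) := by
  classical
  set f : Fin h ⊕ (Unit ⊕ (Fin w ⊕ Fin w)) → ℂ → ℂ := fun y s => vA β w s y with hf
  set U : Set ℂ := ({z : ℂ | ∃ m : ℕ, z = -m} ∪ {1})ᶜ with hU
  have hUmem : ∀ z, z ∈ U ↔ z ≠ 1 ∧ ∀ m : ℕ, z ≠ -m := by
    intro z
    rw [hU, Set.mem_compl_iff, Set.mem_union, not_or]
    constructor
    · rintro ⟨h1, h2⟩
      exact ⟨h2, fun m hm => h1 ⟨m, hm⟩⟩
    · rintro ⟨h1, h2⟩
      exact ⟨fun ⟨m, hm⟩ => h2 m hm, h1⟩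
  have han : ∀ i, AnalyticOnNhd ℂ (f i) U := by
    intro i z hz
    rw [hUmem] at hz
    rcases i with l | (_ | (k | k))
    · exact pow_analytic (β l) (hβ0 l) z
    · exact gamma_analytic hz.2
    · exact iter_analytic (digamma_analytic hz.2) k
    · have h1 := L_analytic 1 (1 : DirichletCharacter ℂ 1) k 0 z (Or.inl (by rw [add_zero]; exact hz.1))
      rw [DirichletCharacter.LFunction_modOne_eq] at h1
      simp only [add_zero] at h1
      exact h1
  have hind : ∀ t ∈ U, Y124.LocInd f t := by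
    intro t ht
    refine locInd_gen h 1 1 w w β hβ0 hβ (fun _ : Fin 1 => 0) (fun x y _ => Subsingleton.elim _ _) f
      (fun y => match y with
        | Sum.inl l => Sum.inl l
        | Sum.inr (Sum.inl x) => Sum.inr (Sum.inl x)
        | Sum.inr (Sum.inr (Sum.inl k)) => Sum.inr (Sum.inr (Sum.inl k))
        | Sum.inr (Sum.inr (Sum.inr k)) => Sum.inr (Sum.inr (Sum.inr (1, 0, k)))) ?_ ?_ U
      (pre_of_countable (countable_negnat.union (Set.countable_singleton 1))) ?_ han t ht
    · intro x y hxy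
      rcases x with x | (x | (x | x)) <;> rcases y with y | (y | (y | y)) <;> simp_all
    · intro y s
      rcases y with l | (x | (k | k))
      · rfl
      · rfl
      · rfl
      · simp only [hf, vA, FF]
        rw [DirichletCharacter.LFunction_modOne_eq, Complex.ofReal_zero, add_zero]
    · filter_upwards [eventually_gt_atTop 1] with s hs
      rw [hUmem]
      refine ⟨fun h1 => ?_, fun m hm => ?_⟩
      · have := congrArg Complex.re h1
        simp only [Complex.ofReal_re, Complex.one_re] at this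
        linarith
      · have := congrArg Complex.re hm
        simp only [Complex.ofReal_re, Complex.neg_re, Complex.natCast_re] at this
        have h2 : (0 : ℝ) ≤ m := Nat.cast_nonneg m
        linarith
  exact Y124.oneV_of g f L hL (fun i t ht => han i t ((hUmem t).2 (hL1 t ht))) fun t ht =>
    hind t ((hUmem t).2 (hL1 t ht))

/-- exponentials and derivatives of shifts of the zeta function -/
noncomputable def vB {h r : ℕ} (β : Fin h → ℝ) (a : Fin r → ℝ) (w : ℕ) (s : ℂ) : Fin h ⊕ (Fin r × Fin w) → ℂ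
  | Sum.inl l => (β l : ℂ) ^ s
  | Sum.inr x => iteratedDeriv x.2 riemannZeta (s + a x.1)

theorem oneB (g : ℕ) {h r : ℕ} (β : Fin h → ℝ) (hβ0 : ∀ l, 0 < β l)
    (hβ : ∀ v : Fin h → ℤ, (∃ x : ℚ, ∏ l, β l ^ v l = x) → v = 0) (a : Fin r → ℝ) (ha : Function.Injective a)
    (w : ℕ) (L : Set ℂ) (hL : IsCompact L) (hL1 : ∀ s ∈ L, ∀ i, s + a i ≠ 1) :
    Y124.OneV g (fun R T => {t | t ∈ L ∧ Y120.Pt R T t}) (vB β a w) := by
  classical
  set f : Fin h ⊕ (Fin r × Fin w) → ℂ → ℂ := fun y s => vB β a w s y with hf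
  set U : Set ℂ := (Set.range fun i => (1 : ℂ) - (a i : ℂ))ᶜ with hU
  have hUmem : ∀ z, z ∈ U ↔ ∀ i, z + a i ≠ 1 := by
    intro z
    rw [hU, Set.mem_compl_iff, Set.mem_range, not_exists]
    refine forall_congr' fun i => ?_
    rw [not_iff_not]
    constructor
    · rintro rfl
      ring
    · intro h1
      rw [← h1]
      ring
  have han : ∀ i, AnalyticOnNhd ℂ (f i) U := by
    intro i z hz
    rw [hUmem] at hz
    rcases i with l | x
    · exact pow_analytic (β l) (hβ0 l) z
    · have h1 := L_analytic 1 (1 : DirichletCharacter ℂ 1) x.2 (a x.1) z (Or.inl (hz x.1))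
      rw [DirichletCharacter.LFunction_modOne_eq] at h1
      exact h1
  have hind : ∀ t ∈ U, Y124.LocInd f t := by
    intro t ht
    refine locInd_gen h 1 r 0 w β hβ0 hβ a ha f
      (fun y => match y with
        | Sum.inl l => Sum.inl l
        | Sum.inr x => Sum.inr (Sum.inr (Sum.inr (1, x)))) ?_ ?_ U
      (pre_of_countable (Set.countable_range _)) ?_ han t ht
    · intro x y hxy
      rcases x with x | x <;> rcases y with y | y <;> simp_all
    · intro y s
      rcases y with l | x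
      · rfl
      · simp only [hf, vB, FF]
        rw [DirichletCharacter.LFunction_modOne_eq]
    · filter_upwards [eventually_gt_atTop (∑ i, |a i| + 1)] with s hs
      rw [hUmem]
      intro i h1
      have h2 := congrArg Complex.re h1
      simp only [Complex.add_re, Complex.ofReal_re, Complex.one_re] at h2
      have h3 := Finset.single_le_sum (f := fun i => |a i|) (fun i _ => abs_nonneg (a i)) (Finset.mem_univ i)
      have h4 := neg_abs_le (a i)
      linarith
  exact Y124.oneV_of g f L hL (fun i t ht => han i t ((hUmem t).2 (hL1 t ht))) fun t ht =>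
    hind t ((hUmem t).2 (hL1 t ht))

/-- exponentials and derivatives of all Dirichlet `L`-functions of a given modulus -/
noncomputable def vC {h : ℕ} (β : Fin h → ℝ) (q w : ℕ) [NeZero q] (s : ℂ) :
    Fin h ⊕ (DirichletCharacter ℂ q × Fin w) → ℂ
  | Sum.inl l => (β l : ℂ) ^ s
  | Sum.inr x => iteratedDeriv x.2 (DirichletCharacter.LFunction x.1) s

theorem oneC (g : ℕ) {h : ℕ} (β : Fin h → ℝ) (hβ0 : ∀ l, 0 < β l)
    (hβ : ∀ v : Fin h → ℤ, (∃ x : ℚ, ∏ l, β l ^ v l = x) → v = 0) (q w : ℕ) [NeZero q]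
    (L : Set ℂ) (hL : IsCompact L) (hL1 : (1 : ℂ) ∉ L) :
    Y124.OneV g (fun R T => {t | t ∈ L ∧ Y120.Pt R T t}) (vC β q w) := by
  classical
  set f : Fin h ⊕ (DirichletCharacter ℂ q × Fin w) → ℂ → ℂ := fun y s => vC β q w s y with hf
  set U : Set ℂ := ({1} : Set ℂ)ᶜ with hU
  have hUmem : ∀ z, z ∈ U ↔ z ≠ 1 := fun z => Iff.rfl
  have han : ∀ i, AnalyticOnNhd ℂ (f i) U := by
    intro i z hz
    rw [hUmem] at hz
    rcases i with l | x
    · exact pow_analytic (β l) (hβ0 l) z
    · have h1 := L_analytic q x.1 x.2 0 z (Or.inl (by rw [add_zero]; exact hz))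
      simp only [add_zero] at h1
      exact h1
  have hind : ∀ t ∈ U, Y124.LocInd f t := by
    intro t ht
    refine locInd_gen h q 1 0 w β hβ0 hβ (fun _ : Fin 1 => 0) (fun x y _ => Subsingleton.elim _ _) f
      (fun y => match y with
        | Sum.inl l => Sum.inl l
        | Sum.inr x => Sum.inr (Sum.inr (Sum.inr (x.1, 0, x.2)))) ?_ ?_ U
      (pre_of_countable (Set.countable_singleton 1)) ?_ han t ht
    · intro x y hxy
      rcases x with x | ⟨x, x'⟩ <;> rcases y with y | ⟨y, y'⟩ <;> simp_all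
    · intro y s
      rcases y with l | x
      · rfl
      · simp only [hf, vC, FF]
        rw [Complex.ofReal_zero, add_zero]
    · filter_upwards [eventually_gt_atTop 1] with s hs
      rw [hUmem]
      intro h1
      have := congrArg Complex.re h1
      simp only [Complex.ofReal_re, Complex.one_re] at this
      linarith
  have hL2 : ∀ t ∈ L, t ∈ U := fun t ht h1 => hL1 (by
    have h2 : t = 1 := h1
    rw [← h2]
    exact ht)
  exact Y124.oneV_of g f L hL (fun i t ht => han i t (hL2 t ht)) fun t ht => hind t (hL2 t ht)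

end Pool.Agent.Y922.ZF
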