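import Pool.Agent.Y922.ZF.Raw

/-!
# Derivatives and real shifts of Dirichlet `L`-functions
-/

set_option autoImplicit false

open Finset Filter Asymptotics Topology

namespace Pool.Agent.Y922.ZF

/-- a combination of functions of different orders of growth -/
theorem dom {J : Type} [Fintype J] {K : Type} [LinearOrder K] (key : J → K) (hkey : Function.Injective key)
    (u : J → ℝ → ℂ) (hu0 : ∀ j, ∀ᶠ x in atTop, u j x ≠ 0) (hu : ∀ i j, key i < key j → (u i) =o[atTop] (u j))
    (c : J → ℂ) (h : ∃ᶠ x in atTop, ∑ j, c j * u j x = 0) : c = 0 := by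
  classical
  by_contra hne
  obtain ⟨j0, hj0⟩ := Function.ne_iff.1 hne
  obtain ⟨j1, hj1, hmax⟩ := Finset.exists_max_image (Finset.univ.filter fun j => c j ≠ 0) key
    ⟨j0, Finset.mem_filter.2 ⟨Finset.mem_univ _, hj0⟩⟩
  have hc1 : c j1 ≠ 0 := (Finset.mem_filter.1 hj1).2
  have h1 : (fun x => ∑ j ∈ Finset.univ.erase j1, c j * u j x) =o[atTop] (u j1) := by
    refine IsLittleO.fun_sum fun j hj => ?_
    by_cases hcj : c j = 0
    · have : (fun x => c j * u j x) = fun _ => 0 := by
        funext x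
        rw [hcj, zero_mul]
      rw [this]
      exact isLittleO_zero _ _
    · refine (hu j j1 (lt_of_le_of_ne (hmax j (Finset.mem_filter.2 ⟨Finset.mem_univ _, hcj⟩)) ?_)).const_mul_left _
      exact fun h => (Finset.mem_erase.1 hj).1 (hkey h)
  have h2 := h1.bound (show (0 : ℝ) < ‖c j1‖ / 2 by positivity)
  obtain ⟨x, hx0, hx1, hx2⟩ := (h.and_eventually (h2.and (hu0 j1))).exists
  have h3 : c j1 * u j1 x = -∑ j ∈ Finset.univ.erase j1, c j * u j x := by
    rw [← Finset.add_sum_erase _ _ (Finset.mem_univ j1)] at hx0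
    exact eq_neg_of_add_eq_zero_left hx0
  have h4 : ‖c j1 * u j1 x‖ ≤ ‖c j1‖ / 2 * ‖u j1 x‖ := by
    rw [h3, norm_neg]
    exact hx1
  rw [norm_mul] at h4
  have h5 : 0 < ‖c j1‖ * ‖u j1 x‖ := mul_pos (norm_pos_iff.2 hc1) (norm_pos_iff.2 hx2)
  linarith

/-- powers and exponentials -/
theorem powexp (a b : ℝ) (k l : ℕ) (h : toLex (-a, k) < toLex (-b, l)) :
    (fun x : ℝ => ((Real.exp (-a * x) * x ^ k : ℝ) : ℂ)) =o[atTop] fun x : ℝ => ((Real.exp (-b * x) * x ^ l : ℝ) : ℂ) := by
  have key : (fun x : ℝ => Real.exp (-a * x) * x ^ k) =o[atTop] fun x : ℝ => Real.exp (-b * x) * x ^ l := by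
    rcases Prod.Lex.toLex_lt_toLex.1 h with h1 | ⟨h1, h2⟩
    · simp only at h1
      have h3 : (fun x : ℝ => x ^ k) =o[atTop] fun x : ℝ => Real.exp ((a - b) * x) :=
        isLittleO_pow_exp_pos_mul_atTop k (by linarith)
      have h4 : (fun _ : ℝ => (1 : ℝ)) =O[atTop] fun x : ℝ => x ^ l := by
        refine IsBigO.of_bound 1 ?_
        filter_upwards [eventually_ge_atTop 1] with x hx
        rw [one_mul, norm_one, Real.norm_of_nonneg (by positivity)]
        exact one_le_pow₀ hx
      have h5 := (isBigO_refl (fun x : ℝ => Real.exp (-a * x)) atTop).mul_isLittleO (h3.mul_isBigO h4)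
      refine (h5.congr_left fun x => ?_).congr_right fun x => ?_
      · ring
      · rw [← mul_assoc, ← Real.exp_add]
        congr 2
        ring
    · simp only [neg_inj] at h1 h2
      subst h1
      exact (isBigO_refl (fun x : ℝ => Real.exp (-a * x)) atTop).mul_isLittleO
        (isLittleO_pow_pow_atTop_of_lt h2)
  refine IsLittleO.of_norm_norm ?_
  simp only [Complex.norm_real]
  exact key.norm_norm

/-- the coefficients of the derivatives of the shifted `L`-functions -/
noncomputable def G (q : ℕ) (χ : DirichletCharacter ℂ q) (a : ℝ) (k : ℕ) : ArithmeticFunction ℂ :=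
  ⟨fun n => if n = 0 then 0 else χ n * ((Real.exp (-a * Real.log n) * Real.log n ^ k * (-1) ^ k : ℝ) : ℂ), by simp⟩

theorem G_apply (q : ℕ) (χ : DirichletCharacter ℂ q) (a : ℝ) (k n : ℕ) (hn : n ≠ 0) :
    G q χ a k n = χ n * ((Real.exp (-a * Real.log n) * Real.log n ^ k * (-1) ^ k : ℝ) : ℂ) := by
  change (if n = 0 then 0 else _) = _
  rw [if_neg hn]

/-- the condition at the primes -/
theorem G_prime (q : ℕ) [NeZero q] {r w : ℕ} (a : Fin r → ℝ) (ha : Function.Injective a)
    (c : DirichletCharacter ℂ q × Fin r × Fin w → ℂ)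
    (h : ∀ p : ℕ, p.Prime → ∑ y, c y * G q y.1 (a y.2.1) y.2.2 p = 0) : c = 0 := by
  classical
  -- the coefficients for a residue class
  set C : ZMod q → Fin r × Fin w → ℂ := fun x y => ∑ χ : DirichletCharacter ℂ q, c (χ, y) * χ x with hC
  have hCu : ∀ x : ZMod q, IsUnit x → ∀ y, C x y = 0 := by
    intro x hx
    have h1 : (fun y : Fin r × Fin w => C x y * (-1) ^ (y.2 : ℕ)) = 0 := by
      refine dom (K := ℝ ×ₗ ℕ) (fun y : Fin r × Fin w => toLex (-a y.1, (y.2 : ℕ))) ?_
        (fun y x => ((Real.exp (-a y.1 * x) * x ^ (y.2 : ℕ) : ℝ) : ℂ)) ?_ (fun i j hij => powexp _ _ _ _ hij) _ ?_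
      · intro y z hyz
        have h2 := toLex_inj.1 hyz
        rw [Prod.mk.injEq] at h2
        exact Prod.ext (ha (neg_inj.1 h2.1)) (Fin.ext h2.2)
      · intro y
        filter_upwards [eventually_gt_atTop 0] with x hx
        have : Real.exp (-a y.1 * x) * x ^ (y.2 : ℕ) ≠ 0 := by positivity
        exact_mod_cast this
      · rw [frequently_atTop]
        intro b
        obtain ⟨p, hpn, hp, hpx⟩ := Nat.forall_exists_prime_gt_and_eq_mod hx ⌈Real.exp b⌉₊
        refine ⟨Real.log p, ?_, ?_⟩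
        · rw [Real.le_log_iff_exp_le (by exact_mod_cast hp.pos)]
          exact (Nat.le_ceil _).trans (by exact_mod_cast hpn.le)
        · have h2 := h p hp
          rw [Fintype.sum_prod_type, Finset.sum_comm] at h2
          rw [← h2]
          refine Finset.sum_congr rfl fun y _ => ?_
          simp only [hC]
          rw [Finset.sum_mul, Finset.sum_mul]
          refine Finset.sum_congr rfl fun χ _ => ?_
          rw [G_apply _ _ _ _ _ hp.ne_zero, hpx]
          push_cast
          ring
    intro y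
    have h2 := congrFun h1 y
    simp only [Pi.zero_apply] at h2
    exact (mul_eq_zero.1 h2).resolve_right (pow_ne_zero _ (by norm_num))
  have hC0 : ∀ x y, C x y = 0 := by
    intro x y
    by_cases hx : IsUnit x
    · exact hCu x hx y
    · simp only [hC]
      refine Finset.sum_eq_zero fun χ _ => ?_
      rw [MulChar.map_nonunit _ hx, mul_zero]
  have hli : LinearIndependent ℂ (fun χ : DirichletCharacter ℂ q => (fun x : ZMod q => χ x)) := by
    have h1 := (linearIndependent_monoidHom (ZMod q) ℂ).comp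
      (fun χ : DirichletCharacter ℂ q => (χ.toMonoidHom : ZMod q →* ℂ)) (fun χ ψ h => by
        refine MulChar.ext' fun x => ?_
        have h2 : (χ.toMonoidHom : ZMod q →* ℂ) x = (ψ.toMonoidHom : ZMod q →* ℂ) x := by
          rw [show χ.toMonoidHom = ψ.toMonoidHom from h]
        exact h2)
    exact h1
  funext ⟨χ, y⟩
  have h3 := Fintype.linearIndependent_iff.1 hli (fun χ => c (χ, y)) (by
    funext x
    rw [Finset.sum_apply]
    simp only [Pi.smul_apply, smul_eq_mul, Pi.zero_apply]
    exact hC0 x y) χ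
  exact h3

theorem logMul_iter (f : ℕ → ℂ) (k n : ℕ) : (LSeries.logMul^[k] f) n = Complex.log n ^ k * f n := by
  induction k with
  | zero => simp
  | succ k ih =>
    rw [Function.iterate_succ', Function.comp_apply, LSeries.logMul, ih, pow_succ]
    ring

theorem G_term (q : ℕ) (χ : DirichletCharacter ℂ q) (a : ℝ) (k : ℕ) (s : ℂ) (n : ℕ) :
    LSeries.term (fun n => G q χ a k n) s n =
      (-1) ^ k * LSeries.term (LSeries.logMul^[k] (fun n => χ n)) (s + a) n := by
  by_cases hn : n = 0
  · subst hn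
    simp
  rw [LSeries.term_of_ne_zero hn, LSeries.term_of_ne_zero hn, G_apply _ _ _ _ _ hn, logMul_iter]
  have hn' : (n : ℂ) ≠ 0 := by exact_mod_cast hn
  have hn1 : (0 : ℝ) < n := Nat.cast_pos.2 (Nat.pos_of_ne_zero hn)
  have h1 : ((Real.exp (-a * Real.log n) : ℝ) : ℂ) = ((n : ℂ) ^ (a : ℂ))⁻¹ := by
    rw [← Complex.cpow_neg, mul_comm, ← Real.rpow_def_of_pos hn1, Complex.ofReal_cpow hn1.le]
    simp
  have h2 : Complex.log n = ((Real.log n : ℝ) : ℂ) := Complex.natCast_log.symm
  rw [Complex.cpow_add _ _ hn', h2, Complex.ofReal_mul, Complex.ofReal_mul, h1]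
  push_cast
  have h4 : (n : ℂ) ^ (a : ℂ) ≠ 0 := by
    rw [Complex.cpow_ne_zero_iff]
    exact Or.inl hn'
  have h5 : (n : ℂ) ^ s ≠ 0 := by
    rw [Complex.cpow_ne_zero_iff]
    exact Or.inl hn'
  field_simp

theorem G_summable (q : ℕ) (χ : DirichletCharacter ℂ q) (a : ℝ) (k : ℕ) (s : ℂ) (hs : 1 < (s + a).re) :
    LSeriesSummable (fun n => G q χ a k n) s := by
  have h0 : LSeries.abscissaOfAbsConv (fun n => χ n) ≤ 1 := by
    refine LSeries.abscissaOfAbsConv_le_of_forall_lt_LSeriesSummable fun y hy => ?_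
    exact DirichletCharacter.LSeriesSummable_of_one_lt_re χ (by simpa using hy)
  have h1 : LSeriesSummable (LSeries.logMul^[k] (fun n => χ n)) (s + a) := by
    refine LSeriesSummable_of_abscissaOfAbsConv_lt_re ?_
    rw [LSeries.absicssaOfAbsConv_logPowMul]
    exact lt_of_le_of_lt h0 (by exact_mod_cast hs)
  have h2 : LSeries.term (fun n => G q χ a k n) s =
      fun n => (-1) ^ k * LSeries.term (LSeries.logMul^[k] (fun n => χ n)) (s + a) n :=
    funext fun n => G_term q χ a k s n
  rw [LSeriesSummable, h2]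
  exact Summable.mul_left _ h1

theorem G_LSeries (q : ℕ) [NeZero q] (χ : DirichletCharacter ℂ q) (a : ℝ) (k : ℕ) (s : ℂ) (hs : 1 < (s + a).re) :
    LSeries (fun n => G q χ a k n) s = iteratedDeriv k (DirichletCharacter.LFunction χ) (s + a) := by
  have h0 : LSeries.abscissaOfAbsConv (fun n => χ n) ≤ 1 := by
    refine LSeries.abscissaOfAbsConv_le_of_forall_lt_LSeriesSummable fun y hy => ?_
    exact DirichletCharacter.LSeriesSummable_of_one_lt_re χ (by simpa using hy)
  have h1 : DirichletCharacter.LFunction χ =ᶠ[𝓝 (s + a)] LSeries (fun n => χ n) := by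
    have h2 : {z : ℂ | 1 < z.re} ∈ 𝓝 (s + a) :=
      (isOpen_lt continuous_const Complex.continuous_re).mem_nhds hs
    filter_upwards [h2] with z hz
    exact DirichletCharacter.LFunction_eq_LSeries χ hz
  rw [h1.iteratedDeriv_eq k, LSeries_iteratedDeriv k (lt_of_le_of_lt h0 (by exact_mod_cast hs)), LSeries, LSeries,
    ← tsum_mul_left]
  exact tsum_congr fun n => G_term q χ a k s n

end Pool.Agent.Y922.ZF
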