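import Pool.Agent.Y922.ZF.Gam
import Pool.Agent.Y922.ZF.Dir
import Pool.Agent.Y124.NFPoly

/-!
# Joint independence of exponentials, the Gamma function, derivatives of the digamma function and of `L`-functions
-/

set_option autoImplicit false

open Finset Filter Asymptotics Topology

namespace Pool.Agent.Y922.ZF

/-- the index set of all functions -/
abbrev Idx (h q r w v : ℕ) : Type := Fin h ⊕ (Unit ⊕ (Fin w ⊕ (DirichletCharacter ℂ q × Fin r × Fin v)))

/-- all functions -/
noncomputable def FF (h q r w v : ℕ) [NeZero q] (β : Fin h → ℝ) (a : Fin r → ℝ) (i : Idx h q r w v) (s : ℂ) : ℂ :=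
  match i with
  | Sum.inl l => (β l : ℂ) ^ s
  | Sum.inr (Sum.inl _) => Complex.Gamma s
  | Sum.inr (Sum.inr (Sum.inl k)) => iteratedDeriv k Complex.digamma s
  | Sum.inr (Sum.inr (Sum.inr y)) => iteratedDeriv y.2.2 (DirichletCharacter.LFunction y.1) (s + a y.2.1)

/-- the index in the general theorem -/
def ee (h q r w v : ℕ) (o : Option (Idx h q r w v)) :
    Option (Option (Fin w) ⊕ Fin h) ⊕ (DirichletCharacter ℂ q × Fin r × Fin v) :=
  match o with
  | none => Sum.inl (some (Sum.inl none))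
  | some (Sum.inl l) => Sum.inl (some (Sum.inr l))
  | some (Sum.inr (Sum.inl _)) => Sum.inl none
  | some (Sum.inr (Sum.inr (Sum.inl k))) => Sum.inl (some (Sum.inl (some k)))
  | some (Sum.inr (Sum.inr (Sum.inr y))) => Sum.inr y

theorem ee_inj (h q r w v : ℕ) : Function.Injective (ee h q r w v) := by
  intro x y hxy
  rcases x with _ | (x | (x | (x | x))) <;> rcases y with _ | (y | (y | (y | y))) <;> simp_all [ee]

theorem mult_cond {h : ℕ} (β : Fin h → ℝ) (hβ0 : ∀ l, 0 < β l)
    (hβ : ∀ v : Fin h → ℤ, (∃ x : ℚ, ∏ l, β l ^ v l = x) → v = 0) (v : Fin h → ℤ) (a c : ℕ) (ha : a ≠ 0) (hc : c ≠ 0)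
    (hv : ∑ l, (v l : ℝ) * Real.log (β l) = Real.log a - Real.log c) : v = 0 := by
  refine hβ v ⟨(a : ℚ) / c, ?_⟩
  have hpos : 0 < ∏ l, β l ^ v l := Finset.prod_pos fun l _ => zpow_pos (hβ0 l) _
  have ha0 : (0 : ℝ) < a := Nat.cast_pos.2 (Nat.pos_of_ne_zero ha)
  have hc0 : (0 : ℝ) < c := Nat.cast_pos.2 (Nat.pos_of_ne_zero hc)
  have h1 : Real.log (∏ l, β l ^ v l) = Real.log ((a : ℝ) / c) := by
    rw [Real.log_prod (fun l _ => (zpow_pos (hβ0 l) _).ne'), Real.log_div ha0.ne' hc0.ne', ← hv]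
    refine Finset.sum_congr rfl fun l _ => ?_
    rw [Real.log_zpow]
  have h2 := Real.log_injOn_pos (Set.mem_Ioi.2 hpos) (Set.mem_Ioi.2 (div_pos ha0 hc0)) h1
  rw [h2]
  push_cast
  rfl

/-- local independence for subfamilies -/
theorem locInd_gen (h q r w v : ℕ) [NeZero q] (β : Fin h → ℝ) (hβ0 : ∀ l, 0 < β l)
    (hβ : ∀ v : Fin h → ℤ, (∃ x : ℚ, ∏ l, β l ^ v l = x) → v = 0) (a : Fin r → ℝ) (ha : Function.Injective a)
    {σ : Type} (f : σ → ℂ → ℂ) (e : σ → Idx h q r w v) (he : Function.Injective e)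
    (hfe : ∀ y s, f y s = FF h q r w v β a (e y) s) (U : Set ℂ) (hUc : IsPreconnected U)
    (hU : ∀ᶠ s : ℝ in atTop, (s : ℂ) ∈ U) (han : ∀ i, AnalyticOnNhd ℂ (f i) U) (t : ℂ) (ht : t ∈ U) :
    Y124.LocInd f t := by
  classical
  set g : DirichletCharacter ℂ q × Fin r × Fin v → ArithmeticFunction ℂ := fun y => G q y.1 (a y.2.1) y.2.2 with hg
  set b : ℝ := ∑ i, |a i| + 2 with hb
  have hb' : ∀ s : ℝ, b ≤ s → ∀ i, 1 < ((s : ℂ) + (a i : ℂ)).re := by
    intro s hs i
    simp only [Complex.add_re, Complex.ofReal_re]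
    have h1 := Finset.single_le_sum (f := fun i => |a i|) (fun i _ => abs_nonneg (a i)) (Finset.mem_univ i)
    have h2 := neg_abs_le (a i)
    linarith
  refine locInd_of f (vals (fun s => Real.Gamma s) (bs w) (fun l => Real.log (β l)) g) ?_
    (fun o => ee h q r w v (o.map e)) ?_ ?_ U hUc hU han t ht
  · intro P hP
    refine raw (fun s => Real.Gamma s) gamma_large (bs w) (bs_SE w) (bs_indep w) _
      (fun v a c ha hc hv => mult_cond β hβ0 hβ v a c ha hc hv) g (fun c hc => G_prime q a ha c hc) (fun y => ⟨b, ?_⟩) P hP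
    exact G_summable q _ _ _ _ (hb' b le_rfl _)
  · exact (ee_inj h q r w v).comp (Option.map_injective he)
  · filter_upwards [eventually_ge_atTop b] with s hs o
    rcases o with _ | y
    · rfl
    · simp only [Option.elim, Option.map]
      rw [hfe]
      rcases e y with l | (_ | (k | y))
      · simp only [FF, vals, ee, Sum.elim_inl, Sum.elim_inr, Option.elim]
        have hl := hβ0 l
        rw [← Real.rpow_def_of_pos hl, Complex.ofReal_cpow hl.le]
      · simp only [FF, vals, ee, Sum.elim_inl, Option.elim]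
        exact Complex.Gamma_ofReal s
      · rfl
      · simp only [FF, vals, ee, Sum.elim_inr, hg]
        exact (G_LSeries q _ _ _ _ (hb' s hs _)).symm

/-- the complement of a countable set is preconnected -/
theorem pre_of_countable {S : Set ℂ} (hS : S.Countable) : IsPreconnected Sᶜ :=
  (hS.isConnected_compl_of_one_lt_rank (by
    rw [Complex.rank_real_complex]
    norm_num)).isPreconnected

theorem L_analytic (q : ℕ) [NeZero q] (χ : DirichletCharacter ℂ q) (k : ℕ) (a : ℂ) (t : ℂ) (ht : t + a ≠ 1 ∨ χ ≠ 1) :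
    AnalyticAt ℂ (fun s => iteratedDeriv k (DirichletCharacter.LFunction χ) (s + a)) t := by
  have h1 : AnalyticAt ℂ (DirichletCharacter.LFunction χ) (t + a) := by
    rcases ht with ht | ht
    · have h2 : ∀ᶠ z in 𝓝 (t + a), DifferentiableAt ℂ (DirichletCharacter.LFunction χ) z := by
        filter_upwards [isOpen_ne.mem_nhds ht] with z hz
        exact DirichletCharacter.differentiableAt_LFunction χ z (Or.inl hz)
      exact Complex.analyticAt_iff_eventually_differentiableAt.2 h2
    · exact (DirichletCharacter.differentiable_LFunction ht).analyticAt _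
  have h2 : AnalyticAt ℂ (fun s : ℂ => s + a) t := analyticAt_id.add analyticAt_const
  exact AnalyticAt.comp (g := fun s => iteratedDeriv k (DirichletCharacter.LFunction χ) s) (f := fun s : ℂ => s + a)
    (iter_analytic h1 k) h2

theorem pow_analytic (b : ℝ) (hb : 0 < b) (t : ℂ) : AnalyticAt ℂ (fun s => (b : ℂ) ^ s) t := by
  have h1 : (fun s => (b : ℂ) ^ s) = fun s => Complex.exp (Complex.log b * s) := by
    funext s
    exact Complex.cpow_def_of_ne_zero (by exact_mod_cast hb.ne') s
  rw [h1]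
  exact (analyticAt_const.mul analyticAt_id).cexp

end Pool.Agent.Y922.ZF
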