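import Pool.Agent.Y922.ZF.GenJ

/-!
# Families of Dirichlet series which are linearly independent at the large primes: dilations
-/

set_option autoImplicit false

open Finset Filter Asymptotics Topology

namespace Pool.Agent.Y922.ZF

/-- linear independence at the large primes -/
def PN {Y : Type} [Fintype Y] (f : Y → ℕ → ℂ) : Prop :=
  ∀ N : ℕ, ∀ c : Y → ℂ, (∀ p : ℕ, p.Prime → N < p → ∑ y, c y * f y p = 0) → c = 0

theorem PL_of_PN {Y : Type} [Fintype Y] (f : Y → ℕ → ℂ) (hf : PN f) (J : ℕ) :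
    PL (fun (y : Y × Fin J) => f y.1) (fun y => (y.2 : ℕ) + 1) 1 := by
  classical
  intro j N c hc0 hc
  funext ⟨⟨y, i⟩, k⟩
  have hk : k = 0 := Subsingleton.elim _ _
  subst hk
  by_cases hi : (i : ℕ) + 1 = j
  · have h1 := hf N (fun y => c ((y, i), 0)) (fun p hp hNp => by
      rw [← hc p hp hNp, Fintype.sum_prod_type, Fintype.sum_prod_type]
      refine Finset.sum_congr rfl fun z _ => ?_
      rw [Finset.sum_eq_single i]
      · rw [Fin.sum_univ_one, H_apply _ _ _ _ hp.ne_zero]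
        simp
      · intro l _ hl
        rw [Fin.sum_univ_one, hc0 ((z, l), 0) (fun h => hl (Fin.ext (by have h' : (l : ℕ) + 1 = j := h; omega)))]
        simp
      · intro h
        exact absurd (Finset.mem_univ i) h)
    exact congrFun h1 y
  · exact hc0 ((y, i), 0) hi

/-- vectors over a number field which span at the large primes -/
theorem PN_field {E : Type} [Field E] [NumberField E] {r : ℕ} (a : Fin r → ℕ → E)
    (ha : ∀ N : ℕ, Submodule.span ℚ {x : Fin r → E | ∃ p : ℕ, p.Prime ∧ N < p ∧ x = fun i => a i p} = ⊤) :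
    PN fun (y : Fin r × (E →+* ℂ)) (n : ℕ) => y.2 (a y.1 n) := by
  classical
  intro N c hc
  have h1 : ∀ x : Fin r → E, ∑ y : Fin r × (E →+* ℂ), c y * y.2 (x y.1) = 0 := by
    intro x
    have hx : x ∈ Submodule.span ℚ {x : Fin r → E | ∃ p : ℕ, p.Prime ∧ N < p ∧ x = fun i => a i p} := by
      rw [ha N]
      exact Submodule.mem_top
    induction hx using Submodule.span_induction with
    | mem x hx =>
      obtain ⟨p, hp, hNp, rfl⟩ := hx
      exact hc p hp hNp
    | zero => simp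
    | add x y _ _ hx hy =>
      simp only [Pi.add_apply, map_add, mul_add, Finset.sum_add_distrib]
      rw [hx, hy, add_zero]
    | smul q x _ hx =>
      have h2 : ∀ y : Fin r × (E →+* ℂ), c y * y.2 ((q • x) y.1) = (q : ℂ) * (c y * y.2 (x y.1)) := by
        intro y
        rw [Pi.smul_apply, Rat.smul_def, map_mul, map_ratCast]
        ring
      simp_rw [h2]
      rw [← Finset.mul_sum, hx, mul_zero]
  funext ⟨i, τ⟩
  have h2 : ∀ x : E, ∑ σ : E →+* ℂ, c (i, σ) * σ x = 0 := by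
    intro x
    rw [← h1 (Pi.single i x), Fintype.sum_prod_type, Finset.sum_eq_single i]
    · simp
    · intro k _ hk
      refine Finset.sum_eq_zero fun σ _ => ?_
      rw [Pi.single_eq_of_ne hk, map_zero, mul_zero]
    · intro h
      exact absurd (Finset.mem_univ i) h
  have h3 := linearIndependent_monoidHom E ℂ
  have hinj : Function.Injective fun σ : E →+* ℂ => (σ : E →* ℂ) := by
    intro σ τ h
    ext x
    exact DFunLike.congr_fun h x
  have h4 := h3.comp _ hinj
  rw [Fintype.linearIndependent_iff] at h4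
  exact h4 (fun σ => c (i, σ)) (by
    funext x
    rw [Finset.sum_apply]
    simp only [Function.comp, Pi.smul_apply, smul_eq_mul, Pi.zero_apply]
    exact h2 x) τ

/-- polynomials in `p` and in sequences without polynomial relations -/
theorem PN_poly {r : ℕ} (a : Fin r → ℕ → ℂ)
    (ha : ∀ N : ℕ, ∀ Q : MvPolynomial (Option (Fin r)) ℂ,
      (∀ p : ℕ, p.Prime → N < p → MvPolynomial.eval (fun o : Option (Fin r) => o.elim (p : ℂ) fun i => a i p) Q = 0) →
        Q = 0)
    {Y : Type} [Fintype Y] (Q : Y → MvPolynomial (Option (Fin r)) ℂ) (hQ : LinearIndependent ℂ Q) (b : Y → ℕ → ℂ)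
    (e N₀ : ℕ) (hb : ∀ y, ∀ p : ℕ, p.Prime → N₀ < p →
      (p : ℂ) ^ e * b y p = MvPolynomial.eval (fun o : Option (Fin r) => o.elim (p : ℂ) fun i => a i p) (Q y)) :
    PN b := by
  classical
  intro N c hc
  have h1 := ha (max N N₀) (∑ y, c y • Q y) (fun p hp hNp => by
    have h2 : N < p := lt_of_le_of_lt (le_max_left _ _) hNp
    have h3 : N₀ < p := lt_of_le_of_lt (le_max_right _ _) hNp
    rw [map_sum]
    have h4 : ∀ y, MvPolynomial.eval (fun o : Option (Fin r) => o.elim (p : ℂ) fun i => a i p) (c y • Q y) =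
        (p : ℂ) ^ e * (c y * b y p) := by
      intro y
      rw [MvPolynomial.smul_eval, ← hb y p hp h3]
      ring
    simp_rw [h4]
    rw [← Finset.mul_sum, hc p hp h2, mul_zero])
  exact funext fun y => Fintype.linearIndependent_iff.1 hQ c h1 y

/-- exponentials, the Gamma function, derivatives of the digamma function and Dirichlet series at multiples of the
argument -/
noncomputable def vE {Y : Type} {h : ℕ} (β : Fin h → ℝ) (L : Y → ℂ → ℂ) (J w : ℕ) (s : ℂ) :
    Fin h ⊕ (Unit ⊕ (Fin w ⊕ (Y × Fin J))) → ℂ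
  | Sum.inl l => (β l : ℂ) ^ s
  | Sum.inr (Sum.inl _) => Complex.Gamma s
  | Sum.inr (Sum.inr (Sum.inl k)) => iteratedDeriv k Complex.digamma s
  | Sum.inr (Sum.inr (Sum.inr x)) => L x.1 ((((x.2 : ℕ) + 1 : ℕ) : ℂ) * s)

theorem oneE (g : ℕ) {Y : Type} [Fintype Y] [DecidableEq Y] {h : ℕ} (β : Fin h → ℝ) (hβ0 : ∀ l, 0 < β l)
    (hβ : ∀ v : Fin h → ℤ, (∃ x : ℚ, ∏ l, β l ^ v l = x) → v = 0) (f : Y → ℕ → ℂ) (hf : PN f) (c : ℝ)
    (hfs : ∀ y, ∀ s : ℂ, c < s.re → LSeriesSummable (f y) s) (F : Y → ℂ → ℂ)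
    (hF : ∀ y, ∀ s : ℂ, c < s.re → F y s = LSeries (f y) s) (J : ℕ) (U : Set ℂ) (hUc : IsPreconnected U)
    (hU : ∀ᶠ s : ℝ in atTop, (s : ℂ) ∈ U) (hU0 : ∀ s ∈ U, ∀ m : ℕ, s ≠ -m)
    (hFU : ∀ y, ∀ j : Fin J, ∀ s ∈ U, AnalyticAt ℂ (F y) ((((j : ℕ) + 1 : ℕ) : ℂ) * s)) (w : ℕ) (L : Set ℂ)
    (hL : IsCompact L) (hLU : L ⊆ U) :
    Y124.OneV g (fun R T => {t | t ∈ L ∧ Y120.Pt R T t}) (vE β F J w) := by
  have han : ∀ i, AnalyticOnNhd ℂ (fun s => vE β F J w s i) U := by
    intro i z hz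
    rcases i with l | (_ | (k | x))
    · exact pow_analytic (β l) (hβ0 l) z
    · exact gamma_analytic (hU0 z hz)
    · exact iter_analytic (digamma_analytic (hU0 z hz)) k
    · have h2 : AnalyticAt ℂ (fun s : ℂ => (((x.2 : ℕ) + 1 : ℕ) : ℂ) * s) z := analyticAt_const.mul analyticAt_id
      exact AnalyticAt.comp (g := F x.1) (f := fun s : ℂ => (((x.2 : ℕ) + 1 : ℕ) : ℂ) * s) (hFU x.1 x.2 z hz) h2
  exact Y124.oneV_of g (fun i s => vE β F J w s i) L hL (fun i t ht => han i t (hLU ht)) fun t ht =>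
    locInd_J (fun y : Y × Fin J => f y.1) (fun y => (y.2 : ℕ) + 1) (fun y => Nat.succ_ne_zero _) 1 (PL_of_PN f hf J) c
      (fun y => hfs y.1) (fun y => F y.1) (fun y => hF y.1) h w β hβ0 hβ (fun i s => vE β F J w s i)
      (fun i => match i with
        | Sum.inl l => Sum.inl l
        | Sum.inr (Sum.inl u) => Sum.inr (Sum.inl u)
        | Sum.inr (Sum.inr (Sum.inl k)) => Sum.inr (Sum.inr (Sum.inl k))
        | Sum.inr (Sum.inr (Sum.inr x)) => Sum.inr (Sum.inr (Sum.inr (x, 0))))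
      (fun x y hxy => by
        rcases x with x | (x | (x | x)) <;> rcases y with y | (y | (y | y)) <;> simp_all)
      (fun y s => by rcases y with l | (u | (k | x)) <;> rfl) U hUc hU han t (hLU ht)

end Pool.Agent.Y922.ZF
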