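import Mathlib

/-!
# Algebraic independence in the ring of arithmetic functions

If the vectors `(g_y(p))_y`, `p` prime, span `ℂ^σ` then the arithmetic functions `g_y` are algebraically independent.
-/

set_option autoImplicit false

open Finset

namespace Pool.Agent.Y922.ZF

/-- multiplication by the `p`-adic valuation: a derivation of the ring of arithmetic functions -/
noncomputable def dl (p : ℕ) (f : ArithmeticFunction ℂ) : ArithmeticFunction ℂ :=
  ⟨fun n => (n.factorization p : ℂ) * f n, by simp⟩

theorem dl_apply (p : ℕ) (f : ArithmeticFunction ℂ) (n : ℕ) : dl p f n = (n.factorization p : ℂ) * f n := rfl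

theorem dl_add (p : ℕ) (f g : ArithmeticFunction ℂ) : dl p (f + g) = dl p f + dl p g := by
  ext n
  simp only [dl_apply, ArithmeticFunction.add_apply]
  ring

theorem dl_mul (p : ℕ) (f g : ArithmeticFunction ℂ) : dl p (f * g) = dl p f * g + f * dl p g := by
  ext n
  simp only [dl_apply, ArithmeticFunction.add_apply, ArithmeticFunction.mul_apply]
  rw [Finset.mul_sum, ← Finset.sum_add_distrib]
  refine Finset.sum_congr rfl fun x hx => ?_
  obtain ⟨h1, h2⟩ := Nat.mem_divisorsAntidiagonal.1 hx
  have hx1 : x.1 ≠ 0 := by
    rintro h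
    rw [h, zero_mul] at h1
    exact h2 h1.symm
  have hx2 : x.2 ≠ 0 := by
    rintro h
    rw [h, mul_zero] at h1
    exact h2 h1.symm
  rw [← h1, Nat.factorization_mul hx1 hx2, Finsupp.add_apply]
  push_cast
  ring

theorem dl_one (p : ℕ) : dl p (1 : ArithmeticFunction ℂ) = 0 := by
  ext n
  rw [dl_apply]
  by_cases hn : n = 1
  · subst hn
    simp
  · rw [ArithmeticFunction.one_apply_ne hn]
    simp

theorem dl_smul (p : ℕ) (a : ℂ) (f : ArithmeticFunction ℂ) : dl p (a • f) = a • dl p f := by
  ext n
  simp only [dl_apply, ArithmeticFunction.smul_map, smul_eq_mul]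
  ring

theorem dl_sum (p : ℕ) {σ : Type} (s : Finset σ) (f : σ → ArithmeticFunction ℂ) :
    dl p (∑ i ∈ s, f i) = ∑ i ∈ s, dl p (f i) := by
  classical
  induction s using Finset.induction_on with
  | empty =>
    ext n
    simp [dl_apply]
  | insert i s hi ih => rw [Finset.sum_insert hi, Finset.sum_insert hi, dl_add, ih]

open MvPolynomial in
/-- the chain rule -/
theorem dl_aeval (p : ℕ) {σ : Type} [Fintype σ] (g : σ → ArithmeticFunction ℂ) (P : MvPolynomial σ ℂ) :
    dl p (MvPolynomial.aeval g P) = ∑ i, MvPolynomial.aeval g (MvPolynomial.pderiv i P) * dl p (g i) := by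
  classical
  induction P using MvPolynomial.induction_on with
  | C a =>
    rw [MvPolynomial.aeval_C, Algebra.algebraMap_eq_smul_one, dl_smul, dl_one, smul_zero]
    simp
  | add P Q hP hQ =>
    rw [map_add, dl_add, hP, hQ, ← Finset.sum_add_distrib]
    refine Finset.sum_congr rfl fun i _ => ?_
    rw [map_add, map_add, add_mul]
  | mul_X P j hP =>
    rw [map_mul, dl_mul, hP, MvPolynomial.aeval_X, Finset.sum_mul]
    have h1 : ∀ i, MvPolynomial.aeval g (MvPolynomial.pderiv i (P * MvPolynomial.X j)) * dl p (g i) =
        MvPolynomial.aeval g (MvPolynomial.pderiv i P) * dl p (g i) * g j +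
          (if i = j then MvPolynomial.aeval g P * dl p (g j) else 0) := by
      intro i
      rw [MvPolynomial.pderiv_mul, map_add, map_mul, map_mul, MvPolynomial.aeval_X, MvPolynomial.pderiv_X,
        add_mul]
      by_cases hij : i = j
      · subst hij
        simp
        ring
      · rw [if_neg hij, Pi.single_apply, if_neg (fun h => hij h.symm)]
        simp
        ring
    simp_rw [h1]
    rw [Finset.sum_add_distrib, Finset.sum_ite_eq' Finset.univ j]
    simp

/-- the value of a product at `p n` if the first factor vanishes below `n` -/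
theorem mul_dl_apply {p : ℕ} (hp : p.Prime) (x g : ArithmeticFunction ℂ) (n : ℕ) (hn : n ≠ 0) (hx : ∀ m < n, x m = 0) :
    (x * dl p g) (p * n) = x n * g p := by
  rw [ArithmeticFunction.mul_apply]
  rw [Finset.sum_eq_single (n, p)]
  · rw [dl_apply, hp.factorization_self]
    simp
  · rintro ⟨a, b⟩ hab hne
    obtain ⟨h1, h2⟩ := Nat.mem_divisorsAntidiagonal.1 hab
    simp only at h1 ⊢
    by_cases ha : a < n
    · rw [hx a ha, zero_mul]
    · have ha' : n ≤ a := not_lt.1 ha
      rw [dl_apply]
      by_cases hb : p ∣ b
      · exfalso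
        obtain ⟨c, rfl⟩ := hb
        have h3 : a * c = n := by
          have : p * (a * c) = p * n := by rw [← h1]; ring
          exact Nat.eq_of_mul_eq_mul_left hp.pos this
        have hc : c ≠ 0 := by
          rintro rfl
          rw [mul_zero] at h3
          exact hn h3.symm
        have h4 : c = 1 := by
          by_contra hc1
          have : 2 ≤ c := by omega
          have : n * 2 ≤ a * c := Nat.mul_le_mul ha' this
          omega
        subst h4
        rw [mul_one] at h3
        subst h3
        exact hne (by simp)
      · rw [Nat.factorization_eq_zero_of_not_dvd hb]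
        simp
  · intro h
    exfalso
    exact h (Nat.mem_divisorsAntidiagonal.2 ⟨by ring, mul_ne_zero hp.ne_zero hn⟩)

/-- In characteristic zero, a polynomial with vanishing partial derivatives is constant. -/
theorem eq_C_of_pderiv {σ : Type} [Fintype σ] (P : MvPolynomial σ ℂ) (h : ∀ i, MvPolynomial.pderiv i P = 0) :
    P = MvPolynomial.C (P.coeff 0) := by
  classical
  ext m
  rw [MvPolynomial.coeff_C]
  split_ifs with hm
  · rw [hm]
  · have : ∃ i, m i ≠ 0 := by
      by_contra hcon
      push Not at hcon
      exact hm (Finsupp.ext fun i => (hcon i).symm)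
    obtain ⟨i, hi⟩ := this
    have h1 := congrArg (MvPolynomial.coeff (m - Finsupp.single i 1)) (h i)
    rw [MvPolynomial.coeff_pderiv, MvPolynomial.coeff_zero] at h1
    have h2 : m - Finsupp.single i 1 + Finsupp.single i 1 = m := by
      ext j
      by_cases hij : j = i
      · subst hij
        simp
        omega
      · simp [Finsupp.single_apply, Ne.symm hij]
    rw [h2] at h1
    rcases mul_eq_zero.1 h1 with h3 | h3
    · exact h3
    · exfalso
      have h4 : (((((m - Finsupp.single i 1 : σ →₀ ℕ)) i : ℕ) + 1 : ℕ) : ℂ) = 0 := by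
        push_cast
        exact h3
      exact absurd (Nat.cast_eq_zero.1 h4) (by omega)

theorem totalDegree_pderiv_lt {σ : Type} [Fintype σ] (P : MvPolynomial σ ℂ) (i : σ) (h : MvPolynomial.pderiv i P ≠ 0) :
    (MvPolynomial.pderiv i P).totalDegree < P.totalDegree := by
  classical
  have h1 : ∀ m, (MvPolynomial.pderiv i P).coeff m ≠ 0 → m.degree + 1 ≤ P.totalDegree := by
    intro m hm
    rw [MvPolynomial.coeff_pderiv] at hm
    have h2 : P.coeff (m + Finsupp.single i 1) ≠ 0 := left_ne_zero_of_mul hm
    have h3 := MvPolynomial.le_totalDegree (MvPolynomial.mem_support_iff.2 h2)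
    have h4 : ((m + Finsupp.single i 1).sum fun _ e => e) = m.degree + 1 := by
      have : ((m + Finsupp.single i 1).sum fun _ e => e) = (m + Finsupp.single i 1).degree := rfl
      rw [this, map_add, Finsupp.degree_single]
    omega
  obtain ⟨m, hm⟩ := MvPolynomial.ne_zero_iff.1 h
  have h5 := h1 m hm
  rw [MvPolynomial.totalDegree]
  refine (Finset.sup_lt_iff (by rw [Nat.bot_eq_zero]; omega)).2 fun b hb => ?_
  have h6 := h1 b (MvPolynomial.mem_support_iff.1 hb)
  have : (b.sum fun _ e => e) = b.degree := rfl
  rw [this]
  omega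

/-- Let `g_y`, `y ∈ σ`, be arithmetic functions such that no nontrivial linear combination vanishes at all primes. Then
they are algebraically independent over `ℂ`. -/
theorem aeval_inj {σ : Type} [Fintype σ] (g : σ → ArithmeticFunction ℂ)
    (hg : ∀ c : σ → ℂ, (∀ p : ℕ, p.Prime → ∑ y, c y * g y p = 0) → c = 0) :
    ∀ (d : ℕ) (P : MvPolynomial σ ℂ), P.totalDegree ≤ d → MvPolynomial.aeval g P = 0 → P = 0 := by
  classical
  intro d
  induction d with
  | zero =>
    intro P hd hP
    have h1 := MvPolynomial.totalDegree_eq_zero_iff_eq_C.1 (Nat.le_zero.1 hd)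
    rw [h1, MvPolynomial.aeval_C] at hP
    have h2 := ArithmeticFunction.algebraMap_apply_one (R := ℂ) (S := ℂ) (P.coeff 0)
    rw [hP] at h2
    have h3 : P.coeff 0 = 0 := by simpa using h2.symm
    rw [h1, h3, map_zero]
  | succ d ih =>
    intro P hd hP
    -- the derivatives vanish
    have hx : ∀ n : ℕ, ∀ i, MvPolynomial.aeval g (MvPolynomial.pderiv i P) n = 0 := by
      intro n
      induction n using Nat.strong_induction_on with
      | _ n ihn =>
        by_cases hn : n = 0
        · intro i
          rw [hn]
          exact ArithmeticFunction.map_zero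
        refine fun i => congrFun (hg (fun i => MvPolynomial.aeval g (MvPolynomial.pderiv i P) n) fun p hp => ?_) i
        have h1 := dl_aeval p g P
        rw [hP] at h1
        have h2 : dl p (0 : ArithmeticFunction ℂ) (p * n) =
            (∑ i, MvPolynomial.aeval g (MvPolynomial.pderiv i P) * dl p (g i)) (p * n) := by rw [h1]
        rw [dl_apply, ArithmeticFunction.zero_apply, mul_zero] at h2
        have h3 : (∑ i, MvPolynomial.aeval g (MvPolynomial.pderiv i P) * dl p (g i)) (p * n) =
            ∑ i, (MvPolynomial.aeval g (MvPolynomial.pderiv i P) * dl p (g i)) (p * n) := by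
          have : ∀ (s : Finset σ) (f : σ → ArithmeticFunction ℂ) (k : ℕ), (∑ i ∈ s, f i) k = ∑ i ∈ s, f i k := by
            intro s f k
            induction s using Finset.induction_on with
            | empty => simp
            | insert i s hi ih => rw [Finset.sum_insert hi, Finset.sum_insert hi, ArithmeticFunction.add_apply, ih]
          exact this _ _ _
        rw [h3] at h2
        rw [h2]
        refine Finset.sum_congr rfl fun i _ => ?_
        exact (mul_dl_apply hp _ _ n hn fun m hm => ihn m hm i).symm
    have h0 : ∀ i, MvPolynomial.pderiv i P = 0 := by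
      intro i
      by_contra hne
      have hlt := totalDegree_pderiv_lt P i hne
      exact hne (ih _ (by omega) (ArithmeticFunction.ext fun n => hx n i))
    have h1 := eq_C_of_pderiv P h0
    rw [h1, MvPolynomial.aeval_C] at hP
    have h2 := ArithmeticFunction.algebraMap_apply_one (R := ℂ) (S := ℂ) (P.coeff 0)
    rw [hP] at h2
    have h3 : P.coeff 0 = 0 := by simpa using h2.symm
    rw [h1, h3, map_zero]

end Pool.Agent.Y922.ZF
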