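import Pool.Agent.Y922.ZF.Slow

/-!
# The derivatives of the digamma function
-/

set_option autoImplicit false

open Finset Filter Asymptotics Topology

namespace Pool.Agent.Y922.ZF

/-- the domain of the Gamma function -/
def U0 : Set ℂ := {z | ∀ m : ℕ, z ≠ -m}

theorem U0_eq : U0 = {z | (Complex.Gamma z)⁻¹ ≠ 0} := by
  ext z
  simp only [U0, Set.mem_setOf_eq, ne_eq, inv_eq_zero, Complex.Gamma_eq_zero_iff, not_exists]

theorem U0_open : IsOpen U0 := by
  rw [U0_eq]
  exact isOpen_ne_fun Complex.differentiable_one_div_Gamma.continuous continuous_const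

theorem gamma_analytic {z : ℂ} (hz : z ∈ U0) : AnalyticAt ℂ Complex.Gamma z := by
  have h1 : AnalyticAt ℂ (fun z => (Complex.Gamma z)⁻¹) z :=
    Complex.differentiable_one_div_Gamma.analyticAt z
  have h2 : (Complex.Gamma z)⁻¹ ≠ 0 := by
    rw [U0_eq] at hz
    exact hz
  have h3 := h1.inv h2
  have h4 : (fun z => (Complex.Gamma z)⁻¹)⁻¹ = Complex.Gamma := by
    funext z
    simp
  rw [h4] at h3
  exact h3

theorem digamma_analytic {z : ℂ} (hz : z ∈ U0) : AnalyticAt ℂ Complex.digamma z := by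
  have h1 := gamma_analytic hz
  exact h1.deriv.div h1 (Complex.Gamma_ne_zero hz)

/-- derivatives of the digamma function -/
noncomputable def dg (k : ℕ) (s : ℂ) : ℂ := iteratedDeriv k Complex.digamma s

theorem iter_analytic {f : ℂ → ℂ} {z : ℂ} (h : AnalyticAt ℂ f z) (k : ℕ) :
    AnalyticAt ℂ (fun s => iteratedDeriv k f s) z := by
  have h1 := h.iterated_deriv k
  rw [← iteratedDeriv_eq_iterate] at h1
  exact h1

theorem dg_analytic (k : ℕ) {z : ℂ} (hz : z ∈ U0) : AnalyticAt ℂ (dg k) z := iter_analytic (digamma_analytic hz) k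

theorem pos_U0 {z : ℂ} (hz : 0 < z.re) : z ∈ U0 := by
  intro m h
  rw [h] at hz
  simp only [Complex.neg_re, Complex.natCast_re, Left.neg_pos_iff] at hz
  have : (0 : ℝ) ≤ m := Nat.cast_nonneg m
  linarith

/-- the constants in the increments -/
noncomputable def gk (k : ℕ) : ℂ := (-1) ^ k * (k.factorial : ℂ)

theorem gk_ne (k : ℕ) : gk k ≠ 0 := mul_ne_zero (pow_ne_zero _ (by norm_num)) (by exact_mod_cast k.factorial_ne_zero)

theorem dg_shift (k : ℕ) (s : ℝ) (hs : 0 < s) : dg k ((s : ℂ) + 1) = dg k s + gk k / (s : ℂ) ^ (k + 1) := by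
  have hsU : (s : ℂ) ∈ U0 := pos_U0 (by simpa using hs)
  have h1 : (fun z : ℂ => Complex.digamma (z + 1)) =ᶠ[𝓝 (s : ℂ)] fun z => Complex.digamma z + z⁻¹ := by
    filter_upwards [U0_open.mem_nhds hsU] with z hz
    exact Complex.digamma_apply_add_one z hz
  have hs0 : (s : ℂ) ≠ 0 := by exact_mod_cast hs.ne'
  have h2 := h1.iteratedDeriv_eq k
  rw [iteratedDeriv_comp_add_const] at h2
  simp only at h2
  have h3 : iteratedDeriv k (fun z : ℂ => Complex.digamma z + z⁻¹) s =
      iteratedDeriv k Complex.digamma s + iteratedDeriv k (fun z : ℂ => z⁻¹) s :=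
    iteratedDeriv_fun_add (digamma_analytic hsU).contDiffAt (contDiffAt_inv ℂ hs0)
  rw [dg, h2, h3, dg]
  congr 1
  have h4 : (fun z : ℂ => z⁻¹) = Inv.inv := rfl
  rw [h4, iteratedDeriv_eq_iterate, iter_deriv_inv, gk, div_eq_mul_inv]
  congr 1
  rw [← zpow_natCast, ← zpow_neg]
  congr 1
  push_cast
  ring

theorem dg_SE (k : ℕ) : SE fun s : ℝ => dg k (s : ℂ) := by
  have hcont : ContinuousOn (fun s : ℝ => dg k (s : ℂ)) (Set.Icc 1 2) := by
    intro s hs
    have h1 := (dg_analytic k (z := (s : ℂ)) (pos_U0 (by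
      rw [Complex.ofReal_re]
      linarith [hs.1]))).continuousAt
    exact (ContinuousAt.comp (f := fun s : ℝ => (s : ℂ)) h1 Complex.continuous_ofReal.continuousAt).continuousWithinAt
  obtain ⟨M, hM⟩ := isCompact_Icc.exists_bound_of_continuousOn hcont
  have hM0 : 0 ≤ M := (norm_nonneg _).trans (hM 1 (by constructor <;> norm_num))
  have h1 : ∀ n : ℕ, ∀ s : ℝ, (n : ℝ) + 1 ≤ s → s ≤ n + 2 → ‖dg k (s : ℂ)‖ ≤ M + n * ‖gk k‖ := by
    intro n
    induction n with
    | zero =>
      intro s h1 h2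
      have := hM s ⟨by simpa using h1, by simpa using h2⟩
      simpa using this
    | succ n ih =>
      intro s h1 h2
      push_cast at h1 h2 ⊢
      have hn0 : (0 : ℝ) ≤ n := Nat.cast_nonneg n
      have h3 := dg_shift k (s - 1) (by linarith)
      have h4 : (((s - 1 : ℝ) : ℂ) + 1) = (s : ℂ) := by
        push_cast
        ring
      rw [h4] at h3
      rw [h3]
      have h5 := ih (s - 1) (by linarith) (by linarith)
      have h6 : ‖gk k / ((s - 1 : ℝ) : ℂ) ^ (k + 1)‖ ≤ ‖gk k‖ := by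
        rw [norm_div, norm_pow, Complex.norm_real, Real.norm_of_nonneg (by linarith)]
        exact div_le_self (norm_nonneg _) (one_le_pow₀ (by linarith))
      calc ‖dg k ((s - 1 : ℝ) : ℂ) + gk k / ((s - 1 : ℝ) : ℂ) ^ (k + 1)‖
          ≤ (M + n * ‖gk k‖) + ‖gk k‖ := (norm_add_le _ _).trans (add_le_add h5 h6)
        _ = M + (n + 1) * ‖gk k‖ := by ring
  have h2 : (fun s : ℝ => dg k (s : ℂ)) =O[atTop] fun s : ℝ => (s : ℂ) := by
    refine IsBigO.of_bound (M + ‖gk k‖) ?_
    filter_upwards [eventually_ge_atTop 1] with s hs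
    have h3 : (⌊s - 1⌋₊ : ℝ) ≤ s - 1 := Nat.floor_le (by linarith)
    have h4 : s - 1 < ⌊s - 1⌋₊ + 1 := Nat.lt_floor_add_one _
    have h5 := h1 ⌊s - 1⌋₊ s (by linarith) (by linarith)
    rw [Complex.norm_real, Real.norm_of_nonneg (by linarith)]
    refine h5.trans ?_
    have h6 : (⌊s - 1⌋₊ : ℝ) * ‖gk k‖ ≤ s * ‖gk k‖ :=
      mul_le_mul_of_nonneg_right (by linarith) (norm_nonneg _)
    nlinarith [norm_nonneg (gk k)]
  exact fun ε hε => h2.trans (SE.id ε hε)

/-- the Gamma function grows faster than all exponentials -/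
theorem gamma_large (C : ℝ) : ∀ᶠ s : ℝ in atTop, Real.exp (C * s) ≤ Real.Gamma s := by
  set c : ℝ := |C| with hc
  have h1 := FloorSemiring.tendsto_pow_div_factorial_atTop (Real.exp c)
  have h2 : ∀ᶠ m : ℕ in atTop, Real.exp c ^ m / (m.factorial : ℝ) ≤ Real.exp (-(2 * c)) :=
    h1.eventually_le_const (Real.exp_pos _)
  have h3 : Tendsto (fun s : ℝ => ⌊s⌋₊ - 1) atTop atTop :=
    (tendsto_sub_atTop_nat 1).comp tendsto_nat_floor_atTop
  filter_upwards [h3.eventually h2, eventually_ge_atTop 3] with s hs hs3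
  set n := ⌊s⌋₊ with hn
  have hn3 : 3 ≤ n := Nat.le_floor (by exact_mod_cast hs3)
  have hns : (n : ℝ) ≤ s := Nat.floor_le (by linarith)
  have hsn : s < n + 1 := Nat.lt_floor_add_one s
  have h4 : Real.Gamma n ≤ Real.Gamma s := by
    refine Real.Gamma_strictMonoOn_Ici.monotoneOn ?_ ?_ hns
    · simp only [Set.mem_Ici]
      exact_mod_cast (by omega : 2 ≤ n)
    · simp only [Set.mem_Ici]
      linarith
  have h5 : Real.Gamma n = ((n - 1).factorial : ℝ) := by
    have := Real.Gamma_nat_eq_factorial (n - 1)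
    rw [← this]
    congr 1
    have h6 : ((n - 1 : ℕ) : ℝ) = (n : ℝ) - 1 := by
      rw [Nat.cast_sub (by omega)]
      simp
    rw [h6]
    ring
  rw [div_le_iff₀ (by exact_mod_cast (n - 1).factorial_pos)] at hs
  have h6 : Real.exp (C * s) ≤ Real.exp (c * (n + 1)) := by
    refine Real.exp_le_exp.2 ?_
    calc C * s ≤ c * s := mul_le_mul_of_nonneg_right (le_abs_self C) (by linarith)
      _ ≤ c * (n + 1) := mul_le_mul_of_nonneg_left hsn.le (abs_nonneg C)
  have h7 : Real.exp (c * (n + 1)) = Real.exp (2 * c) * Real.exp c ^ (n - 1) := by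
    rw [← Real.exp_nat_mul, ← Real.exp_add]
    congr 1
    rw [Nat.cast_sub (by omega)]
    push_cast
    ring
  rw [← h5] at hs
  calc Real.exp (C * s) ≤ Real.exp (2 * c) * Real.exp c ^ (n - 1) := by rw [← h7]; exact h6
    _ ≤ Real.exp (2 * c) * (Real.exp (-(2 * c)) * Real.Gamma n) := mul_le_mul_of_nonneg_left hs (Real.exp_pos _).le
    _ = Real.Gamma n := by rw [← mul_assoc, ← Real.exp_add]; simp
    _ ≤ Real.Gamma s := h4

/-- the slowly varying functions -/
noncomputable def bs (w : ℕ) (o : Option (Fin w)) (s : ℝ) : ℂ := o.elim (s : ℂ) fun k => dg k s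

theorem bs_SE (w : ℕ) (o : Option (Fin w)) : SE (bs w o) := by
  rcases o with _ | k
  · exact SE.id
  · exact dg_SE k

theorem bs_indep (w : ℕ) (P : MvPolynomial (Option (Fin w)) ℂ)
    (hP : ES fun s : ℝ => MvPolynomial.aeval (fun o => bs w o s) P) : P = 0 := by
  refine slow (fun (k : Fin w) (s : ℝ) => dg k (s : ℂ)) (fun k => gk k) (fun k => dg_SE k) (fun k => gk_ne k)
    (fun k => ?_) P hP
  filter_upwards [eventually_gt_atTop 0] with s hs
  have := dg_shift k s hs
  push_cast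
  exact this

end Pool.Agent.Y922.ZF
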