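import Pool.Agent.Y922.ZF.Full

/-!
# Joint independence of exponentials, the Gamma function, derivatives of the digamma function and of general
Dirichlet series
-/

set_option autoImplicit false

open Finset Filter Asymptotics Topology

namespace Pool.Agent.Y922.ZF

/-- the coefficients of the derivatives of the shifted Dirichlet series -/
noncomputable def H (f : ℕ → ℂ) (a : ℝ) (k : ℕ) : ArithmeticFunction ℂ :=
  ⟨fun n => if n = 0 then 0 else f n * ((Real.exp (-a * Real.log n) * Real.log n ^ k * (-1) ^ k : ℝ) : ℂ), by simp⟩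

theorem H_apply (f : ℕ → ℂ) (a : ℝ) (k n : ℕ) (hn : n ≠ 0) :
    H f a k n = f n * ((Real.exp (-a * Real.log n) * Real.log n ^ k * (-1) ^ k : ℝ) : ℂ) := by
  change (if n = 0 then 0 else _) = _
  rw [if_neg hn]

/-- families of coefficients which are independent at the primes: on infinitely many primes of every class `x` the
values are proportional to `φ y x`, the `φ y` being linearly independent -/
def PI {Y : Type} (f : Y → ℕ → ℂ) : Prop :=
  ∃ (X : Type) (φ : Y → X → ℂ), LinearIndependent ℂ φ ∧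
    ∀ x, ∀ N : ℕ, ∃ p : ℕ, N < p ∧ p.Prime ∧ ∃ l : ℂ, l ≠ 0 ∧ ∀ y, f y p = φ y x * l

/-- one sequence which does not vanish at infinitely many primes -/
theorem PI_one (f : ℕ → ℂ) (hf : {p : ℕ | p.Prime ∧ f p ≠ 0}.Infinite) : PI fun _ : Unit => f := by
  refine ⟨Unit, fun _ _ => 1, ?_, fun x N => ?_⟩
  · rw [Fintype.linearIndependent_iff]
    intro c hc y
    have := congrFun hc ()
    simpa using this
  · obtain ⟨p, hp, hpN⟩ := hf.exists_gt N
    exact ⟨p, hpN, hp.1, f p, hp.2, fun y => by rw [one_mul]⟩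

/-- the condition at the primes -/
theorem H_prime {Y : Type} [Fintype Y] (f : Y → ℕ → ℂ) (hf : PI f) {r w : ℕ} (a : Fin r → ℝ)
    (ha : Function.Injective a) (c : Y × Fin r × Fin w → ℂ)
    (h : ∀ p : ℕ, p.Prime → ∑ y, c y * H (f y.1) (a y.2.1) y.2.2 p = 0) : c = 0 := by
  classical
  obtain ⟨X, φ, hφ, hx⟩ := hf
  -- the coefficients for a class
  set C : X → Fin r × Fin w → ℂ := fun x y => ∑ i : Y, c (i, y) * φ i x with hC
  have hC0 : ∀ x, ∀ y, C x y = 0 := by
    intro x
    have h1 : (fun y : Fin r × Fin w => C x y * (-1) ^ (y.2 : ℕ)) = 0 := by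
      refine dom (K := ℝ ×ₗ ℕ) (fun y : Fin r × Fin w => toLex (-a y.1, (y.2 : ℕ))) ?_
        (fun y x => ((Real.exp (-a y.1 * x) * x ^ (y.2 : ℕ) : ℝ) : ℂ)) ?_ (fun i j hij => powexp _ _ _ _ hij) _ ?_
      · intro y z hyz
        have h2 := toLex_inj.1 hyz
        rw [Prod.mk.injEq] at h2
        exact Prod.ext (ha (neg_inj.1 h2.1)) (Fin.ext h2.2)
      · intro y
        filter_upwards [eventually_gt_atTop 0] with x hx
        have : Real.exp (-a y.1 * x) * x ^ (y.2 : ℕ) ≠ 0 := by positivity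
        exact_mod_cast this
      · rw [frequently_atTop]
        intro b
        obtain ⟨p, hpn, hp, l, hl, hpx⟩ := hx x ⌈Real.exp b⌉₊
        refine ⟨Real.log p, ?_, ?_⟩
        · rw [Real.le_log_iff_exp_le (by exact_mod_cast hp.pos)]
          exact (Nat.le_ceil _).trans (by exact_mod_cast hpn.le)
        · have h2 := h p hp
          rw [Fintype.sum_prod_type, Finset.sum_comm] at h2
          refine mul_left_cancel₀ hl ?_
          rw [mul_zero, ← h2, Finset.mul_sum]
          refine Finset.sum_congr rfl fun y _ => ?_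
          simp only [hC]
          rw [Finset.sum_mul, Finset.sum_mul, Finset.mul_sum]
          refine Finset.sum_congr rfl fun i _ => ?_
          rw [H_apply _ _ _ _ hp.ne_zero, hpx]
          push_cast
          ring
    intro y
    have h2 := congrFun h1 y
    simp only [Pi.zero_apply] at h2
    exact (mul_eq_zero.1 h2).resolve_right (pow_ne_zero _ (by norm_num))
  funext ⟨i, y⟩
  have h3 := Fintype.linearIndependent_iff.1 hφ (fun i => c (i, y)) (by
    funext x
    rw [Finset.sum_apply]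
    simp only [Pi.smul_apply, smul_eq_mul, Pi.zero_apply]
    exact hC0 x y) i
  exact h3

theorem H_term (f : ℕ → ℂ) (a : ℝ) (k : ℕ) (s : ℂ) (n : ℕ) :
    LSeries.term (fun n => H f a k n) s n = (-1) ^ k * LSeries.term (LSeries.logMul^[k] f) (s + a) n := by
  by_cases hn : n = 0
  · subst hn
    simp
  rw [LSeries.term_of_ne_zero hn, LSeries.term_of_ne_zero hn, H_apply _ _ _ _ hn, logMul_iter]
  have hn' : (n : ℂ) ≠ 0 := by exact_mod_cast hn
  have hn1 : (0 : ℝ) < n := Nat.cast_pos.2 (Nat.pos_of_ne_zero hn)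
  have h1 : ((Real.exp (-a * Real.log n) : ℝ) : ℂ) = ((n : ℂ) ^ (a : ℂ))⁻¹ := by
    rw [← Complex.cpow_neg, mul_comm, ← Real.rpow_def_of_pos hn1, Complex.ofReal_cpow hn1.le]
    simp
  have h2 : Complex.log n = ((Real.log n : ℝ) : ℂ) := Complex.natCast_log.symm
  rw [Complex.cpow_add _ _ hn', h2, Complex.ofReal_mul, Complex.ofReal_mul, h1]
  push_cast
  have h4 : (n : ℂ) ^ (a : ℂ) ≠ 0 := by
    rw [Complex.cpow_ne_zero_iff]
    exact Or.inl hn'
  have h5 : (n : ℂ) ^ s ≠ 0 := by
    rw [Complex.cpow_ne_zero_iff]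
    exact Or.inl hn'
  field_simp

theorem absc_le {f : ℕ → ℂ} {c : ℝ} (hf : ∀ s : ℂ, c < s.re → LSeriesSummable f s) :
    LSeries.abscissaOfAbsConv f ≤ c := by
  refine LSeries.abscissaOfAbsConv_le_of_forall_lt_LSeriesSummable fun y hy => ?_
  exact hf _ (by simpa using hy)

theorem H_summable (f : ℕ → ℂ) (c : ℝ) (hf : ∀ s : ℂ, c < s.re → LSeriesSummable f s) (a : ℝ) (k : ℕ) (s : ℂ)
    (hs : c < (s + a).re) : LSeriesSummable (fun n => H f a k n) s := by
  have h1 : LSeriesSummable (LSeries.logMul^[k] f) (s + a) := by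
    refine LSeriesSummable_of_abscissaOfAbsConv_lt_re ?_
    rw [LSeries.absicssaOfAbsConv_logPowMul]
    exact lt_of_le_of_lt (absc_le hf) (by exact_mod_cast hs)
  have h2 : LSeries.term (fun n => H f a k n) s =
      fun n => (-1) ^ k * LSeries.term (LSeries.logMul^[k] f) (s + a) n :=
    funext fun n => H_term f a k s n
  rw [LSeriesSummable, h2]
  exact Summable.mul_left _ h1

theorem H_LSeries (f : ℕ → ℂ) (c : ℝ) (hf : ∀ s : ℂ, c < s.re → LSeriesSummable f s) (F : ℂ → ℂ)
    (hF : ∀ s : ℂ, c < s.re → F s = LSeries f s) (a : ℝ) (k : ℕ) (s : ℂ) (hs : c < (s + a).re) :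
    LSeries (fun n => H f a k n) s = iteratedDeriv k F (s + a) := by
  have h1 : F =ᶠ[𝓝 (s + a)] LSeries f := by
    have h2 : {z : ℂ | c < z.re} ∈ 𝓝 (s + a) :=
      (isOpen_lt continuous_const Complex.continuous_re).mem_nhds hs
    filter_upwards [h2] with z hz
    exact hF z hz
  rw [h1.iteratedDeriv_eq k, LSeries_iteratedDeriv k (lt_of_le_of_lt (absc_le hf) (by exact_mod_cast hs)), LSeries,
    LSeries, ← tsum_mul_left]
  exact tsum_congr fun n => H_term f a k s n

/-- the index set of all functions -/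
abbrev IdxG (Y : Type) (h r w v : ℕ) : Type := Fin h ⊕ (Unit ⊕ (Fin w ⊕ (Y × Fin r × Fin v)))

/-- all functions -/
noncomputable def FG {Y : Type} (F : Y → ℂ → ℂ) (h r w v : ℕ) (β : Fin h → ℝ) (a : Fin r → ℝ) (i : IdxG Y h r w v)
    (s : ℂ) : ℂ :=
  match i with
  | Sum.inl l => (β l : ℂ) ^ s
  | Sum.inr (Sum.inl _) => Complex.Gamma s
  | Sum.inr (Sum.inr (Sum.inl k)) => iteratedDeriv k Complex.digamma s
  | Sum.inr (Sum.inr (Sum.inr y)) => iteratedDeriv y.2.2 (F y.1) (s + a y.2.1)

/-- the index in the general theorem -/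
def eg (Y : Type) (h r w v : ℕ) (o : Option (IdxG Y h r w v)) :
    Option (Option (Fin w) ⊕ Fin h) ⊕ (Y × Fin r × Fin v) :=
  match o with
  | none => Sum.inl (some (Sum.inl none))
  | some (Sum.inl l) => Sum.inl (some (Sum.inr l))
  | some (Sum.inr (Sum.inl _)) => Sum.inl none
  | some (Sum.inr (Sum.inr (Sum.inl k))) => Sum.inl (some (Sum.inl (some k)))
  | some (Sum.inr (Sum.inr (Sum.inr y))) => Sum.inr y

theorem eg_inj (Y : Type) (h r w v : ℕ) : Function.Injective (eg Y h r w v) := by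
  intro x y hxy
  rcases x with _ | (x | (x | (x | x))) <;> rcases y with _ | (y | (y | (y | y))) <;> simp_all [eg]

/-- local independence for subfamilies -/
theorem locInd_genG {Y : Type} [Fintype Y] (f : Y → ℕ → ℂ) (hf : PI f) (c : ℝ)
    (hfs : ∀ y, ∀ s : ℂ, c < s.re → LSeriesSummable (f y) s) (F : Y → ℂ → ℂ)
    (hF : ∀ y, ∀ s : ℂ, c < s.re → F y s = LSeries (f y) s) (h r w v : ℕ) (β : Fin h → ℝ) (hβ0 : ∀ l, 0 < β l)
    (hβ : ∀ v : Fin h → ℤ, (∃ x : ℚ, ∏ l, β l ^ v l = x) → v = 0) (a : Fin r → ℝ) (ha : Function.Injective a)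
    {σ : Type} (φ : σ → ℂ → ℂ) (e : σ → IdxG Y h r w v) (he : Function.Injective e)
    (hfe : ∀ y s, φ y s = FG F h r w v β a (e y) s) (U : Set ℂ) (hUc : IsPreconnected U)
    (hU : ∀ᶠ s : ℝ in atTop, (s : ℂ) ∈ U) (han : ∀ i, AnalyticOnNhd ℂ (φ i) U) (t : ℂ) (ht : t ∈ U) :
    Y124.LocInd φ t := by
  classical
  set g : Y × Fin r × Fin v → ArithmeticFunction ℂ := fun y => H (f y.1) (a y.2.1) y.2.2 with hg
  set b : ℝ := ∑ i, |a i| + |c| + 1 with hb
  have hb' : ∀ s : ℝ, b ≤ s → ∀ i, c < ((s : ℂ) + (a i : ℂ)).re := by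
    intro s hs i
    simp only [Complex.add_re, Complex.ofReal_re]
    have h1 := Finset.single_le_sum (f := fun i => |a i|) (fun i _ => abs_nonneg (a i)) (Finset.mem_univ i)
    have h2 := neg_abs_le (a i)
    have h3 := le_abs_self c
    linarith
  refine locInd_of φ (vals (fun s => Real.Gamma s) (bs w) (fun l => Real.log (β l)) g) ?_
    (fun o => eg Y h r w v (o.map e)) ?_ ?_ U hUc hU han t ht
  · intro P hP
    refine raw (fun s => Real.Gamma s) gamma_large (bs w) (bs_SE w) (bs_indep w) _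
      (fun v a c ha hc hv => mult_cond β hβ0 hβ v a c ha hc hv) g (fun c hc => H_prime f hf a ha c hc)
      (fun y => ⟨b, ?_⟩) P hP
    exact H_summable _ c (hfs _) _ _ _ (hb' b le_rfl _)
  · exact (eg_inj Y h r w v).comp (Option.map_injective he)
  · filter_upwards [eventually_ge_atTop b] with s hs o
    rcases o with _ | y
    · rfl
    · simp only [Option.elim, Option.map]
      rw [hfe]
      rcases e y with l | (_ | (k | y))
      · simp only [FG, vals, eg, Sum.elim_inl, Sum.elim_inr, Option.elim]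
        have hl := hβ0 l
        rw [← Real.rpow_def_of_pos hl, Complex.ofReal_cpow hl.le]
      · simp only [FG, vals, eg, Sum.elim_inl, Option.elim]
        exact Complex.Gamma_ofReal s
      · rfl
      · simp only [FG, vals, eg, Sum.elim_inr, hg]
        exact (H_LSeries _ c (hfs _) _ (hF _) _ _ _ (hb' s hs _)).symm

/-- derivatives of shifts of analytic functions -/
theorem shift_analytic {F : ℂ → ℂ} (k : ℕ) (a : ℂ) (t : ℂ) (hF : AnalyticAt ℂ F (t + a)) :
    AnalyticAt ℂ (fun s => iteratedDeriv k F (s + a)) t := by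
  have h2 : AnalyticAt ℂ (fun s : ℂ => s + a) t := analyticAt_id.add analyticAt_const
  exact AnalyticAt.comp (g := fun s => iteratedDeriv k F s) (f := fun s : ℂ => s + a) (iter_analytic hF k) h2

end Pool.Agent.Y922.ZF
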