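import Pool.Agent.Y922.ZF.Raw

/-!
# Algebraic independence of functions given by Dirichlet series (general criterion)
-/

set_option autoImplicit false

open Finset Filter Asymptotics Topology

namespace Pool.Agent.Y922.ZF

/-- algebraic independence on a half-line -/
theorem rawJ {β Λ Y : Type} [Fintype β] [Fintype Λ] [Fintype Y] (u : ℝ → ℝ)
    (hu : ∀ C : ℝ, ∀ᶠ s in atTop, Real.exp (C * s) ≤ u s) (b : β → ℝ → ℂ) (hb : ∀ i, SE (b i))
    (hbi : ∀ P : MvPolynomial β ℂ, ES (fun s => MvPolynomial.aeval (fun i => b i s) P) → P = 0)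
    (lam : Λ → ℝ) (hlam : ∀ (v : Λ → ℤ) (a c : ℕ), a ≠ 0 → c ≠ 0 → ∑ l, (v l : ℝ) * lam l = Real.log a - Real.log c →
      v = 0)
    (g : Y → ArithmeticFunction ℂ) (hg : ∀ P : MvPolynomial Y ℂ, MvPolynomial.aeval g P = 0 → P = 0)
    (hgs : ∀ y, ∃ c : ℝ, LSeriesSummable (fun n => g y n) c)
    (P : MvPolynomial (Option (β ⊕ Λ) ⊕ Y) ℂ) (h0 : ∀ᶠ s : ℝ in atTop, MvPolynomial.aeval (vals u b lam g s) P = 0) :
    P = 0 := by
  classical
  -- a common half plane
  obtain ⟨c0, hc0⟩ : ∃ c0 : ℝ, ∀ y, ∀ s : ℝ, c0 ≤ s → LSeriesSummable (fun n => g y n) (s : ℂ) := by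
    choose c hc using hgs
    refine ⟨∑ y, |c y|, fun y s hs => (hc y).of_re_le_re ?_⟩
    simp only [Complex.ofReal_re]
    exact ((le_abs_self _).trans (Finset.single_le_sum (fun i _ => abs_nonneg (c i)) (Finset.mem_univ y))).trans hs
  set P' : MvPolynomial (Option (β ⊕ Λ)) (MvPolynomial Y ℂ) := MvPolynomial.sumRingEquiv ℂ _ _ P with hP'
  have hPP : P' = 0 → P = 0 := fun h => by
    have := (MvPolynomial.sumRingEquiv ℂ (Option (β ⊕ Λ)) Y).injective (a₁ := P) (a₂ := 0) (by rw [map_zero]; exact h)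
    exact this
  -- evaluation through `P'`
  have hev : ∀ (z : Option (β ⊕ Λ) → ℂ) (w : Y → ℂ), MvPolynomial.aeval (Sum.elim z w) P =
      ∑ a ∈ P'.support, (∏ o, z o ^ a o) * MvPolynomial.aeval w (P'.coeff a) := by
    intro z w
    have h1 : MvPolynomial.aeval (Sum.elim z w) P =
        MvPolynomial.eval₂Hom (MvPolynomial.aeval w : MvPolynomial Y ℂ →ₐ[ℂ] ℂ).toRingHom z P' := by
      have h2 : (MvPolynomial.aeval (Sum.elim z w) : MvPolynomial (Option (β ⊕ Λ) ⊕ Y) ℂ →ₐ[ℂ] ℂ).toRingHom =
          (MvPolynomial.eval₂Hom (MvPolynomial.aeval w : MvPolynomial Y ℂ →ₐ[ℂ] ℂ).toRingHom z).comp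
            (MvPolynomial.sumRingEquiv ℂ (Option (β ⊕ Λ)) Y).toRingHom := by
        refine MvPolynomial.ringHom_ext (fun r => ?_) fun i => ?_
        · simp
        · rcases i with i | i
          · simp
          · simp
      exact congrArg (fun φ : MvPolynomial (Option (β ⊕ Λ) ⊕ Y) ℂ →+* ℂ => φ P) h2
    rw [h1, MvPolynomial.coe_eval₂Hom, MvPolynomial.eval₂_eq']
    refine Finset.sum_congr rfl fun a _ => ?_
    rw [mul_comm]
    rfl
  refine hPP ?_
  by_contra hne
  -- the data for `inj`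
  set J : Type := {a // a ∈ P'.support} with hJ
  have hJne : Nonempty J := by
    obtain ⟨a, ha⟩ := MvPolynomial.ne_zero_iff.1 hne
    exact ⟨⟨a, MvPolynomial.mem_support_iff.2 ha⟩⟩
  have hinj := inj (J := J) u hu (fun a => a.1 none) (fun a => ∑ l, (a.1 (some (Sum.inr l)) : ℝ) * lam l)
    (fun a s => ∏ i, b i s ^ a.1 (some (Sum.inl i))) (fun a => MvPolynomial.aeval g (P'.coeff a.1))
    (fun a => ⟨c0, (LS_aeval g c0 (fun y => hc0 y c0 le_rfl) _).1⟩)
    (fun a => SE.prod _ fun i _ => (hb i).pow _) ?_ ?_ ?_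
  · obtain ⟨a⟩ := hJne
    have h1 := hinj a
    exact (MvPolynomial.mem_support_iff.1 a.2) (hg _ h1)
  · intro i j a c ha hc h
    have h1 : ∑ l, (((i.1 (some (Sum.inr l)) : ℤ) - (j.1 (some (Sum.inr l)) : ℤ) : ℤ) : ℝ) * lam l =
        Real.log a - Real.log c := by
      have h2 : ∑ l, (((i.1 (some (Sum.inr l)) : ℤ) - (j.1 (some (Sum.inr l)) : ℤ) : ℤ) : ℝ) * lam l =
          ∑ l, (i.1 (some (Sum.inr l)) : ℝ) * lam l - ∑ l, (j.1 (some (Sum.inr l)) : ℝ) * lam l := by
        rw [← Finset.sum_sub_distrib]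
        refine Finset.sum_congr rfl fun l _ => ?_
        push_cast
        ring
      rw [h2]
      linarith
    have h3 := hlam _ a c ha hc h1
    refine Finset.sum_congr rfl fun l _ => ?_
    have h4 : (i.1 (some (Sum.inr l)) : ℤ) - (j.1 (some (Sum.inr l)) : ℤ) = 0 := congrFun h3 l
    have h5 : i.1 (some (Sum.inr l)) = j.1 (some (Sum.inr l)) := by omega
    rw [h5]
  · intro κ w c hc hES
    -- the restriction of exponents
    set r : J → (β →₀ ℕ) := fun a => Finsupp.equivFunOnFinite.symm fun i => a.1 (some (Sum.inl i)) with hr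
    have hr' : ∀ a i, r a i = a.1 (some (Sum.inl i)) := fun a i => rfl
    set Q : MvPolynomial β ℂ := ∑ a, MvPolynomial.monomial (r a) (c a) with hQ
    have hQ0 : Q = 0 := by
      refine hbi Q (hES.congr' (Eventually.of_forall fun s => ?_))
      simp only
      rw [hQ, map_sum]
      refine Finset.sum_congr rfl fun a _ => ?_
      rw [MvPolynomial.aeval_monomial, Finsupp.prod_fintype _ _ (fun i => pow_zero _)]
      rfl
    funext a
    by_contra hca
    have hca' : c a ≠ 0 := hca
    have h1 : Q.coeff (r a) = c a := by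
      rw [hQ, MvPolynomial.coeff_sum, Finset.sum_eq_single a]
      · rw [MvPolynomial.coeff_monomial, if_pos rfl]
      · intro a' _ hne'
        rw [MvPolynomial.coeff_monomial]
        split_ifs with h2
        · by_contra hca2
          apply hne'
          obtain ⟨h3, h4⟩ := hc a' hca2
          obtain ⟨h5, h6⟩ := hc a hca'
          have h7 : ∀ l, a'.1 (some (Sum.inr l)) = a.1 (some (Sum.inr l)) := by
            have h8 : ∑ l, (((a'.1 (some (Sum.inr l)) : ℤ) - (a.1 (some (Sum.inr l)) : ℤ) : ℤ) : ℝ) * lam l =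
                Real.log (1 : ℕ) - Real.log (1 : ℕ) := by
              rw [sub_self]
              have h9 : ∑ l, (((a'.1 (some (Sum.inr l)) : ℤ) - (a.1 (some (Sum.inr l)) : ℤ) : ℤ) : ℝ) * lam l =
                  ∑ l, (a'.1 (some (Sum.inr l)) : ℝ) * lam l - ∑ l, (a.1 (some (Sum.inr l)) : ℝ) * lam l := by
                rw [← Finset.sum_sub_distrib]
                refine Finset.sum_congr rfl fun l _ => ?_
                push_cast
                ring
              rw [h9, h4, h6, sub_self]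
            intro l
            have h10 : (a'.1 (some (Sum.inr l)) : ℤ) - (a.1 (some (Sum.inr l)) : ℤ) = 0 :=
              congrFun (hlam _ 1 1 one_ne_zero one_ne_zero h8) l
            omega
          refine Subtype.ext (Finsupp.ext fun o => ?_)
          rcases o with _ | (i | l)
          · exact h3.trans h5.symm
          · rw [← hr' a' i, ← hr' a i, h2]
          · exact h7 l
        · rfl
      · intro h2
        exact absurd (Finset.mem_univ a) h2
    rw [hQ0, MvPolynomial.coeff_zero] at h1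
    exact hca' h1.symm
  · filter_upwards [h0, eventually_ge_atTop c0] with s hs hsc
    rw [vals, hev] at hs
    rw [← hs, ← Finset.sum_coe_sort P'.support]
    refine Finset.sum_congr rfl fun a _ => ?_
    rw [(LS_aeval g s (fun y => hc0 y s hsc) _).2]
    congr 1
    rw [Fintype.prod_option, Fintype.prod_sum_type]
    have h2 : ((Real.exp ((∑ l, (a.1 (some (Sum.inr l)) : ℝ) * lam l) * s) : ℝ) : ℂ) =
        ∏ l, ((Real.exp (lam l * s) : ℝ) : ℂ) ^ a.1 (some (Sum.inr l)) := by
      rw [Finset.sum_mul, Real.exp_sum, Complex.ofReal_prod]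
      refine Finset.prod_congr rfl fun l _ => ?_
      rw [← Complex.ofReal_pow, ← Real.exp_nat_mul]
      congr 2
      ring
    rw [h2]
    simp only [Option.elim, Sum.elim_inl, Sum.elim_inr]
    ring

end Pool.Agent.Y922.ZF
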