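import Pool.Agent.Y922.ZF.Lev
import Pool.Agent.Y922.ZF.RawJ

/-!
# Joint independence of exponentials, the Gamma function and dilations of Dirichlet series
-/

set_option autoImplicit false

open Finset Filter Asymptotics Topology

namespace Pool.Agent.Y922.ZF

/-- exponentials, the Gamma function, derivatives of the digamma function and of Dirichlet series at multiples of the
argument -/
noncomputable def vJ {Y : Type} {h : ℕ} (β : Fin h → ℝ) (F : Y → ℂ → ℂ) (lev : Y → ℕ) (w v : ℕ) (s : ℂ) :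
    Fin h ⊕ (Unit ⊕ (Fin w ⊕ (Y × Fin v))) → ℂ
  | Sum.inl l => (β l : ℂ) ^ s
  | Sum.inr (Sum.inl _) => Complex.Gamma s
  | Sum.inr (Sum.inr (Sum.inl k)) => iteratedDeriv k Complex.digamma s
  | Sum.inr (Sum.inr (Sum.inr x)) => iteratedDeriv x.2 (F x.1) (lev x.1 * s)

/-- the index in the general theorem -/
def ej (Y : Type) (h w v : ℕ) (o : Option (Fin h ⊕ (Unit ⊕ (Fin w ⊕ (Y × Fin v))))) :
    Option (Option (Fin w) ⊕ Fin h) ⊕ (Y × Fin v) :=
  match o with
  | none => Sum.inl (some (Sum.inl none))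
  | some (Sum.inl l) => Sum.inl (some (Sum.inr l))
  | some (Sum.inr (Sum.inl _)) => Sum.inl none
  | some (Sum.inr (Sum.inr (Sum.inl k))) => Sum.inl (some (Sum.inl (some k)))
  | some (Sum.inr (Sum.inr (Sum.inr y))) => Sum.inr y

theorem ej_inj (Y : Type) (h w v : ℕ) : Function.Injective (ej Y h w v) := by
  intro x y hxy
  rcases x with _ | (x | (x | (x | x))) <;> rcases y with _ | (y | (y | (y | y))) <;> simp_all [ej]

/-- independence at the primes of every level -/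
def PL {Y : Type} [Fintype Y] (f : Y → ℕ → ℂ) (lev : Y → ℕ) (v : ℕ) : Prop :=
  ∀ j N : ℕ, ∀ c : Y × Fin v → ℂ, (∀ y, lev y.1 ≠ j → c y = 0) →
    (∀ p : ℕ, p.Prime → N < p → ∑ y, c y * H (f y.1) 0 y.2 p = 0) → c = 0

/-- local independence for subfamilies -/
theorem locInd_J {Y : Type} [Fintype Y] (f : Y → ℕ → ℂ) (lev : Y → ℕ) (hlev : ∀ y, lev y ≠ 0) (v : ℕ) (hf : PL f lev v)
    (c : ℝ) (hfs : ∀ y, ∀ s : ℂ, c < s.re → LSeriesSummable (f y) s) (F : Y → ℂ → ℂ)
    (hF : ∀ y, ∀ s : ℂ, c < s.re → F y s = LSeries (f y) s) (h w : ℕ) (β : Fin h → ℝ) (hβ0 : ∀ l, 0 < β l)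
    (hβ : ∀ v : Fin h → ℤ, (∃ x : ℚ, ∏ l, β l ^ v l = x) → v = 0)
    {σ : Type} (φ : σ → ℂ → ℂ) (e : σ → Fin h ⊕ (Unit ⊕ (Fin w ⊕ (Y × Fin v)))) (he : Function.Injective e)
    (hfe : ∀ y s, φ y s = vJ β F lev w v s (e y)) (U : Set ℂ) (hUc : IsPreconnected U)
    (hU : ∀ᶠ s : ℝ in atTop, (s : ℂ) ∈ U) (han : ∀ i, AnalyticOnNhd ℂ (φ i) U) (t : ℂ) (ht : t ∈ U) :
    Y124.LocInd φ t := by
  classical
  set g : Y × Fin v → ArithmeticFunction ℂ := fun y => pw (lev y.1) (H (f y.1) 0 y.2) with hg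
  have hb' : ∀ s : ℝ, |c| + 1 ≤ s → ∀ j : ℕ, j ≠ 0 → c < (((j : ℂ) * (s : ℂ)) + ((0 : ℝ) : ℂ)).re := by
    intro s hs j hj
    have h1 : (((j : ℂ) * (s : ℂ)) + ((0 : ℝ) : ℂ)).re = (j : ℝ) * s := by simp
    rw [h1]
    have h2 : (1 : ℝ) ≤ (j : ℝ) := by exact_mod_cast Nat.one_le_iff_ne_zero.2 hj
    have h3 := le_abs_self c
    have h4 := abs_nonneg c
    nlinarith
  refine locInd_of φ (vals (fun s => Real.Gamma s) (bs w) (fun l => Real.log (β l)) g) ?_
    (fun o => ej Y h w v (o.map e)) ?_ ?_ U hUc hU han t ht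
  · intro P hP
    refine rawJ (fun s => Real.Gamma s) gamma_large (bs w) (bs_SE w) (bs_indep w) _
      (fun v a c ha hc hv => mult_cond β hβ0 hβ v a c ha hc hv) g
      (fun P hP => aeval_inj_lev (fun y : Y × Fin v => lev y.1) (fun y => hlev y.1) (fun y => H (f y.1) 0 y.2) hf P hP)
      (fun y => ⟨|c| + 1, ?_⟩) P hP
    refine pw_summable (hlev y.1) _ _ ?_
    exact H_summable _ c (hfs _) _ _ _ (hb' (|c| + 1) le_rfl _ (hlev y.1))
  · exact (ej_inj Y h w v).comp (Option.map_injective he)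
  · filter_upwards [eventually_ge_atTop (|c| + 1)] with s hs o
    rcases o with _ | y
    · rfl
    · simp only [Option.elim, Option.map]
      rw [hfe]
      rcases e y with l | (_ | (k | y))
      · simp only [vJ, vals, ej, Sum.elim_inl, Sum.elim_inr, Option.elim]
        have hl := hβ0 l
        rw [← Real.rpow_def_of_pos hl, Complex.ofReal_cpow hl.le]
      · simp only [vJ, vals, ej, Sum.elim_inl, Option.elim]
        exact Complex.Gamma_ofReal s
      · rfl
      · simp only [vJ, vals, ej, Sum.elim_inr, hg]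
        rw [pw_LSeries (hlev y.1)]
        have := (H_LSeries _ c (hfs y.1) _ (hF y.1) 0 y.2 (lev y.1 * (s : ℂ)) (hb' s hs _ (hlev y.1))).symm
        rw [Complex.ofReal_zero, add_zero] at this
        exact this

theorem dil_analytic {F : ℂ → ℂ} (k j : ℕ) {t : ℂ} (hF : AnalyticAt ℂ F (j * t)) :
    AnalyticAt ℂ (fun s => iteratedDeriv k F (j * s)) t := by
  have h2 : AnalyticAt ℂ (fun s : ℂ => (j : ℂ) * s) t := analyticAt_const.mul analyticAt_id
  exact AnalyticAt.comp (g := fun s => iteratedDeriv k F s) (f := fun s : ℂ => (j : ℂ) * s) (iter_analytic hF k) h2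

theorem oneJ (g : ℕ) {Y : Type} [Fintype Y] [DecidableEq Y] {h : ℕ} (β : Fin h → ℝ) (hβ0 : ∀ l, 0 < β l)
    (hβ : ∀ v : Fin h → ℤ, (∃ x : ℚ, ∏ l, β l ^ v l = x) → v = 0) (f : Y → ℕ → ℂ) (lev : Y → ℕ)
    (hlev : ∀ y, lev y ≠ 0) (v : ℕ) (hf : PL f lev v) (c : ℝ)
    (hfs : ∀ y, ∀ s : ℂ, c < s.re → LSeriesSummable (f y) s) (F : Y → ℂ → ℂ)
    (hF : ∀ y, ∀ s : ℂ, c < s.re → F y s = LSeries (f y) s) (U : Set ℂ) (hUc : IsPreconnected U)
    (hU : ∀ᶠ s : ℝ in atTop, (s : ℂ) ∈ U) (hU0 : ∀ s ∈ U, ∀ m : ℕ, s ≠ -m)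
    (hFU : ∀ y, ∀ s ∈ U, AnalyticAt ℂ (F y) (lev y * s)) (w : ℕ) (L : Set ℂ) (hL : IsCompact L) (hLU : L ⊆ U) :
    Y124.OneV g (fun R T => {t | t ∈ L ∧ Y120.Pt R T t}) (vJ β F lev w v) := by
  have han : ∀ i, AnalyticOnNhd ℂ (fun s => vJ β F lev w v s i) U := by
    intro i z hz
    rcases i with l | (_ | (k | x))
    · exact pow_analytic (β l) (hβ0 l) z
    · exact gamma_analytic (hU0 z hz)
    · exact iter_analytic (digamma_analytic (hU0 z hz)) k
    · exact dil_analytic x.2 (lev x.1) (hFU x.1 z hz)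
  exact Y124.oneV_of g (fun i s => vJ β F lev w v s i) L hL (fun i t ht => han i t (hLU ht)) fun t ht =>
    locInd_J f lev hlev v hf c hfs F hF h w β hβ0 hβ (fun i s => vJ β F lev w v s i) id Function.injective_id
      (fun y s => rfl) U hUc hU han t (hLU ht)

/-- exponentials and derivatives of dilated Dirichlet series -/
noncomputable def vK {Y : Type} {h : ℕ} (β : Fin h → ℝ) (F : Y → ℂ → ℂ) (lev : Y → ℕ) (v : ℕ) (s : ℂ) :
    Fin h ⊕ (Y × Fin v) → ℂ
  | Sum.inl l => (β l : ℂ) ^ s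
  | Sum.inr x => iteratedDeriv x.2 (F x.1) (lev x.1 * s)

theorem oneK (g : ℕ) {Y : Type} [Fintype Y] [DecidableEq Y] {h : ℕ} (β : Fin h → ℝ) (hβ0 : ∀ l, 0 < β l)
    (hβ : ∀ v : Fin h → ℤ, (∃ x : ℚ, ∏ l, β l ^ v l = x) → v = 0) (f : Y → ℕ → ℂ) (lev : Y → ℕ)
    (hlev : ∀ y, lev y ≠ 0) (v : ℕ) (hf : PL f lev v) (c : ℝ)
    (hfs : ∀ y, ∀ s : ℂ, c < s.re → LSeriesSummable (f y) s) (F : Y → ℂ → ℂ)
    (hF : ∀ y, ∀ s : ℂ, c < s.re → F y s = LSeries (f y) s) (U : Set ℂ) (hUc : IsPreconnected U)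
    (hU : ∀ᶠ s : ℝ in atTop, (s : ℂ) ∈ U)
    (hFU : ∀ y, ∀ s ∈ U, AnalyticAt ℂ (F y) (lev y * s)) (L : Set ℂ) (hL : IsCompact L) (hLU : L ⊆ U) :
    Y124.OneV g (fun R T => {t | t ∈ L ∧ Y120.Pt R T t}) (vK β F lev v) := by
  have han : ∀ i, AnalyticOnNhd ℂ (fun s => vK β F lev v s i) U := by
    intro i z hz
    rcases i with l | x
    · exact pow_analytic (β l) (hβ0 l) z
    · exact dil_analytic x.2 (lev x.1) (hFU x.1 z hz)
  exact Y124.oneV_of g (fun i s => vK β F lev v s i) L hL (fun i t ht => han i t (hLU ht)) fun t ht =>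
    locInd_J (w := 0) f lev hlev v hf c hfs F hF h β hβ0 hβ (fun i s => vK β F lev v s i)
      (fun i => match i with
        | Sum.inl l => Sum.inl l
        | Sum.inr x => Sum.inr (Sum.inr (Sum.inr x)))
      (fun x y hxy => by rcases x with x | x <;> rcases y with y | y <;> simp_all)
      (fun y s => by rcases y with l | x <;> rfl) U hUc hU han t (hLU ht)

/-- independence of all levels from independence with polynomials in `log p` -/
theorem PL_of_PP {Y : Type} [Fintype Y] (f : Y → ℕ → ℂ) (lev : Y → ℕ) (v : ℕ)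
    (hf : ∀ j, ∀ c : Y → Polynomial ℂ, (∀ y, lev y ≠ j → c y = 0) →
      (∀ p : ℕ, p.Prime → ∑ y, (c y).eval ((Real.log p : ℝ) : ℂ) * f y p = 0) → c = 0) : PL f lev v := by
  classical
  intro j N c hc0 hc
  -- a polynomial which vanishes at the logarithms of the small primes
  set Q : Polynomial ℂ := ∏ q ∈ Finset.range (N + 1), (Polynomial.X - Polynomial.C ((Real.log q : ℝ) : ℂ)) with hQ
  have hQ0 : Q ≠ 0 := Finset.prod_ne_zero_iff.2 fun q _ => Polynomial.X_sub_C_ne_zero _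
  have h1 := hf j (fun y => Q * ∑ k : Fin v, Polynomial.monomial (k : ℕ) (c (y, k) * (-1) ^ (k : ℕ))) (fun y hy => by
    rw [Finset.sum_eq_zero (fun k _ => by rw [hc0 (y, k) hy, zero_mul, map_zero]), mul_zero]) (fun p hp => by
    by_cases hpN : N < p
    · have h2 : ∑ y, (Q * ∑ k : Fin v, Polynomial.monomial (k : ℕ) (c (y, k) * (-1) ^ (k : ℕ))).eval
          ((Real.log p : ℝ) : ℂ) * f y p = Q.eval ((Real.log p : ℝ) : ℂ) * ∑ y, c y * H (f y.1) 0 y.2 p := by
        rw [Fintype.sum_prod_type, Finset.mul_sum]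
        refine Finset.sum_congr rfl fun y _ => ?_
        rw [Polynomial.eval_mul, Polynomial.eval_finsetSum, mul_assoc, Finset.sum_mul]
        congr 1
        refine Finset.sum_congr rfl fun k _ => ?_
        rw [Polynomial.eval_monomial, H_apply _ _ _ _ hp.ne_zero]
        simp only [neg_zero, zero_mul, Real.exp_zero, one_mul]
        push_cast
        ring
      rw [h2, hc p hp hpN, mul_zero]
    · have h3 : Q.eval ((Real.log p : ℝ) : ℂ) = 0 := by
        rw [hQ, Polynomial.eval_prod]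
        refine Finset.prod_eq_zero (i := p) (Finset.mem_range.2 (by omega)) ?_
        simp
      refine Finset.sum_eq_zero fun y _ => ?_
      rw [Polynomial.eval_mul, h3, zero_mul, zero_mul])
  funext ⟨y, k⟩
  have h4 := (mul_eq_zero.1 (congrFun h1 y)).resolve_left hQ0
  have h2 := congrArg (fun q : Polynomial ℂ => q.coeff (k : ℕ)) h4
  simp only [Polynomial.finsetSum_coeff, Polynomial.coeff_monomial, Polynomial.coeff_zero] at h2
  rw [Finset.sum_eq_single k (fun b _ hb => if_neg fun hh => hb (Fin.ext hh))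
    (fun hh => absurd (Finset.mem_univ k) hh), if_pos rfl] at h2
  exact (mul_eq_zero.1 h2).resolve_right (pow_ne_zero _ (by norm_num))

end Pool.Agent.Y922.ZF
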