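import Pool.Agent.Y922.ZF.Gen
import Pool.Agent.Y922.ZF.Inst

/-!
# Families of Dirichlet series which are independent at the primes
-/

set_option autoImplicit false

open Finset Filter Asymptotics Topology

namespace Pool.Agent.Y922.ZF

/-- no nontrivial linear combination with coefficients which are polynomials in `log p` vanishes at all primes `p` -/
def PP {Y : Type} [Fintype Y] (f : Y → ℕ → ℂ) : Prop :=
  ∀ c : Y → Polynomial ℂ, (∀ p : ℕ, p.Prime → ∑ y, (c y).eval ((Real.log p : ℝ) : ℂ) * f y p = 0) → c = 0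

/-- the condition at the primes for derivatives -/
theorem PP_prime {Y : Type} [Fintype Y] (f : Y → ℕ → ℂ) (hf : PP f) {v : ℕ} (c : Y × Fin v → ℂ)
    (h : ∀ p : ℕ, p.Prime → ∑ y, c y * H (f y.1) 0 y.2 p = 0) : c = 0 := by
  classical
  have h1 := hf (fun y => ∑ k : Fin v, Polynomial.monomial (k : ℕ) (c (y, k) * (-1) ^ (k : ℕ))) (fun p hp => by
    rw [← h p hp, Fintype.sum_prod_type]
    refine Finset.sum_congr rfl fun y _ => ?_
    rw [Polynomial.eval_finsetSum, Finset.sum_mul]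
    refine Finset.sum_congr rfl fun k _ => ?_
    rw [Polynomial.eval_monomial, H_apply _ _ _ _ hp.ne_zero]
    simp only [neg_zero, zero_mul, Real.exp_zero, one_mul]
    push_cast
    ring)
  funext ⟨y, k⟩
  have h2 := congrArg (fun q : Polynomial ℂ => q.coeff (k : ℕ)) (congrFun h1 y)
  simp only [Polynomial.finsetSum_coeff, Polynomial.coeff_monomial, Pi.zero_apply, Polynomial.coeff_zero] at h2
  rw [Finset.sum_eq_single k (fun b _ hb => if_neg fun hh => hb (Fin.ext hh))
    (fun hh => absurd (Finset.mem_univ k) hh), if_pos rfl] at h2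
  exact (mul_eq_zero.1 h2).resolve_right (pow_ne_zero _ (by norm_num))

/-- families proportional to independent functions on infinite classes of primes -/
theorem PP_of_PI {Y : Type} [Fintype Y] (f : Y → ℕ → ℂ) (hf : PI f) : PP f := by
  classical
  intro c hc
  set v : ℕ := ∑ y, ((c y).natDegree + 1) with hv
  have hdeg : ∀ y, (c y).natDegree < v := fun y => by
    have := Finset.single_le_sum (f := fun y => (c y).natDegree + 1) (fun i _ => Nat.zero_le _) (Finset.mem_univ y)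
    omega
  have h1 := H_prime (w := v) f hf (fun _ : Fin 1 => 0) (fun x y _ => Subsingleton.elim _ _)
    (fun y => (c y.1).coeff y.2.2 * (-1) ^ (y.2.2 : ℕ)) (fun p hp => by
      rw [← hc p hp, Fintype.sum_prod_type]
      refine Finset.sum_congr rfl fun y _ => ?_
      rw [Fintype.sum_prod_type, Fin.sum_univ_one, Polynomial.eval_eq_sum_range' (hdeg y), Finset.sum_mul,
        ← Fin.sum_univ_eq_sum_range
          (fun k => (c y).coeff k * ((Real.log p : ℝ) : ℂ) ^ k * f y p) v]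
      refine Finset.sum_congr rfl fun k _ => ?_
      rw [H_apply _ _ _ _ hp.ne_zero]
      simp only [neg_zero, zero_mul, Real.exp_zero, one_mul, Complex.ofReal_mul, Complex.ofReal_pow, Complex.ofReal_neg,
        Complex.ofReal_one]
      have h3 : ((-1 : ℂ) ^ (k : ℕ)) * (-1) ^ (k : ℕ) = 1 := by
        rw [← mul_pow]
        norm_num
      calc (c y).coeff k * (-1) ^ (k : ℕ) * (f y p * (((Real.log p : ℝ) : ℂ) ^ (k : ℕ) * (-1) ^ (k : ℕ)))
          = (c y).coeff k * ((Real.log p : ℝ) : ℂ) ^ (k : ℕ) * f y p * ((-1) ^ (k : ℕ) * (-1) ^ (k : ℕ)) := by ring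
        _ = _ := by rw [h3, mul_one])
  funext y
  ext k
  by_cases hk : k < v
  · have h2 := congrFun h1 (y, 0, ⟨k, hk⟩)
    simp only [Pi.zero_apply] at h2
    exact (mul_eq_zero.1 h2).resolve_right (pow_ne_zero _ (by norm_num))
  · rw [Pi.zero_apply, Polynomial.coeff_zero]
    exact Polynomial.coeff_eq_zero_of_natDegree_lt (lt_of_lt_of_le (hdeg y) (not_lt.1 hk))

/-- shifts of one series -/
theorem PP_shift (f : ℕ → ℂ) (hf : {p : ℕ | p.Prime ∧ f p ≠ 0}.Infinite) {r : ℕ} (a : Fin r → ℝ)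
    (ha : Function.Injective a) : PP fun (i : Fin r) (n : ℕ) => f n * (n : ℂ) ^ (-(a i : ℂ)) := by
  classical
  intro c hc
  set v : ℕ := ∑ y, ((c y).natDegree + 1) with hv
  have hdeg : ∀ y, (c y).natDegree < v := fun y => by
    have := Finset.single_le_sum (f := fun y => (c y).natDegree + 1) (fun i _ => Nat.zero_le _) (Finset.mem_univ y)
    omega
  have h1 : (fun y : Fin r × Fin v => (c y.1).coeff y.2) = 0 := by
    refine dom (K := ℝ ×ₗ ℕ) (fun y : Fin r × Fin v => toLex (-a y.1, (y.2 : ℕ))) ?_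
      (fun y x => ((Real.exp (-a y.1 * x) * x ^ (y.2 : ℕ) : ℝ) : ℂ)) ?_ (fun i j hij => powexp _ _ _ _ hij) _ ?_
    · intro y z hyz
      have h2 := toLex_inj.1 hyz
      rw [Prod.mk.injEq] at h2
      exact Prod.ext (ha (neg_inj.1 h2.1)) (Fin.ext h2.2)
    · intro y
      filter_upwards [eventually_gt_atTop 0] with x hx
      have : Real.exp (-a y.1 * x) * x ^ (y.2 : ℕ) ≠ 0 := by positivity
      exact_mod_cast this
    · rw [frequently_atTop]
      intro b
      obtain ⟨p, ⟨hp, hfp⟩, hpn⟩ := hf.exists_gt ⌈Real.exp b⌉₊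
      refine ⟨Real.log p, ?_, ?_⟩
      · rw [Real.le_log_iff_exp_le (by exact_mod_cast hp.pos)]
        exact (Nat.le_ceil _).trans (by exact_mod_cast hpn.le)
      · refine mul_left_cancel₀ hfp ?_
        rw [mul_zero, ← hc p hp, Finset.mul_sum, Fintype.sum_prod_type]
        refine Finset.sum_congr rfl fun i _ => ?_
        rw [Polynomial.eval_eq_sum_range' (hdeg i), Finset.sum_mul,
          ← Fin.sum_univ_eq_sum_range
            (fun k => (c i).coeff k * ((Real.log p : ℝ) : ℂ) ^ k * (f p * (p : ℂ) ^ (-(a i : ℂ)))) v]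
        refine Finset.sum_congr rfl fun k _ => ?_
        have hp0 : (0 : ℝ) < p := by exact_mod_cast hp.pos
        have h2 : (p : ℂ) ^ (-(a i : ℂ)) = ((Real.exp (-a i * Real.log p) : ℝ) : ℂ) := by
          rw [mul_comm, ← Real.rpow_def_of_pos hp0, Complex.ofReal_cpow hp0.le]
          simp
        rw [h2]
        push_cast
        ring
  funext y
  ext k
  by_cases hk : k < v
  · exact congrFun h1 (y, ⟨k, hk⟩)
  · rw [Pi.zero_apply, Polynomial.coeff_zero]
    exact Polynomial.coeff_eq_zero_of_natDegree_lt (lt_of_lt_of_le (hdeg y) (not_lt.1 hk))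

/-- exponentials, the Gamma function, derivatives of the digamma function and of Dirichlet series -/
noncomputable def vP {Y : Type} {h : ℕ} (β : Fin h → ℝ) (F : Y → ℂ → ℂ) (w : ℕ) (s : ℂ) :
    Fin h ⊕ (Unit ⊕ (Fin w ⊕ (Y × Fin w))) → ℂ
  | Sum.inl l => (β l : ℂ) ^ s
  | Sum.inr (Sum.inl _) => Complex.Gamma s
  | Sum.inr (Sum.inr (Sum.inl k)) => iteratedDeriv k Complex.digamma s
  | Sum.inr (Sum.inr (Sum.inr x)) => iteratedDeriv x.2 (F x.1) s

/-- the index in the general theorem -/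
def ep (Y : Type) (h w : ℕ) (o : Option (Fin h ⊕ (Unit ⊕ (Fin w ⊕ (Y × Fin w))))) :
    Option (Option (Fin w) ⊕ Fin h) ⊕ (Y × Fin w) :=
  match o with
  | none => Sum.inl (some (Sum.inl none))
  | some (Sum.inl l) => Sum.inl (some (Sum.inr l))
  | some (Sum.inr (Sum.inl _)) => Sum.inl none
  | some (Sum.inr (Sum.inr (Sum.inl k))) => Sum.inl (some (Sum.inl (some k)))
  | some (Sum.inr (Sum.inr (Sum.inr y))) => Sum.inr y

theorem ep_inj (Y : Type) (h w : ℕ) : Function.Injective (ep Y h w) := by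
  intro x y hxy
  rcases x with _ | (x | (x | (x | x))) <;> rcases y with _ | (y | (y | (y | y))) <;> simp_all [ep]

/-- local independence for subfamilies -/
theorem locInd_P {Y : Type} [Fintype Y] (f : Y → ℕ → ℂ) (hf : PP f) (c : ℝ)
    (hfs : ∀ y, ∀ s : ℂ, c < s.re → LSeriesSummable (f y) s) (F : Y → ℂ → ℂ)
    (hF : ∀ y, ∀ s : ℂ, c < s.re → F y s = LSeries (f y) s) (h w : ℕ) (β : Fin h → ℝ) (hβ0 : ∀ l, 0 < β l)
    (hβ : ∀ v : Fin h → ℤ, (∃ x : ℚ, ∏ l, β l ^ v l = x) → v = 0)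
    {σ : Type} (φ : σ → ℂ → ℂ) (e : σ → Fin h ⊕ (Unit ⊕ (Fin w ⊕ (Y × Fin w)))) (he : Function.Injective e)
    (hfe : ∀ y s, φ y s = vP β F w s (e y)) (U : Set ℂ) (hUc : IsPreconnected U)
    (hU : ∀ᶠ s : ℝ in atTop, (s : ℂ) ∈ U) (han : ∀ i, AnalyticOnNhd ℂ (φ i) U) (t : ℂ) (ht : t ∈ U) :
    Y124.LocInd φ t := by
  classical
  set g : Y × Fin w → ArithmeticFunction ℂ := fun y => H (f y.1) 0 y.2 with hg
  have hb' : ∀ s : ℝ, c + 1 ≤ s → c < ((s : ℂ) + ((0 : ℝ) : ℂ)).re := by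
    intro s hs
    simp only [Complex.add_re, Complex.ofReal_re]
    linarith
  refine locInd_of φ (vals (fun s => Real.Gamma s) (bs w) (fun l => Real.log (β l)) g) ?_
    (fun o => ep Y h w (o.map e)) ?_ ?_ U hUc hU han t ht
  · intro P hP
    refine raw (fun s => Real.Gamma s) gamma_large (bs w) (bs_SE w) (bs_indep w) _
      (fun v a c ha hc hv => mult_cond β hβ0 hβ v a c ha hc hv) g (fun c hc => PP_prime f hf c hc)
      (fun y => ⟨c + 1, ?_⟩) P hP
    exact H_summable _ c (hfs _) _ _ _ (hb' (c + 1) le_rfl)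
  · exact (ep_inj Y h w).comp (Option.map_injective he)
  · filter_upwards [eventually_ge_atTop (c + 1)] with s hs o
    rcases o with _ | y
    · rfl
    · simp only [Option.elim, Option.map]
      rw [hfe]
      rcases e y with l | (_ | (k | y))
      · simp only [vP, vals, ep, Sum.elim_inl, Sum.elim_inr, Option.elim]
        have hl := hβ0 l
        rw [← Real.rpow_def_of_pos hl, Complex.ofReal_cpow hl.le]
      · simp only [vP, vals, ep, Sum.elim_inl, Option.elim]
        exact Complex.Gamma_ofReal s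
      · rfl
      · simp only [vP, vals, ep, Sum.elim_inr, hg]
        have := (H_LSeries _ c (hfs y.1) _ (hF y.1) 0 y.2 s (hb' s hs)).symm
        rw [Complex.ofReal_zero, add_zero] at this
        exact this

theorem oneP (g : ℕ) {Y : Type} [Fintype Y] [DecidableEq Y] {h : ℕ} (β : Fin h → ℝ) (hβ0 : ∀ l, 0 < β l)
    (hβ : ∀ v : Fin h → ℤ, (∃ x : ℚ, ∏ l, β l ^ v l = x) → v = 0) (f : Y → ℕ → ℂ) (hf : PP f) (c : ℝ)
    (hfs : ∀ y, ∀ s : ℂ, c < s.re → LSeriesSummable (f y) s) (F : Y → ℂ → ℂ)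
    (hF : ∀ y, ∀ s : ℂ, c < s.re → F y s = LSeries (f y) s) (U : Set ℂ) (hUc : IsPreconnected U)
    (hU : ∀ᶠ s : ℝ in atTop, (s : ℂ) ∈ U) (hU0 : ∀ s ∈ U, ∀ m : ℕ, s ≠ -m) (hFU : ∀ y, AnalyticOnNhd ℂ (F y) U)
    (w : ℕ) (L : Set ℂ) (hL : IsCompact L) (hLU : L ⊆ U) :
    Y124.OneV g (fun R T => {t | t ∈ L ∧ Y120.Pt R T t}) (vP β F w) := by
  have han : ∀ i, AnalyticOnNhd ℂ (fun s => vP β F w s i) U := by
    intro i z hz
    rcases i with l | (_ | (k | x))
    · exact pow_analytic (β l) (hβ0 l) z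
    · exact gamma_analytic (hU0 z hz)
    · exact iter_analytic (digamma_analytic (hU0 z hz)) k
    · exact iter_analytic (hFU x.1 z hz) x.2
  exact Y124.oneV_of g (fun i s => vP β F w s i) L hL (fun i t ht => han i t (hLU ht)) fun t ht =>
    locInd_P f hf c hfs F hF h w β hβ0 hβ (fun i s => vP β F w s i) id Function.injective_id (fun y s => rfl) U hUc hU
      han t (hLU ht)

/-- exponentials and derivatives of Dirichlet series -/
noncomputable def vQ {Y : Type} {h : ℕ} (β : Fin h → ℝ) (F : Y → ℂ → ℂ) (w : ℕ) (s : ℂ) : Fin h ⊕ (Y × Fin w) → ℂ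
  | Sum.inl l => (β l : ℂ) ^ s
  | Sum.inr x => iteratedDeriv x.2 (F x.1) s

theorem oneQ (g : ℕ) {Y : Type} [Fintype Y] [DecidableEq Y] {h : ℕ} (β : Fin h → ℝ) (hβ0 : ∀ l, 0 < β l)
    (hβ : ∀ v : Fin h → ℤ, (∃ x : ℚ, ∏ l, β l ^ v l = x) → v = 0) (f : Y → ℕ → ℂ) (hf : PP f) (c : ℝ)
    (hfs : ∀ y, ∀ s : ℂ, c < s.re → LSeriesSummable (f y) s) (F : Y → ℂ → ℂ)
    (hF : ∀ y, ∀ s : ℂ, c < s.re → F y s = LSeries (f y) s) (U : Set ℂ) (hUc : IsPreconnected U)
    (hU : ∀ᶠ s : ℝ in atTop, (s : ℂ) ∈ U) (hFU : ∀ y, AnalyticOnNhd ℂ (F y) U)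
    (w : ℕ) (L : Set ℂ) (hL : IsCompact L) (hLU : L ⊆ U) :
    Y124.OneV g (fun R T => {t | t ∈ L ∧ Y120.Pt R T t}) (vQ β F w) := by
  have han : ∀ i, AnalyticOnNhd ℂ (fun s => vQ β F w s i) U := by
    intro i z hz
    rcases i with l | x
    · exact pow_analytic (β l) (hβ0 l) z
    · exact iter_analytic (hFU x.1 z hz) x.2
  exact Y124.oneV_of g (fun i s => vQ β F w s i) L hL (fun i t ht => han i t (hLU ht)) fun t ht =>
    locInd_P f hf c hfs F hF h w β hβ0 hβ (fun i s => vQ β F w s i)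
      (fun i => match i with
        | Sum.inl l => Sum.inl l
        | Sum.inr x => Sum.inr (Sum.inr (Sum.inr x)))
      (fun x y hxy => by rcases x with x | x <;> rcases y with y | y <;> simp_all)
      (fun y s => by rcases y with l | x <;> rfl) U hUc hU han t (hLU ht)

end Pool.Agent.Y922.ZF
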