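import Pool.Agent.Y922.ZF.Scale

/-!
# Combinations of Dirichlet series with slowly varying coefficients, exponentials and powers of a large function
-/

set_option autoImplicit false

open Finset Filter Asymptotics Topology

namespace Pool.Agent.Y922.ZF

theorem exists_lead {E : ArithmeticFunction ℂ} (hE : E ≠ 0) :
    ∃ n : ℕ, n ≠ 0 ∧ E n ≠ 0 ∧ ∀ m < n, E m = 0 := by
  classical
  have h1 : ∃ n, E n ≠ 0 := by
    by_contra hcon
    push Not at hcon
    exact hE (ArithmeticFunction.ext fun n => by simpa using hcon n)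
  refine ⟨Nat.find h1, ?_, Nat.find_spec h1, fun m hm => not_not.1 (Nat.find_min h1 hm)⟩
  intro h0
  have := Nat.find_spec h1
  rw [h0] at this
  exact this (ArithmeticFunction.map_zero (R := ℂ))

/-- the exponential with a negative rate is exponentially small -/
theorem ES.exp {δ : ℝ} (hδ : 0 < δ) : ES fun s => ((Real.exp (-(δ * s)) : ℝ) : ℂ) := by
  refine ⟨δ, hδ, IsBigO.of_bound 1 (Eventually.of_forall fun s => ?_)⟩
  rw [Complex.norm_real, one_mul]

/-- the normalised Dirichlet series is of subexponential growth -/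
theorem SE.dir (E : ArithmeticFunction ℂ) (c : ℝ) (hE : LSeriesSummable (fun n => E n) c) (n : ℕ) (hn : n ≠ 0)
    (h : ∀ m < n, E m = 0) : SE fun s : ℝ => (n : ℂ) ^ (s : ℂ) * LSeries (fun n => E n) s := by
  have h1 := lead E c hE n hn h
  have h2 : SE fun s : ℝ => E n - (n : ℂ) ^ (s : ℂ) * LSeries (fun n => E n) s := by
    obtain ⟨δ, hδ, h3⟩ := h1
    intro ε hε
    refine h3.trans ?_
    have := exp_le_of (a := -δ) (b := ε) (by linarith)
    simpa only [neg_mul] using this
  have h3 := (SE.const (E n)).add ((SE.const (-1)).mul h2)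
  refine h3.congr' (Eventually.of_forall fun s => ?_)
  simp only
  ring

theorem cpow_nat (n : ℕ) (hn : n ≠ 0) (s : ℝ) : (n : ℂ) ^ (s : ℂ) = ((Real.exp (Real.log n * s) : ℝ) : ℂ) := by
  have hn1 : (0 : ℝ) < n := Nat.cast_pos.2 (Nat.pos_of_ne_zero hn)
  rw [← Real.rpow_def_of_pos hn1, Complex.ofReal_cpow hn1.le]
  simp

/-- Let `J` be finite; consider the functions `u(s)^{k_j} e^{ω_j s} ρ_j(s) E_j(s)`, with `u` growing faster than all
exponentials, `ρ_j` of subexponential growth, `E_j` a Dirichlet series, and such that `ω_i - log a = ω_j - log b` implies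
`ω_i = ω_j`. If for fixed `k` and `ω` no nontrivial combination of the `ρ_j` is exponentially small, then the sum of the
functions can only vanish if all `E_j` are zero. -/
theorem inj {J : Type} [Fintype J] (u : ℝ → ℝ) (hu : ∀ C : ℝ, ∀ᶠ s in atTop, Real.exp (C * s) ≤ u s)
    (k : J → ℕ) (ω : J → ℝ) (ρ : J → ℝ → ℂ) (E : J → ArithmeticFunction ℂ)
    (hE : ∀ j, ∃ c : ℝ, LSeriesSummable (fun n => E j n) c) (hρ : ∀ j, SE (ρ j))
    (hω : ∀ i j (a b : ℕ), a ≠ 0 → b ≠ 0 → ω i - Real.log a = ω j - Real.log b → ω i = ω j)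
    (hind : ∀ (κ : ℕ) (w : ℝ) (c : J → ℂ), (∀ j, c j ≠ 0 → k j = κ ∧ ω j = w) → ES (fun s => ∑ j, c j * ρ j s) →
      c = 0)
    (h0 : ∀ᶠ s : ℝ in atTop, ∑ j, (u s : ℂ) ^ k j * ((Real.exp (ω j * s) : ℝ) : ℂ) * ρ j s *
      LSeries (fun n => E j n) s = 0) : ∀ j, E j = 0 := by
  classical
  by_contra hcon
  push Not at hcon
  obtain ⟨j0, hj0⟩ := hcon
  -- the leading indices
  have hN : ∀ j, ∃ n : ℕ, n ≠ 0 ∧ (E j ≠ 0 → E j n ≠ 0) ∧ ∀ m < n, E j m = 0 := by
    intro j
    by_cases hj : E j = 0
    · exact ⟨1, one_ne_zero, fun h => absurd hj h, fun m _ => by rw [hj]; simp⟩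
    · obtain ⟨n, h1, h2, h3⟩ := exists_lead hj
      exact ⟨n, h1, fun _ => h2, h3⟩
  choose N hN0 hN1 hN2 using hN
  set θ : J → ℝ := fun j => ω j - Real.log (N j) with hθ
  set S1 : Finset J := Finset.univ.filter fun j => E j ≠ 0 with hS1
  have hS1n : S1.Nonempty := ⟨j0, Finset.mem_filter.2 ⟨Finset.mem_univ _, hj0⟩⟩
  obtain ⟨j1, hj1, hmax1⟩ := Finset.exists_max_image S1 k hS1n
  set κ := k j1 with hκ
  set S2 : Finset J := S1.filter fun j => k j = κ with hS2
  have hS2n : S2.Nonempty := ⟨j1, Finset.mem_filter.2 ⟨hj1, rfl⟩⟩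
  obtain ⟨j2, hj2, hmax2⟩ := Finset.exists_max_image S2 θ hS2n
  set θ' := θ j2 with hθ'
  set c : J → ℂ := fun j => if E j ≠ 0 ∧ k j = κ ∧ θ j = θ' then E j (N j) else 0 with hc
  have hc2 : c j2 ≠ 0 := by
    have h1 := Finset.mem_filter.1 hj2
    have h2 := (Finset.mem_filter.1 h1.1).2
    simp only [hc]
    rw [if_pos ⟨h2, h1.2, rfl⟩]
    exact hN1 j2 h2
  refine hc2 (congrFun (hind κ (ω j2) c (fun j hj => ?_) ?_) j2)
  · simp only [hc] at hj
    split_ifs at hj with h1
    · exact ⟨h1.2.1, hω j j2 (N j) (N j2) (hN0 _) (hN0 _) h1.2.2⟩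
    · exact absurd rfl hj
  -- the exponentially small difference
  set Tm : J → ℝ → ℂ := fun j s => (u s : ℂ) ^ k j / (u s : ℂ) ^ κ * ((Real.exp ((ω j - θ') * s) : ℝ) : ℂ) * ρ j s *
      LSeries (fun n => E j n) s with hTm
  have hu0 : ∀ᶠ s in atTop, 0 < u s := by
    filter_upwards [hu 0] with s hs
    exact lt_of_lt_of_le (Real.exp_pos _) hs
  have hTsum : ∀ᶠ s : ℝ in atTop, ∑ j, Tm j s = 0 := by
    filter_upwards [h0, hu0] with s hs hus
    have h1 : ∑ j, Tm j s = ((u s : ℂ) ^ κ * ((Real.exp (θ' * s) : ℝ) : ℂ))⁻¹ * ∑ j, (u s : ℂ) ^ k j *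
        ((Real.exp (ω j * s) : ℝ) : ℂ) * ρ j s * LSeries (fun n => E j n) s := by
      rw [Finset.mul_sum]
      refine Finset.sum_congr rfl fun j _ => ?_
      simp only [hTm]
      have h2 : Real.exp ((ω j - θ') * s) = (Real.exp (θ' * s))⁻¹ * Real.exp (ω j * s) := by
        rw [← Real.exp_neg, ← Real.exp_add]
        congr 1
        ring
      rw [h2]
      push_cast
      rw [mul_inv]
      ring
    rw [h1, hs, mul_zero]
  have key : ∀ j, ES fun s => c j * ρ j s - Tm j s := by
    intro j
    by_cases hj : E j = 0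
    · refine ES.zero.congr' (Eventually.of_forall fun s => ?_)
      simp only [hTm, hc]
      rw [if_neg (fun h => h.1 hj), hj]
      have : LSeries (fun n => (0 : ArithmeticFunction ℂ) n) (s : ℂ) = 0 := by
        rw [LSeries]
        convert tsum_zero with n
        rw [LSeries.term_def]
        simp
      rw [this]
      ring
    have hjS1 : j ∈ S1 := Finset.mem_filter.2 ⟨Finset.mem_univ _, hj⟩
    obtain ⟨cc, hcc⟩ := hE j
    have hdir := SE.dir (E j) cc hcc (N j) (hN0 j) (hN2 j)
    by_cases hk : k j = κ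
    · -- the same power of `u`
      have hT1 : ∀ᶠ s : ℝ in atTop, Tm j s = ((Real.exp ((θ j - θ') * s) : ℝ) : ℂ) * ρ j s *
          (((N j : ℕ) : ℂ) ^ (s : ℂ) * LSeries (fun n => E j n) s) := by
        filter_upwards [hu0] with s hus
        simp only [hTm]
        have h3 : (u s : ℂ) ^ κ ≠ 0 := pow_ne_zero _ (by exact_mod_cast hus.ne')
        rw [hk, div_self h3, cpow_nat _ (hN0 j)]
        have h2 : Real.exp ((ω j - θ') * s) = Real.exp ((θ j - θ') * s) * Real.exp (Real.log (N j) * s) := by
          rw [← Real.exp_add]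
          congr 1
          simp only [hθ]
          ring
        rw [h2]
        push_cast
        ring
      by_cases hth : θ j = θ'
      · have h4 := (lead (E j) cc hcc (N j) (hN0 j) (hN2 j)).mul_SE (hρ j)
        refine h4.congr' ?_
        filter_upwards [hT1] with s hs
        rw [hs, hth]
        simp only [hc]
        rw [if_pos ⟨hj, hk, hth⟩]
        simp only [sub_self, zero_mul, Real.exp_zero]
        push_cast
        ring
      · have hlt : θ j < θ' := lt_of_le_of_ne (hmax2 j (Finset.mem_filter.2 ⟨hjS1, hk⟩)) hth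
        have h4 := ((ES.exp (δ := θ' - θ j) (by linarith)).mul_SE (hρ j)).mul_SE hdir
        refine h4.neg.congr' ?_
        filter_upwards [hT1] with s hs
        rw [hs]
        simp only [hc]
        rw [if_neg (fun h => hth h.2.2)]
        have h5 : -((θ' - θ j) * s) = (θ j - θ') * s := by ring
        rw [h5]
        ring
    · -- smaller powers of `u`
      have hklt : k j < κ := lt_of_le_of_ne (hmax1 j hjS1) hk
      -- the factor is exponentially small with any rate
      set C : ℝ := |θ j - θ'| + 1 with hC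
      have h6 : ES fun s => (u s : ℂ) ^ k j / (u s : ℂ) ^ κ * ((Real.exp ((θ j - θ') * s) : ℝ) : ℂ) := by
        refine ⟨1, one_pos, IsBigO.of_bound 1 ?_⟩
        filter_upwards [hu C, hu 0, eventually_ge_atTop 0] with s hs hs0 hs1
        have hus1 : 1 ≤ u s := by simpa using hs0
        have hus : 0 < u s := by linarith
        rw [norm_mul, norm_div, norm_pow, norm_pow, Complex.norm_real, Complex.norm_real, Real.norm_of_nonneg hus.le,
          Real.norm_of_nonneg (Real.exp_pos _).le, Real.norm_of_nonneg (Real.exp_pos _).le, one_mul]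
        have h7 : u s ^ k j / u s ^ κ ≤ (u s)⁻¹ := by
          rw [div_le_iff₀ (by positivity), inv_mul_eq_div, le_div_iff₀ hus, ← pow_succ]
          exact pow_le_pow_right₀ hus1 hklt
        have h8 : (u s)⁻¹ ≤ Real.exp (-(C * s)) := by
          rw [Real.exp_neg]
          exact inv_anti₀ (Real.exp_pos _) hs
        calc u s ^ k j / u s ^ κ * Real.exp ((θ j - θ') * s)
            ≤ Real.exp (-(C * s)) * Real.exp (|θ j - θ'| * s) := by
              refine mul_le_mul (h7.trans h8) ?_ (Real.exp_pos _).le (Real.exp_pos _).le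
              exact Real.exp_le_exp.2 (mul_le_mul_of_nonneg_right (le_abs_self _) hs1)
          _ = Real.exp (-(1 * s)) := by
              rw [← Real.exp_add]
              congr 1
              rw [hC]
              ring
      have h4 := (h6.mul_SE (hρ j)).mul_SE hdir
      refine h4.neg.congr' ?_
      filter_upwards [hu0] with s hus
      simp only [hc, hTm]
      rw [if_neg (fun h => hk h.2.1), cpow_nat _ (hN0 j)]
      have h2 : Real.exp ((ω j - θ') * s) = Real.exp ((θ j - θ') * s) * Real.exp (Real.log (N j) * s) := by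
        rw [← Real.exp_add]
        congr 1
        simp only [hθ]
        ring
      rw [h2]
      push_cast
      ring
  have h9 := ES.sum Finset.univ (f := fun j s => c j * ρ j s - Tm j s) fun j _ => key j
  refine h9.congr' ?_
  filter_upwards [hTsum] with s hs
  rw [Finset.sum_sub_distrib, hs, sub_zero]

end Pool.Agent.Y922.ZF
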