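import Mathlib

/-!
# The Hurwitz-Lerch functions
-/

set_option autoImplicit false

open Finset Filter Topology

namespace Pool.Agent.Y922.ZF

/-- the Hurwitz-Lerch function `Φ(z, k, s) = ∑ z ^ n / (n + s) ^ k` -/
noncomputable def lerch (z : ℂ) (k : ℕ) (s : ℂ) : ℂ := ∑' n : ℕ, z ^ n / ((n : ℂ) + s) ^ k

/-- admissible parameters -/
def LOk (z : ℂ) (k : ℕ) : Prop := 1 ≤ k ∧ ‖z‖ ≤ 1 ∧ (‖z‖ < 1 ∨ 2 ≤ k)

theorem lerch_bound {z : ℂ} {k : ℕ} (h : LOk z k) {δ : ℝ} (hδ : 0 < δ) :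
    ∃ u : ℕ → ℝ, Summable u ∧ ∀ (n : ℕ) (s : ℂ), δ ≤ s.re → ‖z ^ n / ((n : ℂ) + s) ^ k‖ ≤ u n := by
  set c := min 1 δ with hc
  have hc0 : 0 < c := lt_min one_pos hδ
  have hlow : ∀ (n : ℕ) (s : ℂ), δ ≤ s.re → c * ((n : ℝ) + 1) ≤ ‖(n : ℂ) + s‖ := by
    intro n s hs
    have hn : (0 : ℝ) ≤ n := Nat.cast_nonneg n
    refine le_trans ?_ (Complex.re_le_norm _)
    simp only [Complex.add_re, Complex.natCast_re]
    have h1 : c ≤ 1 := min_le_left _ _
    have h2 : c ≤ δ := min_le_right _ _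
    nlinarith
  have hgen : ∀ (n : ℕ) (s : ℂ), δ ≤ s.re → ‖z ^ n / ((n : ℂ) + s) ^ k‖ ≤ ‖z‖ ^ n / (c * ((n : ℝ) + 1)) ^ k := by
    intro n s hs
    rw [norm_div, norm_pow, norm_pow]
    refine div_le_div_of_nonneg_left (by positivity) (by positivity) ?_
    exact pow_le_pow_left₀ (by positivity) (hlow n s hs) k
  rcases h.2.2 with h1 | h1
  · refine ⟨fun n => ‖z‖ ^ n / c ^ k, (summable_geometric_of_lt_one (norm_nonneg _) h1).div_const _, fun n s hs => ?_⟩
    refine (hgen n s hs).trans ?_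
    refine div_le_div_of_nonneg_left (by positivity) (by positivity) ?_
    refine pow_le_pow_left₀ hc0.le ?_ k
    have hn : (0 : ℝ) ≤ n := Nat.cast_nonneg n
    nlinarith
  · refine ⟨fun n => (1 / c ^ k) * (1 / ((n : ℝ) + 1) ^ 2), ?_, fun n s hs => ?_⟩
    · refine Summable.mul_left _ ?_
      have h2 := (summable_nat_add_iff (f := fun n : ℕ => 1 / (n : ℝ) ^ 2) 1).2 (Real.summable_one_div_nat_pow.2 (by norm_num))
      refine h2.congr fun n => ?_
      push_cast
      rfl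
    · refine (hgen n s hs).trans ?_
      have hn : (0 : ℝ) ≤ n := Nat.cast_nonneg n
      have h3 : ‖z‖ ^ n ≤ 1 := pow_le_one₀ (norm_nonneg _) h.2.1
      have h4 : ((n : ℝ) + 1) ^ 2 ≤ ((n : ℝ) + 1) ^ k := pow_le_pow_right₀ (by linarith) h1
      calc ‖z‖ ^ n / (c * ((n : ℝ) + 1)) ^ k ≤ 1 / (c * ((n : ℝ) + 1)) ^ k :=
            div_le_div_of_nonneg_right h3 (by positivity)
        _ ≤ 1 / (c ^ k * ((n : ℝ) + 1) ^ 2) := by
            rw [mul_pow]
            exact div_le_div_of_nonneg_left zero_le_one (by positivity) (mul_le_mul_of_nonneg_left h4 (by positivity))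
        _ = 1 / c ^ k * (1 / ((n : ℝ) + 1) ^ 2) := by
            field_simp

theorem lerch_summable {z : ℂ} {k : ℕ} (h : LOk z k) {s : ℂ} (hs : 0 < s.re) :
    Summable fun n : ℕ => z ^ n / ((n : ℂ) + s) ^ k := by
  obtain ⟨u, hu, hb⟩ := lerch_bound h hs
  exact Summable.of_norm_bounded hu fun n => hb n s le_rfl

theorem lerch_shift {z : ℂ} {k : ℕ} (h : LOk z k) {s : ℂ} (hs : 0 < s.re) :
    lerch z k s = 1 / s ^ k + z * lerch z k (s + 1) := by
  rw [lerch, (lerch_summable h hs).tsum_eq_zero_add]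
  simp only [pow_zero, Nat.cast_zero, zero_add]
  congr 1
  rw [lerch, ← tsum_mul_left]
  refine tsum_congr fun n => ?_
  rw [pow_succ]
  push_cast
  rw [show (n : ℂ) + 1 + s = (n : ℂ) + (s + 1) by ring]
  ring

theorem lerch_bdd {z : ℂ} {k : ℕ} (h : LOk z k) : ∃ C : ℝ, ∀ s : ℝ, 1 ≤ s → ‖lerch z k s‖ ≤ C := by
  obtain ⟨u, hu, hb⟩ := lerch_bound h one_pos
  refine ⟨∑' n, u n, fun s hs => ?_⟩
  rw [lerch]
  exact tsum_of_norm_bounded hu.hasSum fun n => hb n s (by simpa using hs)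

theorem lerch_diff {z : ℂ} {k : ℕ} (h : LOk z k) : DifferentiableOn ℂ (lerch z k) {s : ℂ | 0 < s.re} := by
  intro s0 hs0
  have hs0' : 0 < s0.re := hs0
  set δ := s0.re / 2 with hδ
  have hδ0 : 0 < δ := by positivity
  obtain ⟨u, hu, hb⟩ := lerch_bound h hδ0
  have hopen : IsOpen {s : ℂ | δ < s.re} := isOpen_lt continuous_const Complex.continuous_re
  have h1 : DifferentiableOn ℂ (fun s => ∑' n : ℕ, z ^ n / ((n : ℂ) + s) ^ k) {s : ℂ | δ < s.re} := by
    refine Complex.differentiableOn_tsum_of_summable_norm hu ?_ hopen fun n s hs => hb n s (le_of_lt hs)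
    intro n s hs
    have hs' : δ < s.re := hs
    have hne : (n : ℂ) + s ≠ 0 := by
      intro h2
      have h3 := congrArg Complex.re h2
      simp only [Complex.add_re, Complex.natCast_re, Complex.zero_re] at h3
      have h5 : (0 : ℝ) ≤ n := Nat.cast_nonneg n
      linarith
    refine DifferentiableAt.differentiableWithinAt ?_
    refine (differentiableAt_const _).div ?_ (pow_ne_zero _ hne)
    exact ((differentiableAt_const _).add differentiableAt_id).pow _
  have h2 : lerch z k = fun s => ∑' n : ℕ, z ^ n / ((n : ℂ) + s) ^ k := rfl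
  rw [h2]
  refine DifferentiableAt.differentiableWithinAt ?_
  refine h1.differentiableAt (hopen.mem_nhds ?_)
  show δ < s0.re
  rw [hδ]
  linarith

/-- iterated shifts -/
theorem lerch_iter {z : ℂ} {k : ℕ} (h : LOk z k) (N : ℕ) {s : ℂ} (hs : 0 < (s + N).re) :
    lerch z k s = ∑ n ∈ range N, z ^ n / ((n : ℂ) + s) ^ k + z ^ N * lerch z k (s + N) := by
  have h1 := lerch_summable h hs
  have h2 : ∀ n : ℕ, z ^ (n + N) / (((n + N : ℕ) : ℂ) + s) ^ k = z ^ N * (z ^ n / ((n : ℂ) + (s + N)) ^ k) := by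
    intro n
    push_cast
    rw [show (n : ℂ) + N + s = (n : ℂ) + (s + N) by ring, pow_add]
    ring
  have h3 : Summable fun n : ℕ => z ^ n / ((n : ℂ) + s) ^ k := by
    rw [← summable_nat_add_iff N]
    simp only [h2]
    exact h1.mul_left _
  rw [lerch, ← h3.sum_add_tsum_nat_add N]
  congr 1
  simp only [h2]
  rw [tsum_mul_left, lerch]

theorem lerch_analytic {z : ℂ} {k : ℕ} (h : LOk z k) {t : ℂ} (ht : ∀ n : ℕ, t ≠ -n) : AnalyticAt ℂ (lerch z k) t := by
  obtain ⟨N, hN⟩ := exists_nat_gt (-t.re)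
  have hpos : 0 < (t + N).re := by
    simp only [Complex.add_re, Complex.natCast_re]
    linarith
  have hopen : IsOpen {s : ℂ | 0 < s.re} := isOpen_lt continuous_const Complex.continuous_re
  have h1 : AnalyticAt ℂ (lerch z k) (t + N) := (lerch_diff h).analyticAt (hopen.mem_nhds hpos)
  have h2 : AnalyticAt ℂ (fun s : ℂ => s + N) t := analyticAt_id.add analyticAt_const
  have h3 : AnalyticAt ℂ (fun s : ℂ => lerch z k (s + N)) t :=
    AnalyticAt.comp (g := lerch z k) (f := fun s : ℂ => s + N) h1 h2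
  have h4 : AnalyticAt ℂ (fun s : ℂ => ∑ n ∈ range N, z ^ n / ((n : ℂ) + s) ^ k + z ^ N * lerch z k (s + N)) t := by
    refine AnalyticAt.add (Finset.analyticAt_fun_sum _ fun n _ => ?_) (analyticAt_const.mul h3)
    refine analyticAt_const.div ((analyticAt_const.add analyticAt_id).pow k) (pow_ne_zero _ ?_)
    intro h5
    exact ht n (by simpa [add_comm] using eq_neg_of_add_eq_zero_right h5)
  refine h4.congr ?_
  have h5 : ∀ᶠ s : ℂ in 𝓝 t, 0 < (s + N).re := by
    have hc : Continuous fun s : ℂ => (s + N).re := Complex.continuous_re.comp (continuous_id.add continuous_const)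
    exact hc.continuousAt.eventually (isOpen_Ioi.mem_nhds hpos)
  filter_upwards [h5] with s hs
  exact (lerch_iter h N hs).symm

end Pool.Agent.Y922.ZF
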