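import Mathlib

/-!
# Exponentially small and subexponential functions; leading terms of Dirichlet series
-/

set_option autoImplicit false

open Finset Filter Asymptotics Topology

namespace Pool.Agent.Y922.ZF

/-- exponentially small at infinity -/
def ES (f : ℝ → ℂ) : Prop := ∃ δ : ℝ, 0 < δ ∧ f =O[atTop] fun s => Real.exp (-(δ * s))

/-- of subexponential growth at infinity -/
def SE (f : ℝ → ℂ) : Prop := ∀ ε : ℝ, 0 < ε → f =O[atTop] fun s => Real.exp (ε * s)

theorem exp_le_of {a b : ℝ} (h : a ≤ b) :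
    (fun s : ℝ => Real.exp (a * s)) =O[atTop] fun s => Real.exp (b * s) := by
  refine IsBigO.of_bound 1 ?_
  filter_upwards [eventually_ge_atTop 0] with s hs
  rw [Real.norm_of_nonneg (Real.exp_pos _).le, Real.norm_of_nonneg (Real.exp_pos _).le, one_mul]
  exact Real.exp_le_exp.2 (mul_le_mul_of_nonneg_right h hs)

theorem ES.congr' {f g : ℝ → ℂ} (hf : ES f) (h : f =ᶠ[atTop] g) : ES g := by
  obtain ⟨δ, hδ, h1⟩ := hf
  exact ⟨δ, hδ, h1.congr' h EventuallyEq.rfl⟩

theorem SE.congr' {f g : ℝ → ℂ} (hf : SE f) (h : f =ᶠ[atTop] g) : SE g := fun ε hε =>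
  (hf ε hε).congr' h EventuallyEq.rfl

theorem ES.zero : ES fun _ => 0 := ⟨1, one_pos, isBigO_zero _ _⟩

theorem ES.add {f g : ℝ → ℂ} (hf : ES f) (hg : ES g) : ES fun s => f s + g s := by
  obtain ⟨δ, hδ, h1⟩ := hf
  obtain ⟨η, hη, h2⟩ := hg
  refine ⟨min δ η, lt_min hδ hη, IsBigO.add (h1.trans ?_) (h2.trans ?_)⟩
  · have := exp_le_of (a := -δ) (b := -min δ η) (by simp)
    simpa only [neg_mul] using this
  · have := exp_le_of (a := -η) (b := -min δ η) (by simp)
    simpa only [neg_mul] using this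

theorem ES.sum {J : Type} (s : Finset J) {f : J → ℝ → ℂ} (hf : ∀ j ∈ s, ES (f j)) :
    ES fun x => ∑ j ∈ s, f j x := by
  classical
  induction s using Finset.induction_on with
  | empty => simpa using ES.zero
  | insert j s hj ih =>
    have h1 := (hf j (Finset.mem_insert_self _ _)).add (ih fun i hi => hf i (Finset.mem_insert_of_mem hi))
    refine h1.congr' (Eventually.of_forall fun x => ?_)
    simp only
    rw [Finset.sum_insert hj]

theorem ES.mul_SE {f g : ℝ → ℂ} (hf : ES f) (hg : SE g) : ES fun s => f s * g s := by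
  obtain ⟨δ, hδ, h1⟩ := hf
  refine ⟨δ / 2, by positivity, ?_⟩
  have h2 := h1.mul (hg (δ / 2) (by positivity))
  refine h2.congr_right fun s => ?_
  rw [← Real.exp_add]
  congr 1
  ring

theorem ES.neg {f : ℝ → ℂ} (hf : ES f) : ES fun s => -f s := by
  obtain ⟨δ, hδ, h1⟩ := hf
  exact ⟨δ, hδ, h1.neg_left⟩

theorem SE.const (c : ℂ) : SE fun _ => c := by
  intro ε hε
  refine IsBigO.of_bound ‖c‖ ?_
  filter_upwards [eventually_ge_atTop 0] with s hs
  have : 1 ≤ ‖Real.exp (ε * s)‖ := by
    rw [Real.norm_of_nonneg (Real.exp_pos _).le]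
    exact Real.one_le_exp (by positivity)
  nlinarith [norm_nonneg c]

theorem SE.add {f g : ℝ → ℂ} (hf : SE f) (hg : SE g) : SE fun s => f s + g s :=
  fun ε hε => (hf ε hε).add (hg ε hε)

theorem SE.mul {f g : ℝ → ℂ} (hf : SE f) (hg : SE g) : SE fun s => f s * g s := by
  intro ε hε
  have h2 := (hf (ε / 2) (by positivity)).mul (hg (ε / 2) (by positivity))
  refine h2.congr_right fun s => ?_
  rw [← Real.exp_add]
  congr 1
  ring

theorem SE.pow {f : ℝ → ℂ} (hf : SE f) (n : ℕ) : SE fun s => f s ^ n := by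
  induction n with
  | zero => simpa using SE.const 1
  | succ n ih =>
    refine (ih.mul hf).congr' (Eventually.of_forall fun s => ?_)
    simp only
    rw [pow_succ]

theorem SE.prod {J : Type} (s : Finset J) {f : J → ℝ → ℂ} (hf : ∀ j ∈ s, SE (f j)) :
    SE fun x => ∏ j ∈ s, f j x := by
  classical
  induction s using Finset.induction_on with
  | empty => simpa using SE.const 1
  | insert j s hj ih =>
    have h1 := (hf j (Finset.mem_insert_self _ _)).mul (ih fun i hi => hf i (Finset.mem_insert_of_mem hi))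
    refine h1.congr' (Eventually.of_forall fun x => ?_)
    simp only
    rw [Finset.prod_insert hj]

theorem SE.sum {J : Type} (s : Finset J) {f : J → ℝ → ℂ} (hf : ∀ j ∈ s, SE (f j)) :
    SE fun x => ∑ j ∈ s, f j x := by
  classical
  induction s using Finset.induction_on with
  | empty => simpa using SE.const 0
  | insert j s hj ih =>
    have h1 := (hf j (Finset.mem_insert_self _ _)).add (ih fun i hi => hf i (Finset.mem_insert_of_mem hi))
    refine h1.congr' (Eventually.of_forall fun x => ?_)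
    simp only
    rw [Finset.sum_insert hj]

theorem SE.of_bounded {f : ℝ → ℂ} (hf : f =O[atTop] fun _ => (1 : ℝ)) : SE f := fun ε hε =>
  hf.trans (by
    have := exp_le_of (a := 0) (b := ε) hε.le
    simpa using this)

theorem SE.of_tendsto {f : ℝ → ℂ} {a : ℂ} (hf : Tendsto f atTop (𝓝 a)) : SE f :=
  SE.of_bounded (hf.isBigO_one ℝ)

theorem SE.id : SE fun s => (s : ℂ) := by
  intro ε hε
  have h1 : (fun s : ℝ => s) =o[atTop] fun s => Real.exp (ε * s) := by
    have := isLittleO_pow_exp_pos_mul_atTop 1 hε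
    simpa using this
  refine (IsBigO.of_bound 1 ?_ : (fun s : ℝ => (s : ℂ)) =O[atTop] fun s : ℝ => s).trans h1.isBigO
  refine Eventually.of_forall fun s => ?_
  simp

/-- the leading term of a Dirichlet series, with an exponentially small error -/
theorem lead (E : ArithmeticFunction ℂ) (c : ℝ) (hE : LSeriesSummable (fun n => E n) c) (n : ℕ) (hn : n ≠ 0)
    (h : ∀ m < n, E m = 0) : ES fun s : ℝ => E n - (n : ℂ) ^ (s : ℂ) * LSeries (fun n => E n) s := by
  classical
  set E' : ℕ → ℂ := fun m => if m = n then 0 else E m with hE'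
  have hsum : ∀ s : ℝ, c ≤ s → LSeriesSummable (fun n => E n) s := fun s hs =>
    hE.of_re_le_re (by simpa using hs)
  have hterm : ∀ s : ℝ, LSeries.term E' s = fun m => LSeries.term (fun n => E n) s m -
      (if m = n then LSeries.term (fun n => E n) s n else 0) := by
    intro s
    funext m
    by_cases hm : m = n
    · subst hm
      rw [LSeries.term_def, LSeries.term_def]
      simp [hE']
    · rw [LSeries.term_def, LSeries.term_def, if_neg hm, sub_zero]
      simp only [hE', if_neg hm]
  have hS : ∀ s : ℝ, Summable fun m => (if m = n then LSeries.term (fun n => E n) (s : ℂ) n else 0) := fun s =>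
    (hasSum_ite_eq n _).summable
  have hsum' : ∀ s : ℝ, c ≤ s → LSeriesSummable E' s := by
    intro s hs
    have h7 : Summable (LSeries.term (fun n => E n) (s : ℂ)) := hsum s hs
    have h8 := Summable.sub h7 (hS s)
    have h9 : Summable (LSeries.term E' (s : ℂ)) := by
      rw [hterm]
      exact h8
    exact h9
  have hdec : ∀ s : ℝ, c ≤ s → LSeries (fun n => E n) s = E n / (n : ℂ) ^ (s : ℂ) + LSeries E' s := by
    intro s hs
    have h7 : Summable (LSeries.term (fun n => E n) (s : ℂ)) := hsum s hs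
    have h8 := Summable.tsum_sub h7 (hS s)
    have h9 : LSeries E' (s : ℂ) = ∑' m, (LSeries.term (fun n => E n) (s : ℂ) m -
        (if m = n then LSeries.term (fun n => E n) (s : ℂ) n else 0)) := by
      rw [LSeries, hterm]
    rw [h9, h8, tsum_ite_eq, LSeries, LSeries.term_of_ne_zero hn]
    ring
  have hab : LSeries.abscissaOfAbsConv E' < ⊤ :=
    lt_of_le_of_lt (hsum' c le_rfl).abscissaOfAbsConv_le (EReal.coe_lt_top _)
  have hlim := LSeries.tendsto_cpow_mul_atTop (f := E') (n := n) (fun m hm => by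
    simp only [hE']
    split_ifs with hmn
    · rfl
    · exact h m (lt_of_le_of_ne hm hmn)) hab
  have hn1 : (0 : ℝ) < n := Nat.cast_pos.2 (Nat.pos_of_ne_zero hn)
  refine ⟨Real.log (((n : ℝ) + 1) / n), Real.log_pos (by rw [lt_div_iff₀ hn1]; linarith), ?_⟩
  have hb := hlim.isBigO_one ℝ
  have h2 : (fun s : ℝ => ((((n : ℝ) / (n + 1)) ^ s : ℝ) : ℂ)) =O[atTop] fun s : ℝ =>
      Real.exp (-(Real.log (((n : ℝ) + 1) / n) * s)) := by
    refine IsBigO.of_bound 1 (Eventually.of_forall fun s => ?_)
    have hpos : (0 : ℝ) < (n : ℝ) / (n + 1) := by positivity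
    rw [one_mul, Complex.norm_real, Real.rpow_def_of_pos hpos]
    have : Real.log ((n : ℝ) / (n + 1)) = -Real.log (((n : ℝ) + 1) / n) := by
      rw [← Real.log_inv, inv_div]
    rw [this, neg_mul]
  have h3 := (h2.mul hb).neg_left
  refine IsBigO.congr' h3 ?_ (Eventually.of_forall fun s => by simp)
  filter_upwards [eventually_ge_atTop c] with s hs
  rw [hdec s hs]
  have hnc : (n : ℂ) ^ (s : ℂ) ≠ 0 := by
    rw [Complex.cpow_ne_zero_iff]
    left
    exact_mod_cast hn
  rw [mul_add, mul_div_cancel₀ _ hnc]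
  have h4 : ((n : ℂ) ^ (s : ℂ)) = (((n : ℝ) / (n + 1)) ^ s : ℝ) * ((n : ℂ) + 1) ^ (s : ℂ) := by
    have h5 : ((n : ℂ) ^ (s : ℂ)) = ((n : ℝ) ^ s : ℝ) := by
      rw [Complex.ofReal_cpow hn1.le]
      simp
    have h6 : (((n : ℂ) + 1) ^ (s : ℂ)) = (((n : ℝ) + 1) ^ s : ℝ) := by
      rw [Complex.ofReal_cpow (by positivity)]
      simp
    rw [h5, h6, ← Complex.ofReal_mul, ← Real.mul_rpow (by positivity) (by positivity), div_mul_cancel₀ _ (by positivity)]
  rw [h4]
  ring

end Pool.Agent.Y922.ZF
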