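import Pool.Agent.Y922.ZF.Rat
import Pool.Agent.Y922.ZF.Scale

/-!
# Functions with `x_k(s+1) = x_k(s) + g_k / s^(k+1)`: no nontrivial polynomial in them is exponentially small
-/

set_option autoImplicit false

open Finset Filter Asymptotics Topology

namespace Pool.Agent.Y922.ZF

/-- germs at infinity -/
abbrev GG : Type := Germ (atTop : Filter ℝ) ℂ

/-- exponentially small germs -/
def ESg (x : GG) : Prop := ∃ f : ℝ → ℂ, ES f ∧ (f : GG) = x

/-- subexponential germs -/
def SEg (x : GG) : Prop := ∃ f : ℝ → ℂ, SE f ∧ (f : GG) = x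

theorem ESg.coe {f : ℝ → ℂ} : ESg (f : GG) ↔ ES f := by
  constructor
  · rintro ⟨g, hg, h⟩
    exact hg.congr' (Germ.coe_eq.1 h)
  · intro h
    exact ⟨f, h, rfl⟩

theorem ESg.add {x y : GG} (hx : ESg x) (hy : ESg y) : ESg (x + y) := by
  obtain ⟨f, hf, rfl⟩ := hx
  obtain ⟨g, hg, rfl⟩ := hy
  exact ⟨fun s => f s + g s, hf.add hg, rfl⟩

theorem ESg.mul_SEg {x y : GG} (hx : ESg x) (hy : SEg y) : ESg (x * y) := by
  obtain ⟨f, hf, rfl⟩ := hx
  obtain ⟨g, hg, rfl⟩ := hy
  exact ⟨fun s => f s * g s, hf.mul_SE hg, rfl⟩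

theorem SEg.add {x y : GG} (hx : SEg x) (hy : SEg y) : SEg (x + y) := by
  obtain ⟨f, hf, rfl⟩ := hx
  obtain ⟨g, hg, rfl⟩ := hy
  exact ⟨fun s => f s + g s, hf.add hg, rfl⟩

theorem SEg.mul {x y : GG} (hx : SEg x) (hy : SEg y) : SEg (x * y) := by
  obtain ⟨f, hf, rfl⟩ := hx
  obtain ⟨g, hg, rfl⟩ := hy
  exact ⟨fun s => f s * g s, hf.mul hg, rfl⟩

/-- the shift of germs -/
noncomputable def TT (x : GG) : GG := x.compTendsto (fun s : ℝ => s + 1) (tendsto_atTop_add_const_right _ _ tendsto_id)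

theorem TT_coe (f : ℝ → ℂ) : TT (f : GG) = ((fun s => f (s + 1) : ℝ → ℂ) : GG) := rfl

theorem TT_add (x y : GG) : TT (x + y) = TT x + TT y := by
  refine Germ.inductionOn₂ x y fun f g => rfl

theorem TT_mul (x y : GG) : TT (x * y) = TT x * TT y := by
  refine Germ.inductionOn₂ x y fun f g => rfl

theorem TT_one : TT 1 = 1 := rfl

theorem TT_zero : TT 0 = 0 := rfl

/-- the shift as a ring homomorphism -/
noncomputable def TTh : GG →+* GG where
  toFun := TT
  map_one' := TT_one
  map_mul' := TT_mul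
  map_zero' := TT_zero
  map_add' := TT_add

theorem ES.shift {f : ℝ → ℂ} (hf : ES f) : ES fun s => f (s + 1) := by
  obtain ⟨δ, hδ, h1⟩ := hf
  refine ⟨δ, hδ, ?_⟩
  have h2 := h1.comp_tendsto (tendsto_atTop_add_const_right atTop (1 : ℝ) tendsto_id)
  refine h2.trans (IsBigO.of_bound 1 ?_)
  filter_upwards with s
  simp only [Function.comp, id]
  rw [Real.norm_of_nonneg (Real.exp_pos _).le, Real.norm_of_nonneg (Real.exp_pos _).le, one_mul]
  exact Real.exp_le_exp.2 (by nlinarith)

theorem ESg.shift {x : GG} (hx : ESg x) : ESg (TT x) := by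
  obtain ⟨f, hf, rfl⟩ := hx
  exact ⟨_, hf.shift, rfl⟩

/-- polynomials as germs -/
noncomputable def gp : Polynomial ℂ →+* GG :=
  (Germ.coeRingHom (atTop : Filter ℝ)).comp (RingHom.pi fun s : ℝ => Polynomial.evalRingHom (s : ℂ))

theorem gp_apply (p : Polynomial ℂ) : gp p = ((fun s : ℝ => p.eval (s : ℂ) : ℝ → ℂ) : GG) := rfl

theorem ev_ne {D : Polynomial ℂ} (h : D ≠ 0) : ∀ᶠ s : ℝ in atTop, D.eval (s : ℂ) ≠ 0 := by
  obtain ⟨R, hR⟩ := large_ne h
  filter_upwards [eventually_ge_atTop R] with s hs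
  exact hR s (hs.trans (le_abs_self s))

theorem gp_inv {D : Polynomial ℂ} (h : D ≠ 0) :
    gp D * ((fun s : ℝ => (D.eval (s : ℂ))⁻¹ : ℝ → ℂ) : GG) = 1 := by
  rw [gp_apply, ← Germ.coe_mul]
  refine Germ.coe_eq.2 ?_
  filter_upwards [ev_ne h] with s hs
  simp only [Pi.mul_apply]
  exact mul_inv_cancel₀ hs

/-- rational functions as germs -/
noncomputable def g0 : KK →+* GG :=
  IsLocalization.lift (M := nonZeroDivisors (Polynomial ℂ)) (g := gp) fun y =>
    IsUnit.of_mul_eq_one _ (gp_inv (nonZeroDivisors.ne_zero y.2))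

theorem g0_io (p : Polynomial ℂ) : g0 (io p) = gp p := IsLocalization.lift_eq _ _

theorem SE.poly (p : Polynomial ℂ) : SE fun s : ℝ => p.eval (s : ℂ) := by
  induction p using Polynomial.induction_on' with
  | add p q hp hq =>
    refine (hp.add hq).congr' (Eventually.of_forall fun s => ?_)
    simp only
    rw [Polynomial.eval_add]
  | monomial n a =>
    refine ((SE.const a).mul (SE.id.pow n)).congr' (Eventually.of_forall fun s => ?_)
    simp only
    rw [Polynomial.eval_monomial]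

theorem lower (D : Polynomial ℂ) (h : D ≠ 0) : ∃ c : ℝ, 0 < c ∧ ∀ᶠ s : ℝ in atTop, c ≤ ‖D.eval (s : ℂ)‖ := by
  rcases Nat.eq_zero_or_pos D.natDegree with h0 | h0
  · rw [Polynomial.eq_C_of_natDegree_eq_zero h0] at h ⊢
    have h1 : D.coeff 0 ≠ 0 := fun h2 => h (by rw [h2, map_zero])
    refine ⟨‖D.coeff 0‖, norm_pos_iff.2 h1, Eventually.of_forall fun s => ?_⟩
    rw [Polynomial.eval_C]
  · have h1 : Tendsto (fun s : ℝ => ‖D.eval (s : ℂ)‖) atTop atTop := by
      refine Polynomial.tendsto_norm_atTop D (Polynomial.natDegree_pos_iff_degree_pos.1 h0) ?_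
      simp only [Complex.norm_real]
      exact tendsto_norm_atTop_atTop
    exact ⟨1, one_pos, h1.eventually_ge_atTop 1⟩

theorem SE.inv_poly (D : Polynomial ℂ) (h : D ≠ 0) : SE fun s : ℝ => (D.eval (s : ℂ))⁻¹ := by
  obtain ⟨c, hc, h1⟩ := lower D h
  refine SE.of_bounded (IsBigO.of_bound c⁻¹ ?_)
  filter_upwards [h1] with s hs
  rw [norm_inv, norm_one, mul_one]
  exact inv_anti₀ hc hs

theorem g0_SEg (q : KK) : SEg (g0 q) := by
  obtain ⟨N, D, hD, rfl⟩ := exists_frac q
  refine ⟨_, (SE.poly N).mul (SE.inv_poly D hD), ?_⟩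
  have h1 : g0 (io N / io D) * gp D = gp N := by
    rw [← g0_io, ← g0_io, ← map_mul, div_mul_cancel₀ _ (io_ne hD)]
  have h2 : g0 (io N / io D) = gp N * ((fun s : ℝ => (D.eval (s : ℂ))⁻¹ : ℝ → ℂ) : GG) := by
    rw [← h1, mul_assoc, gp_inv hD, mul_one]
  rw [h2]
  rfl

theorem g0_sg (q : KK) : g0 (sg q) = TT (g0 q) := by
  have h1 : g0.comp sg = TTh.comp g0 := by
    refine IsLocalization.ringHom_ext (nonZeroDivisors (Polynomial ℂ)) (RingHom.ext fun p => ?_)
    simp only [RingHom.comp_apply]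
    rw [show algebraMap (Polynomial ℂ) KK p = io p from rfl, sg_io, g0_io, g0_io, gp_apply, gp_apply]
    refine Eq.trans ?_ (TT_coe _).symm
    refine congrArg _ (funext fun s => ?_)
    rw [ph_eval]
    push_cast
    rfl
  exact congrArg (fun φ : KK →+* GG => φ q) h1

section

variable {w : ℕ} (x : Fin w → ℝ → ℂ) (g : Fin w → ℂ)

/-- evaluation of polynomials over the rational functions -/
noncomputable def evg : MvPolynomial (Fin w) KK →+* GG := MvPolynomial.eval₂Hom g0 fun k => (x k : GG)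

theorem evg_SEg (hx : ∀ k, SE (x k)) (P : MvPolynomial (Fin w) KK) : SEg (evg x P) := by
  induction P using MvPolynomial.induction_on with
  | C a =>
    rw [evg, MvPolynomial.coe_eval₂Hom, MvPolynomial.eval₂_C]
    exact g0_SEg a
  | add P Q hP hQ =>
    rw [map_add]
    exact hP.add hQ
  | mul_X P k hP =>
    rw [map_mul]
    refine hP.mul ?_
    rw [evg, MvPolynomial.coe_eval₂Hom, MvPolynomial.eval₂_X]
    exact ⟨_, hx k, rfl⟩

theorem g0_bb (k : Fin w) : g0 (bb g k) = ((fun s : ℝ => g k / (s : ℂ) ^ ((k : ℕ) + 1) : ℝ → ℂ) : GG) := by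
  have hX : (Polynomial.X ^ ((k : ℕ) + 1) : Polynomial ℂ) ≠ 0 := pow_ne_zero _ Polynomial.X_ne_zero
  have h1 : g0 (bb g k) * gp (Polynomial.X ^ ((k : ℕ) + 1)) = gp (Polynomial.C (g k)) := by
    rw [← g0_io, ← g0_io, ← map_mul, bb, div_mul_cancel₀ _ (io_ne hX)]
  have h2 : g0 (bb g k) = gp (Polynomial.C (g k)) *
      ((fun s : ℝ => ((Polynomial.X ^ ((k : ℕ) + 1) : Polynomial ℂ).eval (s : ℂ))⁻¹ : ℝ → ℂ) : GG) := by
    rw [← h1, mul_assoc, gp_inv hX, mul_one]
  rw [h2, gp_apply, ← Germ.coe_mul]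
  refine congrArg _ (funext fun s => ?_)
  simp only [Pi.mul_apply, Polynomial.eval_C, Polynomial.eval_pow, Polynomial.eval_X]
  rw [div_eq_mul_inv]

theorem evg_sh (hsh : ∀ k, ∀ᶠ s : ℝ in atTop, x k (s + 1) = x k s + g k / (s : ℂ) ^ ((k : ℕ) + 1))
    (P : MvPolynomial (Fin w) KK) : evg x (sh sg (bb g) P) = TT (evg x P) := by
  induction P using MvPolynomial.induction_on with
  | C a =>
    rw [sh, MvPolynomial.map_C, tau, MvPolynomial.aeval_C, evg, MvPolynomial.coe_eval₂Hom, MvPolynomial.eval₂_C]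
    rw [MvPolynomial.algebraMap_eq, MvPolynomial.eval₂_C]
    exact g0_sg a
  | add P Q hP hQ =>
    have h1 : sh sg (bb g) (P + Q) = sh sg (bb g) P + sh sg (bb g) Q := by rw [sh, map_add, map_add]; rfl
    rw [h1, map_add, hP, hQ, map_add, TT_add]
  | mul_X P k hP =>
    have h1 : sh sg (bb g) (P * MvPolynomial.X k) = sh sg (bb g) P * (MvPolynomial.X k + MvPolynomial.C (bb g k)) := by
      rw [sh, map_mul, map_mul, MvPolynomial.map_X]
      congr 1
      rw [tau, MvPolynomial.aeval_X]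
    rw [h1, map_mul, hP, map_mul, TT_mul]
    congr 1
    rw [evg, MvPolynomial.coe_eval₂Hom, MvPolynomial.eval₂_add, MvPolynomial.eval₂_X, MvPolynomial.eval₂_C, g0_bb,
      ← Germ.coe_add, TT_coe]
    refine Germ.coe_eq.2 ?_
    filter_upwards [hsh k] with s hs
    simp only [Pi.add_apply]
    rw [hs]

/-- no nontrivial polynomial is exponentially small -/
theorem slow (hx : ∀ k, SE (x k)) (hg : ∀ k, g k ≠ 0)
    (hsh : ∀ k, ∀ᶠ s : ℝ in atTop, x k (s + 1) = x k s + g k / (s : ℂ) ^ ((k : ℕ) + 1))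
    (P : MvPolynomial (Option (Fin w)) ℂ)
    (hP : ES fun s : ℝ => MvPolynomial.aeval (fun o : Option (Fin w) => o.elim (s : ℂ) fun k => x k s) P) : P = 0 := by
  classical
  have : CharZero KK := charZero_of_injective_algebraMap (R := Polynomial ℂ) io_inj
  -- the ideal of exponentially small elements
  set I : Ideal (MvPolynomial (Fin w) KK) :=
    { carrier := {P | ESg (evg x P)}
      add_mem' := fun {P Q} hP hQ => by
        change ESg (evg x (P + Q))
        rw [map_add]
        exact ESg.add hP hQ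
      zero_mem' := by
        change ESg (evg x 0)
        rw [map_zero]
        exact ⟨fun _ => 0, ES.zero, rfl⟩
      smul_mem' := fun Q P hP => by
        change ESg (evg x (Q • P))
        rw [smul_eq_mul, mul_comm, map_mul]
        exact ESg.mul_SEg hP (evg_SEg x hx Q) } with hI
  have hmem : ∀ P, P ∈ I ↔ ESg (evg x P) := fun P => Iff.rfl
  have h1 : (1 : MvPolynomial (Fin w) KK) ∉ I := by
    rw [hmem, map_one]
    intro h2
    have h3 : ES (fun _ : ℝ => (1 : ℂ)) := ESg.coe.1 h2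
    obtain ⟨δ, hδ, h4⟩ := h3
    have h5 : Tendsto (fun s : ℝ => Real.exp (-(δ * s))) atTop (𝓝 0) := by
      refine Real.tendsto_exp_neg_atTop_nhds_zero.comp ?_
      exact tendsto_id.const_mul_atTop hδ
    have h6 := h4.trans_tendsto h5
    exact one_ne_zero (tendsto_nhds_unique tendsto_const_nhds h6)
  have h2 := ideal_zero sg (bb g) (fun c hc q h => no_tel g hg c hc q h) I
    (fun P hP => by
      rw [hmem] at hP ⊢
      rw [evg_sh x g hsh]
      exact hP.shift) h1
  -- transfer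
  set Φ : MvPolynomial (Option (Fin w)) ℂ →+* MvPolynomial (Fin w) KK :=
    (MvPolynomial.map io).comp (MvPolynomial.optionEquivRight ℂ (Fin w)).toRingEquiv.toRingHom with hΦ
  have hΦi : Function.Injective Φ := by
    rw [hΦ]
    exact (MvPolynomial.map_injective io io_inj).comp (MvPolynomial.optionEquivRight ℂ (Fin w)).injective
  have hev : ∀ Q : MvPolynomial (Option (Fin w)) ℂ, evg x (Φ Q) =
      ((fun s : ℝ => MvPolynomial.aeval (fun o : Option (Fin w) => o.elim (s : ℂ) fun k => x k s) Q : ℝ → ℂ) : GG) := by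
    intro Q
    induction Q using MvPolynomial.induction_on with
    | C a =>
      have h3 : Φ (MvPolynomial.C a) = MvPolynomial.C (io (Polynomial.C a)) := by
        simp [hΦ]
      rw [h3, evg, MvPolynomial.coe_eval₂Hom, MvPolynomial.eval₂_C, g0_io, gp_apply]
      refine congrArg _ (funext fun s => ?_)
      rw [Polynomial.eval_C, MvPolynomial.aeval_C]
      rfl
    | add P Q hP hQ =>
      rw [map_add, map_add, hP, hQ, ← Germ.coe_add]
      refine congrArg _ (funext fun s => ?_)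
      simp only [Pi.add_apply, map_add]
    | mul_X P o hP =>
      rw [map_mul, map_mul, hP]
      have h3 : evg x (Φ (MvPolynomial.X o)) = ((fun s : ℝ => (o.elim (s : ℂ) fun k => x k s) : ℝ → ℂ) : GG) := by
        rcases o with _ | k
        · have h4 : Φ (MvPolynomial.X none) = MvPolynomial.C (io Polynomial.X) := by
            simp [hΦ]
          rw [h4, evg, MvPolynomial.coe_eval₂Hom, MvPolynomial.eval₂_C, g0_io, gp_apply]
          refine congrArg _ (funext fun s => ?_)
          rw [Polynomial.eval_X]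
          rfl
        · have h4 : Φ (MvPolynomial.X (some k)) = MvPolynomial.X k := by
            simp [hΦ]
          rw [h4, evg, MvPolynomial.coe_eval₂Hom, MvPolynomial.eval₂_X]
          rfl
      rw [h3, ← Germ.coe_mul]
      refine congrArg _ (funext fun s => ?_)
      simp only [Pi.mul_apply, map_mul, MvPolynomial.aeval_X]
  refine hΦi ?_
  rw [map_zero]
  refine h2 _ ?_
  rw [hmem, hev]
  exact ESg.coe.2 hP

end

end Pool.Agent.Y922.ZF
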