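import Pool.Agent.Y922.ZF.ShiftM
import Pool.Agent.Y922.ZF.Slow

/-!
# Functions with `x_j(s+1) = m_j x_j(s) + g_j / s^(k_j)`: no nontrivial polynomial in them is exponentially small
-/

set_option autoImplicit false

open Finset Filter Asymptotics Topology

namespace Pool.Agent.Y922.ZF

variable {J : Type} (x : J → ℝ → ℂ) (mu g : J → ℂ) (k : J → ℕ)

/-- evaluation of polynomials over the rational functions -/
noncomputable def evM : MvPolynomial J KK →+* GG := MvPolynomial.eval₂Hom g0 fun j => (x j : GG)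

theorem evM_C (a : KK) : evM x (MvPolynomial.C a) = g0 a := by
  rw [evM, MvPolynomial.coe_eval₂Hom, MvPolynomial.eval₂_C]

theorem evM_X (j : J) : evM x (MvPolynomial.X j) = (x j : GG) := by
  rw [evM, MvPolynomial.coe_eval₂Hom, MvPolynomial.eval₂_X]

theorem evM_SEg (hx : ∀ j, SE (x j)) (P : MvPolynomial J KK) : SEg (evM x P) := by
  induction P using MvPolynomial.induction_on with
  | C a =>
    rw [evM_C]
    exact g0_SEg a
  | add P Q hP hQ =>
    rw [map_add]
    exact hP.add hQ
  | mul_X P k hP =>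
    rw [map_mul]
    refine hP.mul ?_
    rw [evM_X]
    exact ⟨_, hx k, rfl⟩

theorem g0_bk (j : J) : g0 (bk g k j) = ((fun s : ℝ => g j / (s : ℂ) ^ (k j) : ℝ → ℂ) : GG) := by
  have hX : (Polynomial.X ^ (k j) : Polynomial ℂ) ≠ 0 := pow_ne_zero _ Polynomial.X_ne_zero
  have h1 : g0 (bk g k j) * gp (Polynomial.X ^ (k j)) = gp (Polynomial.C (g j)) := by
    rw [← g0_io, ← g0_io, ← map_mul, bk, div_mul_cancel₀ _ (io_ne hX)]
  have h2 : g0 (bk g k j) = gp (Polynomial.C (g j)) *
      ((fun s : ℝ => ((Polynomial.X ^ (k j) : Polynomial ℂ).eval (s : ℂ))⁻¹ : ℝ → ℂ) : GG) := by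
    rw [← h1, mul_assoc, gp_inv hX, mul_one]
  rw [h2, gp_apply, ← Germ.coe_mul]
  refine congrArg _ (funext fun s => ?_)
  simp only [Pi.mul_apply, Polynomial.eval_C, Polynomial.eval_pow, Polynomial.eval_X]
  rw [div_eq_mul_inv]

variable [Fintype J]

theorem shM_add (b : J → KK) (P Q : MvPolynomial J KK) : shM mu b (P + Q) = shM mu b P + shM mu b Q := by
  rw [shM, shM, shM, map_add, map_add, map_add]

theorem shM_mul (b : J → KK) (P Q : MvPolynomial J KK) : shM mu b (P * Q) = shM mu b P * shM mu b Q := by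
  rw [shM, shM, shM, map_mul, map_mul, map_mul]

theorem shM_C (b : J → KK) (a : KK) : shM mu b (MvPolynomial.C a) = MvPolynomial.C (sg a) := by
  rw [shM, MvPolynomial.map_C, scl, MvPolynomial.aeval_C, MvPolynomial.algebraMap_eq, tau, MvPolynomial.aeval_C,
    MvPolynomial.algebraMap_eq]

theorem shM_X (b : J → KK) (j : J) : shM mu b (MvPolynomial.X j) =
    MvPolynomial.C (io (Polynomial.C (mu j))) * (MvPolynomial.X j + MvPolynomial.C (b j / io (Polynomial.C (mu j)))) := by
  rw [shM, MvPolynomial.map_X, scl, MvPolynomial.aeval_X, map_mul, tau, MvPolynomial.aeval_X, MvPolynomial.aeval_C,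
    MvPolynomial.algebraMap_eq]

theorem evM_shX (hmu : ∀ j, mu j ≠ 0)
    (hsh : ∀ j, ∀ᶠ s : ℝ in atTop, x j (s + 1) = mu j * x j s + g j / (s : ℂ) ^ (k j)) (j : J) :
    evM x (shM mu (bk g k) (MvPolynomial.X j)) = TT (x j : GG) := by
  rw [shM_X, mul_add, ← map_mul, mul_div_cancel₀ _ (io_ne (Polynomial.C_ne_zero.2 (hmu j))), map_add, map_mul, evM_C,
    evM_C, evM_X, g0_bk, g0_io, gp_apply, ← Germ.coe_mul, ← Germ.coe_add, TT_coe]
  refine Germ.coe_eq.2 ?_
  filter_upwards [hsh j] with s hs
  simp only [Pi.add_apply, Pi.mul_apply, Polynomial.eval_C]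
  rw [hs]

theorem evM_sh (hmu : ∀ j, mu j ≠ 0)
    (hsh : ∀ j, ∀ᶠ s : ℝ in atTop, x j (s + 1) = mu j * x j s + g j / (s : ℂ) ^ (k j))
    (P : MvPolynomial J KK) : evM x (shM mu (bk g k) P) = TT (evM x P) := by
  induction P using MvPolynomial.induction_on with
  | C a =>
    rw [shM_C, evM_C, evM_C]
    exact g0_sg a
  | add P Q hP hQ => rw [shM_add, map_add, hP, hQ, map_add, TT_add]
  | mul_X P j hP => rw [shM_mul, map_mul, hP, map_mul, TT_mul, evM_X, evM_shX x mu g k hmu hsh]

/-- no nontrivial polynomial is exponentially small -/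
theorem slowM (hx : ∀ j, SE (x j)) (hmu : ∀ j, mu j ≠ 0) (hk : ∀ j, 1 ≤ k j)
    (hinj : Function.Injective fun j => (mu j, k j)) (hg : ∀ j, g j ≠ 0)
    (hsh : ∀ j, ∀ᶠ s : ℝ in atTop, x j (s + 1) = mu j * x j s + g j / (s : ℂ) ^ (k j))
    (P : MvPolynomial (Option J) ℂ)
    (hP : ES fun s : ℝ => MvPolynomial.aeval (fun o : Option J => o.elim (s : ℂ) fun j => x j s) P) : P = 0 := by
  classical
  have : CharZero KK := charZero_of_injective_algebraMap (R := Polynomial ℂ) io_inj
  -- the ideal of exponentially small elements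
  set I : Ideal (MvPolynomial J KK) :=
    { carrier := {P | ESg (evM x P)}
      add_mem' := fun {P Q} hP hQ => by
        change ESg (evM x (P + Q))
        rw [map_add]
        exact ESg.add hP hQ
      zero_mem' := by
        change ESg (evM x 0)
        rw [map_zero]
        exact ⟨fun _ => 0, ES.zero, rfl⟩
      smul_mem' := fun Q P hP => by
        change ESg (evM x (Q • P))
        rw [smul_eq_mul, mul_comm, map_mul]
        exact ESg.mul_SEg hP (evM_SEg x hx Q) } with hI
  have hmem : ∀ P, P ∈ I ↔ ESg (evM x P) := fun P => Iff.rfl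
  have h1 : (1 : MvPolynomial J KK) ∉ I := by
    rw [hmem, map_one]
    intro h2
    have h3 : ES (fun _ : ℝ => (1 : ℂ)) := ESg.coe.1 h2
    obtain ⟨δ, hδ, h4⟩ := h3
    have h5 : Tendsto (fun s : ℝ => Real.exp (-(δ * s))) atTop (𝓝 0) := by
      refine Real.tendsto_exp_neg_atTop_nhds_zero.comp ?_
      exact tendsto_id.const_mul_atTop hδ
    have h6 := h4.trans_tendsto h5
    exact one_ne_zero (tendsto_nhds_unique tendsto_const_nhds h6)
  have h2 := ideal_zeroM mu hmu (bk g k) (fun μ c hc hcμ q h => no_telM mu hmu k hk hinj g hg μ c hc hcμ q h) I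
    (fun P hP => by
      rw [hmem] at hP ⊢
      rw [evM_sh x mu g k hmu hsh]
      exact hP.shift) h1
  -- transfer
  set Φ : MvPolynomial (Option J) ℂ →+* MvPolynomial J KK :=
    (MvPolynomial.map io).comp (MvPolynomial.optionEquivRight ℂ J).toRingEquiv.toRingHom with hΦ
  have hΦi : Function.Injective Φ := by
    rw [hΦ]
    exact (MvPolynomial.map_injective io io_inj).comp (MvPolynomial.optionEquivRight ℂ J).injective
  have hev : ∀ Q : MvPolynomial (Option J) ℂ, evM x (Φ Q) =
      ((fun s : ℝ => MvPolynomial.aeval (fun o : Option J => o.elim (s : ℂ) fun j => x j s) Q : ℝ → ℂ) : GG) := by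
    intro Q
    induction Q using MvPolynomial.induction_on with
    | C a =>
      have h3 : Φ (MvPolynomial.C a) = MvPolynomial.C (io (Polynomial.C a)) := by
        simp [hΦ]
      rw [h3, evM_C, g0_io, gp_apply]
      refine congrArg _ (funext fun s => ?_)
      rw [Polynomial.eval_C, MvPolynomial.aeval_C]
      rfl
    | add P Q hP hQ =>
      rw [map_add, map_add, hP, hQ, ← Germ.coe_add]
      refine congrArg _ (funext fun s => ?_)
      simp only [Pi.add_apply, map_add]
    | mul_X P o hP =>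
      rw [map_mul, map_mul, hP]
      have h3 : evM x (Φ (MvPolynomial.X o)) = ((fun s : ℝ => (o.elim (s : ℂ) fun j => x j s) : ℝ → ℂ) : GG) := by
        rcases o with _ | j
        · have h4 : Φ (MvPolynomial.X none) = MvPolynomial.C (io Polynomial.X) := by
            simp [hΦ]
          rw [h4, evM_C, g0_io, gp_apply]
          refine congrArg _ (funext fun s => ?_)
          rw [Polynomial.eval_X]
          rfl
        · have h4 : Φ (MvPolynomial.X (some j)) = MvPolynomial.X j := by
            simp [hΦ]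
          rw [h4, evM_X]
          rfl
      rw [h3, ← Germ.coe_mul]
      refine congrArg _ (funext fun s => ?_)
      simp only [Pi.mul_apply, map_mul, MvPolynomial.aeval_X]
  refine hΦi ?_
  rw [map_zero]
  refine h2 _ ?_
  rw [hmem, hev]
  exact ESg.coe.2 hP

end Pool.Agent.Y922.ZF
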