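import Pool.Agent.Y922.ZF.LerchF
import Pool.Agent.Y922.ZF.SlowM
import Pool.Agent.Y922.ZF.Inst

/-!
# Independence of the Hurwitz-Lerch functions
-/

set_option autoImplicit false

open Finset Filter Asymptotics Topology

namespace Pool.Agent.Y922.ZF

variable {J : Type}

/-- the parameters: distinct admissible pairs -/
structure LPar (z : J → ℂ) (k : J → ℕ) : Prop where
  ok : ∀ j, LOk (z j) (k j)
  ne : ∀ j, z j ≠ 0
  inj : Function.Injective fun j => (z j, k j)

/-- the slowly varying functions -/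
noncomputable def bL (z : J → ℂ) (k : J → ℕ) (o : Option J) (s : ℝ) : ℂ := o.elim (s : ℂ) fun j => lerch (z j) (k j) s

theorem bL_SE {z : J → ℂ} {k : J → ℕ} (h : LPar z k) (o : Option J) : SE (bL z k o) := by
  rcases o with _ | j
  · exact SE.id
  · obtain ⟨C, hC⟩ := lerch_bdd (h.ok j)
    refine SE.of_bounded (IsBigO.of_bound C ?_)
    filter_upwards [eventually_ge_atTop 1] with s hs
    rw [norm_one, mul_one]
    exact hC s hs

theorem bL_indep [Fintype J] {z : J → ℂ} {k : J → ℕ} (h : LPar z k) (P : MvPolynomial (Option J) ℂ)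
    (hP : ES fun s : ℝ => MvPolynomial.aeval (fun o => bL z k o s) P) : P = 0 := by
  refine slowM (fun (j : J) (s : ℝ) => lerch (z j) (k j) (s : ℂ)) (fun j => (z j)⁻¹) (fun j => -(z j)⁻¹) k
    (fun j => bL_SE h (some j)) (fun j => inv_ne_zero (h.ne j)) (fun j => (h.ok j).1) ?_
    (fun j => neg_ne_zero.2 (inv_ne_zero (h.ne j))) (fun j => ?_) P hP
  · intro i j hij
    simp only [Prod.mk.injEq, inv_inj] at hij
    exact h.inj (Prod.ext hij.1 hij.2)
  · filter_upwards [eventually_gt_atTop 0] with s hs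
    have h1 := lerch_shift (h.ok j) (s := (s : ℂ)) (by simpa using hs)
    have h2 := h.ne j
    rw [h1]
    push_cast
    field_simp
    ring

/-- the values -/
noncomputable def vL {h : ℕ} (β : Fin h → ℝ) (z : J → ℂ) (k : J → ℕ) (s : ℂ) : Fin h ⊕ J → ℂ
  | Sum.inl l => (β l : ℂ) ^ s
  | Sum.inr j => lerch (z j) (k j) s

/-- the index in the general theorem -/
def eL (J : Type) (h : ℕ) (o : Option (Fin h ⊕ J)) : Option (Option J ⊕ Fin h) ⊕ Empty :=
  match o with
  | none => Sum.inl (some (Sum.inl none))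
  | some (Sum.inl l) => Sum.inl (some (Sum.inr l))
  | some (Sum.inr j) => Sum.inl (some (Sum.inl (some j)))

theorem eL_inj (J : Type) (h : ℕ) : Function.Injective (eL J h) := by
  intro x y hxy
  rcases x with _ | (x | x) <;> rcases y with _ | (y | y) <;> simp_all [eL]

/-- local independence -/
theorem locInd_L [Fintype J] {z : J → ℂ} {k : J → ℕ} (hz : LPar z k) {h : ℕ} (β : Fin h → ℝ) (hβ0 : ∀ l, 0 < β l)
    (hβ : ∀ v : Fin h → ℤ, (∃ x : ℚ, ∏ l, β l ^ v l = x) → v = 0) (U : Set ℂ) (hUc : IsPreconnected U)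
    (hU : ∀ᶠ s : ℝ in atTop, (s : ℂ) ∈ U) (han : ∀ i, AnalyticOnNhd ℂ (fun s => vL β z k s i) U) (t : ℂ) (ht : t ∈ U) :
    Y124.LocInd (fun i s => vL β z k s i) t := by
  classical
  refine locInd_of (fun i s => vL β z k s i) (vals (fun s => Real.Gamma s) (bL z k) (fun l => Real.log (β l))
    (fun y : Empty => y.elim)) ?_ (fun o => eL J h o) (eL_inj J h) ?_ U hUc hU han t ht
  · intro P hP
    refine raw (fun s => Real.Gamma s) gamma_large (bL z k) (bL_SE hz) (bL_indep hz) _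
      (fun v a c ha hc hv => mult_cond β hβ0 hβ v a c ha hc hv) _ (fun c _ => funext fun y => y.elim) (fun y => y.elim) P hP
  · filter_upwards with s o
    rcases o with _ | (l | j)
    · rfl
    · simp only [vL, vals, eL, Sum.elim_inl, Sum.elim_inr, Option.elim]
      have hl := hβ0 l
      rw [← Real.rpow_def_of_pos hl, Complex.ofReal_cpow hl.le]
    · rfl

theorem vL_analytic {z : J → ℂ} {k : J → ℕ} (hz : LPar z k) {h : ℕ} (β : Fin h → ℝ) (hβ0 : ∀ l, 0 < β l)
    (i : Fin h ⊕ J) {t : ℂ} (ht : ∀ n : ℕ, t ≠ -n) : AnalyticAt ℂ (fun s => vL β z k s i) t := by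
  rcases i with l | j
  · exact pow_analytic (β l) (hβ0 l) t
  · exact lerch_analytic (hz.ok j) ht

theorem oneL (g : ℕ) [Fintype J] [DecidableEq J] {z : J → ℂ} {k : J → ℕ} (hz : LPar z k) {h : ℕ} (β : Fin h → ℝ)
    (hβ0 : ∀ l, 0 < β l) (hβ : ∀ v : Fin h → ℤ, (∃ x : ℚ, ∏ l, β l ^ v l = x) → v = 0)
    (L : Set ℂ) (hL : IsCompact L) (hLU : ∀ s ∈ L, ∀ n : ℕ, s ≠ -n) :
    Y124.OneV g (fun R T => {t | t ∈ L ∧ Y120.Pt R T t}) (vL β z k) := by
  set U : Set ℂ := {s : ℂ | ∃ m : ℕ, s = -m}ᶜ with hU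
  have hmem : ∀ s : ℂ, s ∈ U ↔ ∀ n : ℕ, s ≠ -n := by
    intro s
    simp [hU]
  have han : ∀ i, AnalyticOnNhd ℂ (fun s => vL β z k s i) U := fun i s hs => vL_analytic hz β hβ0 i ((hmem s).1 hs)
  refine Y124.oneV_of g (fun i s => vL β z k s i) L hL (fun i t ht => han i t ((hmem t).2 (hLU t ht))) fun t ht =>
    locInd_L hz β hβ0 hβ U (pre_of_countable countable_negnat) ?_ han t ((hmem t).2 (hLU t ht))
  filter_upwards [eventually_gt_atTop 0] with s hs
  rw [hmem]
  intro n h1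
  have h2 := congrArg Complex.re h1
  simp only [Complex.ofReal_re, Complex.neg_re, Complex.natCast_re] at h2
  have h5 : (0 : ℝ) ≤ n := Nat.cast_nonneg n
  linarith

end Pool.Agent.Y922.ZF
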