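import Pool.Agent.Y922.ZF.GenP

/-!
# Dilations of Dirichlet series

The arithmetic functions `m ^ j ↦ f m` for several `j` are algebraically independent if for every `j` those of level `j`
are independent at the primes.
-/

set_option autoImplicit false

open Finset Filter Asymptotics Topology

namespace Pool.Agent.Y922.ZF

open Classical in
/-- the arithmetic function `m ^ j ↦ f m` -/
noncomputable def pw (j : ℕ) (f : ArithmeticFunction ℂ) : ArithmeticFunction ℂ :=
  ⟨fun n => if h : ∃ m : ℕ, m ≠ 0 ∧ m ^ j = n then f (Classical.choose h) else 0, by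
    rw [dif_neg]
    rintro ⟨m, hm, h⟩
    exact pow_ne_zero j hm h⟩

theorem pw_pow {j : ℕ} (hj : j ≠ 0) (f : ArithmeticFunction ℂ) {m : ℕ} (hm : m ≠ 0) : pw j f (m ^ j) = f m := by
  have h : ∃ m' : ℕ, m' ≠ 0 ∧ m' ^ j = m ^ j := ⟨m, hm, rfl⟩
  have h1 : pw j f (m ^ j) = f (Classical.choose h) := dif_pos h
  rw [h1, Nat.pow_left_injective hj (Classical.choose_spec h).2]

theorem pw_ne {j : ℕ} (f : ArithmeticFunction ℂ) {n : ℕ} (h : pw j f n ≠ 0) : ∃ m : ℕ, m ≠ 0 ∧ m ^ j = n := by
  by_contra hcon
  exact h (dif_neg hcon)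

/-- the coefficient of a product at `p ^ j n` -/
theorem mul_dl_pw {p : ℕ} (hp : p.Prime) {n j l : ℕ} (hn : n ≠ 0) (hnp : n < p) (hl : l ≠ 0) (hjl : j ≤ l)
    (x b : ArithmeticFunction ℂ) (hx : j = l → ∀ m < n, x m = 0) :
    (x * dl p (pw l b)) (p ^ j * n) = if l = j then x n * ((j : ℂ) * b p) else 0 := by
  have hpn : ¬ p ∣ n := fun h => absurd (Nat.le_of_dvd (Nat.pos_of_ne_zero hn) h) (not_le.2 hnp)
  have hpj : p ^ j ≠ 0 := pow_ne_zero _ hp.ne_zero
  have hv : (p ^ j * n).factorization p = j := by
    rw [Nat.factorization_mul hpj hn, Finsupp.add_apply, Nat.factorization_eq_zero_of_not_dvd hpn, add_zero,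
      Nat.factorization_pow, Finsupp.smul_apply, hp.factorization_self, smul_eq_mul, mul_one]
  have hle : ∀ a c : ℕ, a * c = p ^ j * n → c.factorization p ≤ j := by
    intro a c hac
    rw [← hv]
    have hc0 : c ≠ 0 := by
      rintro rfl
      rw [mul_zero] at hac
      exact mul_ne_zero hpj hn hac.symm
    exact (Nat.factorization_le_iff_dvd hc0 (mul_ne_zero hpj hn)).2 (Dvd.intro_left a hac) p
  rw [ArithmeticFunction.mul_apply]
  split_ifs with hlj
  · subst hlj
    rw [Finset.sum_eq_single (n, p ^ l)]
    · rw [dl_apply, pw_pow hl b hp.ne_zero, Nat.factorization_pow, Finsupp.smul_apply, hp.factorization_self]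
      simp
    · rintro ⟨a, c⟩ hac hne
      obtain ⟨h1, _⟩ := Nat.mem_divisorsAntidiagonal.1 hac
      simp only at h1 ⊢
      by_contra h0
      have hxa : x a ≠ 0 := left_ne_zero_of_mul h0
      have h2 := right_ne_zero_of_mul h0
      rw [dl_apply] at h2
      have hvc : c.factorization p ≠ 0 := fun h => left_ne_zero_of_mul h2 (by rw [h]; simp)
      obtain ⟨m, hm, rfl⟩ := pw_ne b (right_ne_zero_of_mul h2)
      have han : n ≤ a := by
        by_contra hlt
        exact hxa (hx rfl a (not_le.1 hlt))
      have h3 := hle a (m ^ l) h1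
      rw [Nat.factorization_pow, Finsupp.smul_apply, smul_eq_mul] at h3 hvc
      have hm0 : m.factorization p ≠ 0 := right_ne_zero_of_mul hvc
      have hpm : p ∣ m := by
        by_contra hcon
        exact hm0 (Nat.factorization_eq_zero_of_not_dvd hcon)
      obtain ⟨e, rfl⟩ := hpm
      have he : e ≠ 0 := right_ne_zero_of_mul hm
      have h4 : a * e ^ l = n := by
        have : p ^ l * (a * e ^ l) = p ^ l * n := by rw [← h1, mul_pow]; ring
        exact Nat.eq_of_mul_eq_mul_left (Nat.pos_of_ne_zero hpj) this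
      have he1 : e = 1 := by
        by_contra hcon
        have h5 : 2 ≤ e := by omega
        have h6 : 2 ≤ e ^ l := h5.trans (Nat.le_self_pow hl e)
        have : n * 2 ≤ a * e ^ l := Nat.mul_le_mul han h6
        omega
      subst he1
      rw [one_pow, mul_one] at h4
      subst h4
      exact hne (by simp)
    · intro h
      exfalso
      exact h (Nat.mem_divisorsAntidiagonal.2 ⟨by ring, mul_ne_zero hpj hn⟩)
  · refine Finset.sum_eq_zero ?_
    rintro ⟨a, c⟩ hac
    obtain ⟨h1, _⟩ := Nat.mem_divisorsAntidiagonal.1 hac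
    simp only at h1 ⊢
    rw [dl_apply]
    by_contra h0
    have h2 := right_ne_zero_of_mul h0
    have hvc : c.factorization p ≠ 0 := fun h => left_ne_zero_of_mul h2 (by rw [h]; simp)
    obtain ⟨m, hm, rfl⟩ := pw_ne b (right_ne_zero_of_mul h2)
    have h3 := hle a (m ^ l) h1
    rw [Nat.factorization_pow, Finsupp.smul_apply, smul_eq_mul] at h3 hvc
    have hm0 : m.factorization p ≠ 0 := right_ne_zero_of_mul hvc
    have h4 : l ≤ l * m.factorization p := Nat.le_mul_of_pos_right _ (Nat.pos_of_ne_zero hm0)
    omega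

theorem sum_af {σ : Type} (s : Finset σ) (f : σ → ArithmeticFunction ℂ) (k : ℕ) :
    (∑ i ∈ s, f i) k = ∑ i ∈ s, f i k := by
  classical
  induction s using Finset.induction_on with
  | empty => simp
  | insert i s hi ih => rw [Finset.sum_insert hi, Finset.sum_insert hi, ArithmeticFunction.add_apply, ih]

/-- the Jacobian criterion -/
theorem lev_inj {σ : Type} [Fintype σ] (lev : σ → ℕ) (hlev : ∀ y, lev y ≠ 0) (b : σ → ArithmeticFunction ℂ)
    (hb : ∀ j N : ℕ, ∀ c : σ → ℂ, (∀ y, lev y ≠ j → c y = 0) →
      (∀ p : ℕ, p.Prime → N < p → ∑ y, c y * b y p = 0) → c = 0)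
    (x : σ → ArithmeticFunction ℂ) (hx : ∀ p : ℕ, p.Prime → ∑ y, x y * dl p (pw (lev y) (b y)) = 0) :
    ∀ y, x y = 0 := by
  classical
  have key : ∀ j : ℕ, ∀ y, lev y = j → x y = 0 := by
    intro j
    induction j using Nat.strong_induction_on with
    | _ j ihj =>
      have hn : ∀ n : ℕ, ∀ y, lev y = j → x y n = 0 := by
        intro n
        induction n using Nat.strong_induction_on with
        | _ n ihn =>
          by_cases hn0 : n = 0
          · intro y _
            rw [hn0]
            exact ArithmeticFunction.map_zero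
          intro y hy
          have hj0 : j ≠ 0 := hy ▸ hlev y
          have h1 := hb j n (fun y => if lev y = j then x y n else 0) (fun y hy => if_neg hy) (fun p hp hnp => by
            have h2 := congrArg (fun f : ArithmeticFunction ℂ => f (p ^ j * n)) (hx p hp)
            simp only [ArithmeticFunction.zero_apply] at h2
            rw [sum_af] at h2
            have h3 : ∀ y, (x y * dl p (pw (lev y) (b y))) (p ^ j * n) =
                (j : ℂ) * ((if lev y = j then x y n else 0) * b y p) := by
              intro y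
              rcases lt_or_ge (lev y) j with hlt | hge
              · rw [ihj (lev y) hlt y rfl, zero_mul, ArithmeticFunction.zero_apply, if_neg hlt.ne]
                ring
              · rw [mul_dl_pw hp hn0 hnp (hlev y) hge (x y) (b y) fun h m hm => ihn m hm y h.symm]
                split_ifs <;> ring
            simp_rw [h3] at h2
            rw [← Finset.mul_sum] at h2
            exact (mul_eq_zero.1 h2).resolve_left (Nat.cast_ne_zero.2 hj0))
          have h4 := congrFun h1 y
          simp only [if_pos hy, Pi.zero_apply] at h4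
          exact h4
      intro y hy
      exact ArithmeticFunction.ext fun n => by
        rw [hn n y hy, ArithmeticFunction.zero_apply]
  exact fun y => key _ y rfl

/-- algebraic independence from the Jacobian criterion -/
theorem aeval_inj_of {σ : Type} [Fintype σ] (g : σ → ArithmeticFunction ℂ)
    (hg : ∀ x : σ → ArithmeticFunction ℂ, (∀ p : ℕ, p.Prime → ∑ y, x y * dl p (g y) = 0) → ∀ y, x y = 0) :
    ∀ (d : ℕ) (P : MvPolynomial σ ℂ), P.totalDegree ≤ d → MvPolynomial.aeval g P = 0 → P = 0 := by
  classical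
  intro d
  induction d with
  | zero =>
    intro P hd hP
    have h1 := MvPolynomial.totalDegree_eq_zero_iff_eq_C.1 (Nat.le_zero.1 hd)
    rw [h1, MvPolynomial.aeval_C] at hP
    have h2 := ArithmeticFunction.algebraMap_apply_one (R := ℂ) (S := ℂ) (P.coeff 0)
    rw [hP] at h2
    have h3 : P.coeff 0 = 0 := by simpa using h2.symm
    rw [h1, h3, map_zero]
  | succ d ih =>
    intro P hd hP
    have hx := hg (fun i => MvPolynomial.aeval g (MvPolynomial.pderiv i P)) (fun p hp => by
      rw [← dl_aeval p g P, hP]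
      ext n
      rw [dl_apply, ArithmeticFunction.zero_apply, mul_zero])
    have h0 : ∀ i, MvPolynomial.pderiv i P = 0 := by
      intro i
      by_contra hne
      have hlt := totalDegree_pderiv_lt P i hne
      exact hne (ih _ (by omega) (hx i))
    have h1 := eq_C_of_pderiv P h0
    rw [h1, MvPolynomial.aeval_C] at hP
    have h2 := ArithmeticFunction.algebraMap_apply_one (R := ℂ) (S := ℂ) (P.coeff 0)
    rw [hP] at h2
    have h3 : P.coeff 0 = 0 := by simpa using h2.symm
    rw [h1, h3, map_zero]

theorem aeval_inj_lev {σ : Type} [Fintype σ] (lev : σ → ℕ) (hlev : ∀ y, lev y ≠ 0) (b : σ → ArithmeticFunction ℂ)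
    (hb : ∀ j N : ℕ, ∀ c : σ → ℂ, (∀ y, lev y ≠ j → c y = 0) →
      (∀ p : ℕ, p.Prime → N < p → ∑ y, c y * b y p = 0) → c = 0)
    (P : MvPolynomial σ ℂ) (h : MvPolynomial.aeval (fun y => pw (lev y) (b y)) P = 0) : P = 0 :=
  aeval_inj_of _ (lev_inj lev hlev b hb) _ P le_rfl h

/-- terms of the dilated Dirichlet series -/
theorem pw_term {j : ℕ} (hj : j ≠ 0) (f : ArithmeticFunction ℂ) (s : ℂ) (m : ℕ) :
    LSeries.term (fun n => pw j f n) s (m ^ j) = LSeries.term (fun n => f n) (j * s) m := by
  by_cases hm : m = 0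
  · subst hm
    rw [zero_pow hj]
    simp
  · rw [LSeries.term_of_ne_zero (pow_ne_zero j hm), LSeries.term_of_ne_zero hm, pw_pow hj f hm, Nat.cast_pow,
      Complex.natCast_cpow_natCast_mul]

theorem pw_support {j : ℕ} (f : ArithmeticFunction ℂ) (s : ℂ) :
    Function.support (LSeries.term (fun n => pw j f n) s) ⊆ Set.range fun m : ℕ => m ^ j := by
  intro n hn
  rw [Function.mem_support] at hn
  by_contra hcon
  apply hn
  rw [LSeries.term_def]
  split_ifs with h0
  · rfl
  · have : pw j f n = 0 := by
      by_contra hne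
      obtain ⟨m, _, hm⟩ := pw_ne f hne
      exact hcon ⟨m, hm⟩
    rw [this, zero_div]

theorem pw_summable {j : ℕ} (hj : j ≠ 0) (f : ArithmeticFunction ℂ) (s : ℂ)
    (h : LSeriesSummable (fun n => f n) (j * s)) : LSeriesSummable (fun n => pw j f n) s := by
  rw [LSeriesSummable] at h ⊢
  refine (Function.Injective.summable_iff (Nat.pow_left_injective hj) fun n hn => ?_).1 ?_
  · by_contra hcon
    exact hn (pw_support f s hcon)
  · refine h.congr fun m => ?_
    exact (pw_term hj f s m).symm

theorem pw_LSeries {j : ℕ} (hj : j ≠ 0) (f : ArithmeticFunction ℂ) (s : ℂ) :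
    LSeries (fun n => pw j f n) s = LSeries (fun n => f n) (j * s) := by
  rw [LSeries, LSeries, ← Function.Injective.tsum_eq (Nat.pow_left_injective hj) (pw_support f s)]
  exact tsum_congr fun m => pw_term hj f s m

end Pool.Agent.Y922.ZF
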