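import Pool.Agent.Y922.ZF.Shift

/-!
# The shift on the rational functions: constants and a telescoping problem
-/

set_option autoImplicit false

open Finset Polynomial

namespace Pool.Agent.Y922.ZF

/-- the field of rational functions -/
abbrev KK : Type := FractionRing (Polynomial ℂ)

/-- the embedding of polynomials -/
noncomputable abbrev io : Polynomial ℂ →+* KK := algebraMap (Polynomial ℂ) KK

theorem io_inj : Function.Injective io := IsFractionRing.injective (Polynomial ℂ) KK

/-- the shift of polynomials -/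
noncomputable def ph : Polynomial ℂ →+* Polynomial ℂ := Polynomial.compRingHom (X + C 1)

theorem ph_eval (p : Polynomial ℂ) (z : ℂ) : (ph p).eval z = p.eval (z + 1) := by
  rw [ph, Polynomial.coe_compRingHom_apply, Polynomial.eval_comp]
  simp

theorem ph_inj : Function.Injective ph := by
  intro p q h
  refine Polynomial.funext fun z => ?_
  have := congrArg (Polynomial.eval (z - 1)) h
  rw [ph_eval, ph_eval, sub_add_cancel] at this
  exact this

theorem io_ph_inj : Function.Injective (io.comp ph) := by
  intro p q h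
  exact ph_inj (io_inj h)

/-- the shift of rational functions -/
noncomputable def sg : KK →+* KK := IsFractionRing.lift (K := KK) io_ph_inj

theorem sg_io (p : Polynomial ℂ) : sg (io p) = io (ph p) := IsFractionRing.lift_algebraMap (K := KK) io_ph_inj p

theorem exists_frac (q : KK) : ∃ N D : Polynomial ℂ, D ≠ 0 ∧ q = io N / io D := by
  obtain ⟨x, y, hy, h⟩ := IsFractionRing.div_surjective (A := Polynomial ℂ) q
  exact ⟨x, y, nonZeroDivisors.ne_zero hy, h.symm⟩

theorem io_ne {D : Polynomial ℂ} (h : D ≠ 0) : io D ≠ 0 := fun h0 => h (io_inj (by rw [h0, map_zero]))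

theorem ph_ne {D : Polynomial ℂ} (h : D ≠ 0) : ph D ≠ 0 := fun h0 => h (ph_inj (by rw [h0, map_zero]))

/-- a nonzero polynomial has no zeros at large real numbers -/
theorem large_ne {D : Polynomial ℂ} (h : D ≠ 0) : ∃ R : ℝ, ∀ s : ℝ, R ≤ |s| → D.eval (s : ℂ) ≠ 0 := by
  classical
  refine ⟨∑ z ∈ D.roots.toFinset, ‖z‖ + 1, fun s hs h0 => ?_⟩
  have h1 : (s : ℂ) ∈ D.roots.toFinset := by
    rw [Multiset.mem_toFinset, Polynomial.mem_roots h]
    exact h0
  have h2 := Finset.single_le_sum (f := fun z : ℂ => ‖z‖) (fun z _ => norm_nonneg z) h1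
  simp only [Complex.norm_real, Real.norm_eq_abs] at h2
  linarith

/-- invariant rational functions are constant -/
theorem const_of_inv (q : KK) (h : sg q = q) : ∃ a : ℂ, q = io (C a) := by
  obtain ⟨N, D, hD, rfl⟩ := exists_frac q
  rw [map_div₀, sg_io, sg_io, div_eq_div_iff (io_ne (ph_ne hD)) (io_ne hD), ← map_mul, ← map_mul] at h
  have h1 := io_inj h
  have h2 : ∀ z : ℂ, N.eval (z + 1) * D.eval z = N.eval z * D.eval (z + 1) := by
    intro z
    have := congrArg (Polynomial.eval z) h1
    rw [Polynomial.eval_mul, Polynomial.eval_mul, ph_eval, ph_eval] at this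
    exact this
  obtain ⟨R, hR⟩ := large_ne hD
  set s0 : ℝ := |R| with hs0
  have hDn : ∀ n : ℕ, D.eval ((s0 : ℂ) + n) ≠ 0 := by
    intro n
    have h3 := hR (s0 + n) (by
      rw [abs_of_nonneg (by positivity)]
      have := le_abs_self R
      have : (0 : ℝ) ≤ n := Nat.cast_nonneg n
      linarith)
    push_cast at h3
    exact h3
  set v := N.eval (s0 : ℂ) / D.eval (s0 : ℂ) with hv
  have h3 : ∀ n : ℕ, N.eval ((s0 : ℂ) + n) = v * D.eval ((s0 : ℂ) + n) := by
    intro n
    induction n with
    | zero =>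
      have := hDn 0
      simp only [Nat.cast_zero, add_zero] at this ⊢
      rw [hv, div_mul_cancel₀ _ this]
    | succ n ih =>
      have h4 := h2 ((s0 : ℂ) + n)
      rw [ih] at h4
      have h5 : N.eval ((s0 : ℂ) + n + 1) = v * D.eval ((s0 : ℂ) + n + 1) :=
        mul_right_cancel₀ (hDn n) (by rw [h4]; ring)
      push_cast
      rw [← add_assoc]
      exact h5
  have h4 : N - C v * D = 0 := by
    refine Polynomial.eq_zero_of_infinite_isRoot _ ?_
    refine Set.infinite_of_injective_forall_mem (f := fun n : ℕ => (s0 : ℂ) + n) ?_ ?_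
    · intro m n hmn
      have := add_left_cancel hmn
      exact_mod_cast this
    · intro n
      change Polynomial.IsRoot _ _
      rw [Polynomial.IsRoot, Polynomial.eval_sub, Polynomial.eval_mul, Polynomial.eval_C, h3, sub_self]
  refine ⟨v, ?_⟩
  rw [div_eq_iff (io_ne hD), ← map_mul, ← sub_eq_zero.1 h4]

/-- the increments -/
noncomputable def bb {w : ℕ} (g : Fin w → ℂ) (k : Fin w) : KK := io (C (g k)) / io (X ^ ((k : ℕ) + 1))

theorem ph_iter (n : ℕ) (p : Polynomial ℂ) (z : ℂ) : (ph^[n] p).eval z = p.eval (z + n) := by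
  induction n generalizing z with
  | zero => simp
  | succ n ih =>
    rw [Function.iterate_succ', Function.comp_apply, ph_eval, ih]
    congr 1
    push_cast
    ring

/-- no telescoping -/
theorem no_tel {w : ℕ} (g : Fin w → ℂ) (hg : ∀ k, g k ≠ 0) (c : Fin w → KK) (hc : ∀ j, sg (c j) = c j) (q : KK)
    (h : sg q - q = ∑ j, c j * bb g j) : c = 0 := by
  classical
  choose a ha using fun j => const_of_inv (c j) (hc j)
  obtain ⟨N, D, hD, rfl⟩ := exists_frac q
  -- the numerator
  set β : Polynomial ℂ := ∑ j : Fin w, C (a j * g j) * X ^ (w - 1 - (j : ℕ)) with hβ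
  have hXw : io (X ^ w : Polynomial ℂ) ≠ 0 := io_ne (pow_ne_zero _ Polynomial.X_ne_zero)
  have h1 : ∑ j, c j * bb g j = io β / io (X ^ w) := by
    rw [eq_div_iff hXw, Finset.sum_mul, hβ, map_sum]
    refine Finset.sum_congr rfl fun j _ => ?_
    have h2 : io (X ^ ((j : ℕ) + 1) : Polynomial ℂ) ≠ 0 := io_ne (pow_ne_zero _ Polynomial.X_ne_zero)
    have h3 : (X ^ w : Polynomial ℂ) = X ^ (w - 1 - (j : ℕ)) * X ^ ((j : ℕ) + 1) := by
      rw [← pow_add]
      congr 1
      have := j.2
      omega
    rw [ha, bb, h3, map_mul io (X ^ (w - 1 - (j : ℕ))), map_mul io (C (a j * g j)), map_mul C, map_mul io (C (a j))]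
    field_simp
  -- the polynomial identity
  have h2 : (ph N * D - N * ph D) * X ^ w = β * (ph D * D) := by
    apply io_inj
    rw [h1, map_div₀, sg_io, sg_io, div_sub_div _ _ (io_ne (ph_ne hD)) (io_ne hD),
      div_eq_div_iff (mul_ne_zero (io_ne (ph_ne hD)) (io_ne hD)) hXw] at h
    rw [map_mul, map_sub, map_mul, map_mul, map_mul, map_mul, ← h]
    ring
  have h3 : ∀ z : ℂ, (N.eval (z + 1) * D.eval z - N.eval z * D.eval (z + 1)) * z ^ w =
      β.eval z * (D.eval (z + 1) * D.eval z) := by
    intro z
    have := congrArg (Polynomial.eval z) h2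
    simp only [Polynomial.eval_mul, Polynomial.eval_sub, Polynomial.eval_pow, Polynomial.eval_X, ph_eval] at this
    exact this
  -- shifted polynomials
  obtain ⟨R, hR⟩ := large_ne hD
  obtain ⟨m, hm⟩ := exists_nat_ge (|R| + 1)
  -- N(z+n) D(z) - N(z) D(z+n) times the product of the (z+i)^w, i < n
  have h4 : ∀ (n : ℕ), ∃ A : ℕ → Polynomial ℂ, (∀ i, A i = ∏ l ∈ (Finset.range n).erase i, (X + C (l : ℂ)) ^ w) ∧
      ∀ z : ℂ, (∀ i : ℕ, i ≤ n → D.eval (z + i) ≠ 0) → (∀ i < n, z + (i : ℂ) ≠ 0) →
      (N.eval (z + n) * D.eval z - N.eval z * D.eval (z + n)) * ∏ l ∈ Finset.range n, (z + (l : ℂ)) ^ w =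
        (D.eval (z + n) * D.eval z) * ∑ i ∈ Finset.range n, β.eval (z + i) * (A i).eval z := by
    intro n
    refine ⟨fun i => ∏ l ∈ (Finset.range n).erase i, (X + C (l : ℂ)) ^ w, fun i => rfl, fun z hz hz0 => ?_⟩
    -- telescoping of the quotients
    have h5 : ∀ k ≤ n, N.eval (z + k) / D.eval (z + k) - N.eval z / D.eval z =
        ∑ i ∈ Finset.range k, β.eval (z + i) / (z + i) ^ w := by
      intro k
      induction k with
      | zero => intro _; simp
      | succ k ih =>
        intro hk
        rw [Finset.sum_range_succ, ← ih (by omega)]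
        have h6 := h3 (z + k)
        have h7 := hz k (by omega)
        have h8 := hz (k + 1) hk
        have h9 : (z + (k : ℂ)) ^ w ≠ 0 := pow_ne_zero _ (hz0 k (by omega))
        push_cast at h8 ⊢
        rw [← add_assoc] at h8 ⊢
        have h10 : N.eval (z + k + 1) / D.eval (z + k + 1) - N.eval (z + k) / D.eval (z + k) =
            β.eval (z + k) / (z + k) ^ w := by
          rw [div_sub_div _ _ h8 h7, div_eq_div_iff (mul_ne_zero h8 h7) h9, ← h6]
          ring
        linear_combination h10
    have h6 := h5 n le_rfl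
    have h7 := hz n le_rfl
    have h8 := hz 0 (by omega)
    simp only [Nat.cast_zero, add_zero] at h8
    have h9 : N.eval (z + n) * D.eval z - N.eval z * D.eval (z + n) =
        (D.eval (z + n) * D.eval z) * (N.eval (z + n) / D.eval (z + n) - N.eval z / D.eval z) := by
      field_simp
    rw [h9, h6, mul_assoc, Finset.sum_mul]
    congr 1
    refine Finset.sum_congr rfl fun i hi => ?_
    have h10 : (z + (i : ℂ)) ^ w ≠ 0 := pow_ne_zero _ (hz0 i (Finset.mem_range.1 hi))
    rw [← Finset.mul_prod_erase _ _ hi, Polynomial.eval_prod]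
    simp only [Polynomial.eval_pow, Polynomial.eval_add, Polynomial.eval_X, Polynomial.eval_C]
    field_simp
  obtain ⟨A, hA, h5⟩ := h4 (2 * m)
  -- as polynomials, with `z` replaced by `X`
  have hsh : ∀ (p : Polynomial ℂ) (n : ℕ) (z : ℂ), (p.comp (X + C (n : ℂ))).eval z = p.eval (z + n) := by
    intro p n z
    rw [Polynomial.eval_comp]
    simp
  have h6 : (N.comp (X + C ((2 * m : ℕ) : ℂ)) * D - N * D.comp (X + C ((2 * m : ℕ) : ℂ))) *
      ∏ l ∈ Finset.range (2 * m), (X + C (l : ℂ)) ^ w =
        (D.comp (X + C ((2 * m : ℕ) : ℂ)) * D) *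
          ∑ i ∈ Finset.range (2 * m), β.comp (X + C (i : ℂ)) * A i := by
    rw [← sub_eq_zero]
    refine Polynomial.eq_zero_of_infinite_isRoot _ ?_
    refine Set.infinite_of_injective_forall_mem (f := fun n : ℕ => (((|R| + 1 : ℝ) : ℂ)) + n) ?_ ?_
    · intro m n hmn
      have := add_left_cancel hmn
      exact_mod_cast this
    · intro n
      change Polynomial.IsRoot _ _
      rw [Polynomial.IsRoot, Polynomial.eval_sub, Polynomial.eval_mul, Polynomial.eval_sub, Polynomial.eval_mul,
        Polynomial.eval_mul, Polynomial.eval_mul, Polynomial.eval_mul, hsh, hsh, Polynomial.eval_prod,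
        Polynomial.eval_finsetSum, sub_eq_zero]
      simp only [Polynomial.eval_pow, Polynomial.eval_add, Polynomial.eval_X, Polynomial.eval_C, Polynomial.eval_mul,
        hsh]
      refine h5 _ (fun i _ => ?_) fun i _ => ?_
      · have h7 := hR (|R| + 1 + n + i) (by
          rw [abs_of_nonneg (by positivity)]
          have := le_abs_self R
          have h8 : (0 : ℝ) ≤ n := Nat.cast_nonneg n
          have h9 : (0 : ℝ) ≤ i := Nat.cast_nonneg i
          linarith)
        push_cast at h7 ⊢
        exact h7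
      · have h7 : (|R| + 1 + n + i : ℝ) ≠ 0 := by positivity
        intro h8
        apply h7
        exact_mod_cast h8
  -- divisibility by (X + m)^w
  have hm2 : m ∈ Finset.range (2 * m) := by
    rw [Finset.mem_range]
    have : (0 : ℝ) < m := lt_of_lt_of_le (by positivity) hm
    have : 0 < m := by exact_mod_cast this
    omega
  set L : Polynomial ℂ := (X + C (m : ℂ)) ^ w with hL
  have h7 : L ∣ (D.comp (X + C ((2 * m : ℕ) : ℂ)) * D) * (β.comp (X + C (m : ℂ)) * A m) := by
    have h8 : L ∣ (D.comp (X + C ((2 * m : ℕ) : ℂ)) * D) *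
          ∑ i ∈ Finset.range (2 * m), β.comp (X + C (i : ℂ)) * A i := by
      rw [← h6]
      exact Dvd.dvd.mul_left (Finset.dvd_prod_of_mem _ hm2) _
    rw [← Finset.add_sum_erase _ _ hm2, mul_add] at h8
    refine (dvd_add_left (Dvd.dvd.mul_left (Finset.dvd_sum fun i hi => Dvd.dvd.mul_left ?_ _) _)).1 h8
    rw [hA i]
    exact Finset.dvd_prod_of_mem (fun l : ℕ => (X + C (l : ℂ)) ^ w)
      (Finset.mem_erase.2 ⟨fun h => (Finset.mem_erase.1 hi).1 h.symm, hm2⟩)
  have hcop : ∀ p : Polynomial ℂ, p.eval (-(m : ℂ)) ≠ 0 → IsCoprime L p := by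
    intro p hp
    refine IsCoprime.pow_left ?_
    have h8 : (X + C (m : ℂ) : Polynomial ℂ) = X - C (-(m : ℂ)) := by
      rw [map_neg, sub_neg_eq_add]
    rw [h8]
    exact (Polynomial.irreducible_X_sub_C _).coprime_iff_not_dvd.2 fun hd => hp (Polynomial.dvd_iff_isRoot.1 hd)
  have h8 : L ∣ β.comp (X + C (m : ℂ)) := by
    have hD1 : D.eval (-(m : ℂ)) ≠ 0 := by
      have := hR (-(m : ℝ)) (by
        rw [abs_neg, abs_of_nonneg (Nat.cast_nonneg m)]
        linarith [le_abs_self R])
      push_cast at this
      exact this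
    have hD2 : (D.comp (X + C ((2 * m : ℕ) : ℂ))).eval (-(m : ℂ)) ≠ 0 := by
      rw [hsh]
      have := hR (m : ℝ) (by
        rw [abs_of_nonneg (Nat.cast_nonneg m)]
        linarith [le_abs_self R])
      push_cast at this ⊢
      have h9 : -(m : ℂ) + 2 * m = m := by ring
      rw [h9]
      exact this
    have hA1 : (A m).eval (-(m : ℂ)) ≠ 0 := by
      rw [hA, Polynomial.eval_prod]
      refine Finset.prod_ne_zero_iff.2 fun l hl => ?_
      simp only [Polynomial.eval_pow, Polynomial.eval_add, Polynomial.eval_X, Polynomial.eval_C]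
      refine pow_ne_zero _ fun h9 => (Finset.mem_erase.1 hl).1 ?_
      have : (l : ℂ) = m := by linear_combination h9
      exact_mod_cast this
    have h9 := (hcop _ hD2).mul_right (hcop _ hD1)
    have h10 := h9.dvd_of_dvd_mul_left h7
    exact (hcop _ hA1).dvd_of_dvd_mul_right h10
  -- so β = 0
  have h9 : β = 0 := by
    by_contra hne
    have h10 : (β.comp (X + C (m : ℂ))) ≠ 0 := by
      intro h11
      apply hne
      refine Polynomial.funext fun z => ?_
      have := congrArg (Polynomial.eval (z - m)) h11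
      rw [hsh, sub_add_cancel] at this
      simpa using this
    have h11 := Polynomial.natDegree_le_of_dvd h8 h10
    rw [hL, Polynomial.natDegree_pow, Polynomial.natDegree_X_add_C, mul_one, Polynomial.natDegree_comp,
      Polynomial.natDegree_X_add_C, mul_one] at h11
    rcases Nat.eq_zero_or_pos w with hw | hw
    · apply hne
      rw [hβ]
      subst hw
      simp
    · have h12 : β.natDegree ≤ w - 1 := by
        rw [hβ]
        refine Polynomial.natDegree_sum_le_of_forall_le _ _ fun j _ => ?_
        refine (Polynomial.natDegree_C_mul_X_pow_le _ _).trans ?_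
        omega
      omega
  funext j
  have h10 : β.coeff (w - 1 - (j : ℕ)) = a j * g j := by
    rw [hβ, Polynomial.finset_sum_coeff, Finset.sum_eq_single j]
    · rw [Polynomial.coeff_C_mul_X_pow, if_pos rfl]
    · intro i _ hij
      rw [Polynomial.coeff_C_mul_X_pow, if_neg]
      intro h11
      apply hij
      apply Fin.ext
      have := i.2
      have := j.2
      omega
    · intro hj
      exact absurd (Finset.mem_univ j) hj
  rw [h9, Polynomial.coeff_zero] at h10
  have h11 : a j = 0 := by
    rcases mul_eq_zero.1 h10.symm with h | h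
    · exact h
    · exact absurd h (hg j)
  rw [ha, h11, map_zero, map_zero]
  rfl

end Pool.Agent.Y922.ZF
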