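import Pool.Agent.Y922.ZF.Rat

/-!
# The shift on the rational functions: multipliers
-/

set_option autoImplicit false

open Finset Polynomial

namespace Pool.Agent.Y922.ZF

/-- a rational function which is multiplied by a constant under the shift is invariant -/
theorem mult_one (a b : ℂ) (q : KK) (hq : q ≠ 0) (h : io (C a) * sg q = io (C b) * q) : a = b := by
  obtain ⟨N, D, hD, rfl⟩ := exists_frac q
  have hN : N ≠ 0 := by
    rintro rfl
    exact hq (by rw [map_zero, zero_div])
  rw [map_div₀, sg_io, sg_io, ← mul_div_assoc, ← mul_div_assoc, div_eq_div_iff (io_ne (ph_ne hD)) (io_ne hD),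
    ← map_mul, ← map_mul, ← map_mul, ← map_mul] at h
  have h1 := io_inj h
  have hlc : ∀ p : Polynomial ℂ, (ph p).leadingCoeff = p.leadingCoeff := by
    intro p
    rw [ph, Polynomial.coe_compRingHom_apply, Polynomial.leadingCoeff_comp (by rw [Polynomial.natDegree_X_add_C]; norm_num)]
    have : (X + C (1 : ℂ)).leadingCoeff = 1 := Polynomial.leadingCoeff_X_add_C 1
    rw [this, one_pow, mul_one]
  have h2 := congrArg Polynomial.leadingCoeff h1
  simp only [Polynomial.leadingCoeff_mul, hlc, Polynomial.leadingCoeff_C] at h2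
  have hN' := Polynomial.leadingCoeff_ne_zero.2 hN
  have hD' := Polynomial.leadingCoeff_ne_zero.2 hD
  have h3 : (a - b) * (N.leadingCoeff * D.leadingCoeff) = 0 := by linear_combination h2
  rcases mul_eq_zero.1 h3 with h4 | h4
  · exact sub_eq_zero.1 h4
  · exact absurd h4 (mul_ne_zero hN' hD')

/-- no telescoping with a multiplier -/
theorem tel_core (μ : ℂ) (hμ : μ ≠ 0) (w : ℕ) (β : Polynomial ℂ) (hβw : β ≠ 0 → β.natDegree < w) (N D : Polynomial ℂ)
    (hD : D ≠ 0) (h3 : ∀ z : ℂ, (N.eval (z + 1) * D.eval z - μ * (N.eval z * D.eval (z + 1))) * z ^ w =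
      β.eval z * (D.eval (z + 1) * D.eval z)) : β = 0 := by
  classical
  -- shifted polynomials
  obtain ⟨R, hR⟩ := large_ne hD
  obtain ⟨m, hm⟩ := exists_nat_ge (|R| + 1)
  have h4 : ∀ (n : ℕ), ∃ A : ℕ → Polynomial ℂ, (∀ i, A i = ∏ l ∈ (Finset.range n).erase i, (X + C (l : ℂ)) ^ w) ∧
      ∀ z : ℂ, (∀ i : ℕ, i ≤ n → D.eval (z + i) ≠ 0) → (∀ i < n, z + (i : ℂ) ≠ 0) →
      (N.eval (z + n) * D.eval z - μ ^ n * (N.eval z * D.eval (z + n))) * ∏ l ∈ Finset.range n, (z + (l : ℂ)) ^ w =
        (D.eval (z + n) * D.eval z) * ∑ i ∈ Finset.range n, μ ^ (n - 1 - i) * β.eval (z + i) * (A i).eval z := by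
    intro n
    refine ⟨fun i => ∏ l ∈ (Finset.range n).erase i, (X + C (l : ℂ)) ^ w, fun i => rfl, fun z hz hz0 => ?_⟩
    -- telescoping of the quotients
    have h5 : ∀ k ≤ n, N.eval (z + k) / D.eval (z + k) - μ ^ k * (N.eval z / D.eval z) =
        ∑ i ∈ Finset.range k, μ ^ (k - 1 - i) * β.eval (z + i) / (z + i) ^ w := by
      intro k
      induction k with
      | zero => intro _; simp
      | succ k ih =>
        intro hk
        have h6 := h3 (z + k)
        have h7 := hz k (by omega)
        have h8 := hz (k + 1) hk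
        have h9 : (z + (k : ℂ)) ^ w ≠ 0 := pow_ne_zero _ (hz0 k (by omega))
        have h11 : ∑ i ∈ Finset.range k, μ ^ (k + 1 - 1 - i) * β.eval (z + i) / (z + i) ^ w =
            μ * ∑ i ∈ Finset.range k, μ ^ (k - 1 - i) * β.eval (z + i) / (z + i) ^ w := by
          rw [Finset.mul_sum]
          refine Finset.sum_congr rfl fun i hi => ?_
          have hik := Finset.mem_range.1 hi
          have h12 : k + 1 - 1 - i = (k - 1 - i) + 1 := by omega
          rw [h12, pow_succ]
          ring
        rw [Finset.sum_range_succ, h11, ← ih (by omega)]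
        push_cast at h8 ⊢
        rw [← add_assoc] at h8 ⊢
        have h10 : N.eval (z + k + 1) / D.eval (z + k + 1) - μ * (N.eval (z + k) / D.eval (z + k)) =
            β.eval (z + k) / (z + k) ^ w := by
          rw [← mul_div_assoc, div_sub_div _ _ h8 h7, div_eq_div_iff (mul_ne_zero h8 h7) h9, ← h6]
          ring
        rw [Nat.sub_self, pow_zero, one_mul, pow_succ]
        linear_combination h10
    have h6 := h5 n le_rfl
    have h7 := hz n le_rfl
    have h8 := hz 0 (by omega)
    simp only [Nat.cast_zero, add_zero] at h8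
    have h9 : N.eval (z + n) * D.eval z - μ ^ n * (N.eval z * D.eval (z + n)) =
        (D.eval (z + n) * D.eval z) * (N.eval (z + n) / D.eval (z + n) - μ ^ n * (N.eval z / D.eval z)) := by
      field_simp
    rw [h9, h6, mul_assoc, Finset.sum_mul]
    congr 1
    refine Finset.sum_congr rfl fun i hi => ?_
    have h10 : (z + (i : ℂ)) ^ w ≠ 0 := pow_ne_zero _ (hz0 i (Finset.mem_range.1 hi))
    rw [← Finset.mul_prod_erase _ _ hi, Polynomial.eval_prod]
    simp only [Polynomial.eval_pow, Polynomial.eval_add, Polynomial.eval_X, Polynomial.eval_C]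
    field_simp
  obtain ⟨A, hA, h5⟩ := h4 (2 * m)
  -- as polynomials, with `z` replaced by `X`
  have hsh : ∀ (p : Polynomial ℂ) (n : ℕ) (z : ℂ), (p.comp (X + C (n : ℂ))).eval z = p.eval (z + n) := by
    intro p n z
    rw [Polynomial.eval_comp]
    simp
  have h6 : (N.comp (X + C ((2 * m : ℕ) : ℂ)) * D - C (μ ^ (2 * m)) * (N * D.comp (X + C ((2 * m : ℕ) : ℂ)))) *
      ∏ l ∈ Finset.range (2 * m), (X + C (l : ℂ)) ^ w =
        (D.comp (X + C ((2 * m : ℕ) : ℂ)) * D) *
          ∑ i ∈ Finset.range (2 * m), C (μ ^ (2 * m - 1 - i)) * β.comp (X + C (i : ℂ)) * A i := by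
    rw [← sub_eq_zero]
    refine Polynomial.eq_zero_of_infinite_isRoot _ ?_
    refine Set.infinite_of_injective_forall_mem (f := fun n : ℕ => (((|R| + 1 : ℝ) : ℂ)) + n) ?_ ?_
    · intro m n hmn
      have := add_left_cancel hmn
      exact_mod_cast this
    · intro n
      change Polynomial.IsRoot _ _
      rw [Polynomial.IsRoot, Polynomial.eval_sub, Polynomial.eval_mul, Polynomial.eval_sub, Polynomial.eval_mul,
        Polynomial.eval_mul, Polynomial.eval_mul, Polynomial.eval_mul, Polynomial.eval_mul, hsh, hsh,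
        Polynomial.eval_prod, Polynomial.eval_finsetSum, sub_eq_zero, Polynomial.eval_C]
      simp only [Polynomial.eval_pow, Polynomial.eval_add, Polynomial.eval_X, Polynomial.eval_C, Polynomial.eval_mul,
        hsh]
      refine h5 _ (fun i _ => ?_) fun i _ => ?_
      · have h7 := hR (|R| + 1 + n + i) (by
          rw [abs_of_nonneg (by positivity)]
          have := le_abs_self R
          have h8 : (0 : ℝ) ≤ n := Nat.cast_nonneg n
          have h9 : (0 : ℝ) ≤ i := Nat.cast_nonneg i
          linarith)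
        push_cast at h7 ⊢
        exact h7
      · have h7 : (|R| + 1 + n + i : ℝ) ≠ 0 := by positivity
        intro h8
        apply h7
        exact_mod_cast h8
  -- divisibility by (X + m)^w
  have hm2 : m ∈ Finset.range (2 * m) := by
    rw [Finset.mem_range]
    have : (0 : ℝ) < m := lt_of_lt_of_le (by positivity) hm
    have : 0 < m := by exact_mod_cast this
    omega
  set L : Polynomial ℂ := (X + C (m : ℂ)) ^ w with hL
  have h7 : L ∣ (D.comp (X + C ((2 * m : ℕ) : ℂ)) * D) *
      (C (μ ^ (2 * m - 1 - m)) * β.comp (X + C (m : ℂ)) * A m) := by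
    have h8 : L ∣ (D.comp (X + C ((2 * m : ℕ) : ℂ)) * D) *
          ∑ i ∈ Finset.range (2 * m), C (μ ^ (2 * m - 1 - i)) * β.comp (X + C (i : ℂ)) * A i := by
      rw [← h6]
      exact Dvd.dvd.mul_left (Finset.dvd_prod_of_mem _ hm2) _
    rw [← Finset.add_sum_erase _ _ hm2, mul_add] at h8
    refine (dvd_add_left (Dvd.dvd.mul_left (Finset.dvd_sum fun i hi => Dvd.dvd.mul_left ?_ _) _)).1 h8
    rw [hA i]
    exact Finset.dvd_prod_of_mem (fun l : ℕ => (X + C (l : ℂ)) ^ w)
      (Finset.mem_erase.2 ⟨fun h => (Finset.mem_erase.1 hi).1 h.symm, hm2⟩)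
  have hcop : ∀ p : Polynomial ℂ, p.eval (-(m : ℂ)) ≠ 0 → IsCoprime L p := by
    intro p hp
    refine IsCoprime.pow_left ?_
    have h8 : (X + C (m : ℂ) : Polynomial ℂ) = X - C (-(m : ℂ)) := by
      rw [map_neg, sub_neg_eq_add]
    rw [h8]
    exact (Polynomial.irreducible_X_sub_C _).coprime_iff_not_dvd.2 fun hd => hp (Polynomial.dvd_iff_isRoot.1 hd)
  have h8 : L ∣ β.comp (X + C (m : ℂ)) := by
    have hD1 : D.eval (-(m : ℂ)) ≠ 0 := by
      have := hR (-(m : ℝ)) (by
        rw [abs_neg, abs_of_nonneg (Nat.cast_nonneg m)]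
        linarith [le_abs_self R])
      push_cast at this
      exact this
    have hD2 : (D.comp (X + C ((2 * m : ℕ) : ℂ))).eval (-(m : ℂ)) ≠ 0 := by
      rw [hsh]
      have := hR (m : ℝ) (by
        rw [abs_of_nonneg (Nat.cast_nonneg m)]
        linarith [le_abs_self R])
      push_cast at this ⊢
      have h9 : -(m : ℂ) + 2 * m = m := by ring
      rw [h9]
      exact this
    have hA1 : (A m).eval (-(m : ℂ)) ≠ 0 := by
      rw [hA, Polynomial.eval_prod]
      refine Finset.prod_ne_zero_iff.2 fun l hl => ?_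
      simp only [Polynomial.eval_pow, Polynomial.eval_add, Polynomial.eval_X, Polynomial.eval_C]
      refine pow_ne_zero _ fun h9 => (Finset.mem_erase.1 hl).1 ?_
      have : (l : ℂ) = m := by linear_combination h9
      exact_mod_cast this
    have hC1 : (C (μ ^ (2 * m - 1 - m))).eval (-(m : ℂ)) ≠ 0 := by
      rw [Polynomial.eval_C]
      exact pow_ne_zero _ hμ
    have h9 := (hcop _ hD2).mul_right (hcop _ hD1)
    have h10 := h9.dvd_of_dvd_mul_left h7
    exact (hcop _ hC1).dvd_of_dvd_mul_left ((hcop _ hA1).dvd_of_dvd_mul_right h10)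
  -- so β = 0
  by_contra hne
  have h10 : (β.comp (X + C (m : ℂ))) ≠ 0 := by
    intro h11
    apply hne
    refine Polynomial.funext fun z => ?_
    have := congrArg (Polynomial.eval (z - m)) h11
    rw [hsh, sub_add_cancel] at this
    simpa using this
  have h11 := Polynomial.natDegree_le_of_dvd h8 h10
  rw [hL, Polynomial.natDegree_pow, Polynomial.natDegree_X_add_C, mul_one, Polynomial.natDegree_comp,
    Polynomial.natDegree_X_add_C, mul_one] at h11
  have := hβw hne
  omega

/-- the inhomogeneous terms -/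
noncomputable def bk {J : Type} (g : J → ℂ) (k : J → ℕ) (j : J) : KK := io (C (g j)) / io (X ^ k j)

/-- no telescoping for a family of pairs -/
theorem no_telM {J : Type} [Fintype J] (mu : J → ℂ) (hmu : ∀ j, mu j ≠ 0) (k : J → ℕ) (hk : ∀ j, 1 ≤ k j)
    (hinj : Function.Injective fun j => (mu j, k j)) (g : J → ℂ) (hg : ∀ j, g j ≠ 0) (μ : ℂ) (c : J → KK)
    (hc : ∀ j, sg (c j) = c j) (hcμ : ∀ j, c j ≠ 0 → mu j = μ) (q : KK)
    (h : sg q - io (C μ) * q = ∑ j, c j * bk g k j) : c = 0 := by
  classical
  by_contra hcne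
  obtain ⟨j0, hj0⟩ := Function.ne_iff.1 hcne
  have hμ : μ ≠ 0 := by
    rw [← hcμ j0 hj0]
    exact hmu j0
  choose a ha using fun j => const_of_inv (c j) (hc j)
  obtain ⟨N, D, hD, rfl⟩ := exists_frac q
  set w : ℕ := ∑ j, k j with hw
  have hkw : ∀ j, k j ≤ w := fun j => Finset.single_le_sum (f := k) (fun i _ => Nat.zero_le _) (Finset.mem_univ j)
  -- the numerator
  set β : Polynomial ℂ := ∑ j : J, C (a j * g j) * X ^ (w - k j) with hβ
  have hXw : io (X ^ w : Polynomial ℂ) ≠ 0 := io_ne (pow_ne_zero _ Polynomial.X_ne_zero)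
  have h1 : ∑ j, c j * bk g k j = io β / io (X ^ w) := by
    rw [eq_div_iff hXw, Finset.sum_mul, hβ, map_sum]
    refine Finset.sum_congr rfl fun j _ => ?_
    have h2 : io (X ^ (k j) : Polynomial ℂ) ≠ 0 := io_ne (pow_ne_zero _ Polynomial.X_ne_zero)
    have h3 : (X ^ w : Polynomial ℂ) = X ^ (w - k j) * X ^ (k j) := by
      rw [← pow_add]
      congr 1
      have := hkw j
      omega
    rw [ha, bk, h3, map_mul io (X ^ (w - k j)), map_mul io (C (a j * g j)), map_mul C, map_mul io (C (a j))]
    field_simp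
  -- the polynomial identity
  have h2 : (ph N * D - C μ * (N * ph D)) * X ^ w = β * (ph D * D) := by
    apply io_inj
    rw [h1, map_div₀, sg_io, sg_io, ← mul_div_assoc, div_sub_div _ _ (io_ne (ph_ne hD)) (io_ne hD),
      div_eq_div_iff (mul_ne_zero (io_ne (ph_ne hD)) (io_ne hD)) hXw] at h
    rw [map_mul, map_sub, map_mul, map_mul, map_mul, map_mul, map_mul, ← h]
    ring
  have h3 : ∀ z : ℂ, (N.eval (z + 1) * D.eval z - μ * (N.eval z * D.eval (z + 1))) * z ^ w =
      β.eval z * (D.eval (z + 1) * D.eval z) := by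
    intro z
    have := congrArg (Polynomial.eval z) h2
    simp only [Polynomial.eval_mul, Polynomial.eval_sub, Polynomial.eval_pow, Polynomial.eval_X, ph_eval,
      Polynomial.eval_C] at this
    exact this
  have h9 : β = 0 := by
    refine tel_core μ hμ w β (fun hne => ?_) N D hD h3
    have hw1 : 1 ≤ w := (hk j0).trans (hkw j0)
    have h12 : β.natDegree ≤ w - 1 := by
      rw [hβ]
      refine Polynomial.natDegree_sum_le_of_forall_le _ _ fun j _ => ?_
      refine (Polynomial.natDegree_C_mul_X_pow_le _ _).trans ?_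
      have := hk j
      omega
    omega
  apply hj0
  have h10 : β.coeff (w - k j0) = a j0 * g j0 := by
    rw [hβ, Polynomial.finsetSum_coeff, Finset.sum_eq_single j0]
    · rw [Polynomial.coeff_C_mul_X_pow, if_pos rfl]
    · intro i _ hij
      rw [Polynomial.coeff_C_mul_X_pow]
      split_ifs with h11
      · by_cases hci : c i = 0
        · have : a i = 0 := by
            have h12 := ha i
            rw [hci] at h12
            have h13 : io (C (a i)) = io 0 := by rw [← h12, map_zero]
            have h14 := io_inj h13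
            exact Polynomial.C_eq_zero.1 h14
          rw [this, zero_mul]
        · exfalso
          apply hij
          apply hinj
          have h12 := hkw i
          have h13 := hkw j0
          simp only [Prod.mk.injEq]
          exact ⟨(hcμ i hci).trans (hcμ j0 hj0).symm, by omega⟩
      · rfl
    · intro hj
      exact absurd (Finset.mem_univ j0) hj
  rw [h9, Polynomial.coeff_zero] at h10
  have h11 : a j0 = 0 := by
    rcases mul_eq_zero.1 h10.symm with h | h
    · exact h
    · exact absurd h (hg j0)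
  rw [ha, h11, map_zero, map_zero]
  rfl

end Pool.Agent.Y922.ZF
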