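import Pool.Agent.Y922.ZF.Formal
import Pool.Agent.Y922.ZF.Inj
import Pool.Agent.Y124.StdC

/-!
# Algebraic independence of functions given by Dirichlet series, over slowly varying functions and exponentials
-/

set_option autoImplicit false

open Finset Filter Asymptotics Topology

namespace Pool.Agent.Y922.ZF

theorem LS_zero (s : ℂ) : LSeries (fun n => (0 : ArithmeticFunction ℂ) n) s = 0 := by
  rw [LSeries]
  convert tsum_zero with n
  rw [LSeries.term_def]
  simp

/-- Dirichlet series of polynomials in arithmetic functions -/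
theorem LS_aeval {Y : Type} [Fintype Y] (g : Y → ArithmeticFunction ℂ) (s : ℂ)
    (hg : ∀ y, LSeriesSummable (fun n => g y n) s) (P : MvPolynomial Y ℂ) :
    LSeriesSummable (fun n => MvPolynomial.aeval g P n) s ∧
      LSeries (fun n => MvPolynomial.aeval g P n) s =
        MvPolynomial.aeval (fun y => LSeries (fun n => g y n) s) P := by
  classical
  induction P using MvPolynomial.induction_on with
  | C a =>
    have h1 : (fun n => MvPolynomial.aeval g (MvPolynomial.C a) n) =
        a • fun n => (1 : ArithmeticFunction ℂ) n := by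
      funext n
      rw [MvPolynomial.aeval_C, Algebra.algebraMap_eq_smul_one, ArithmeticFunction.smul_map]
      rfl
    have h2 : (fun n => (1 : ArithmeticFunction ℂ) n) = LSeries.delta := by
      funext n
      rw [ArithmeticFunction.one_apply, LSeries.delta]
    have h3 : LSeriesSummable (fun n => (1 : ArithmeticFunction ℂ) n) s := by
      rw [h2, LSeriesSummable]
      refine summable_of_hasFiniteSupport ((Set.finite_singleton 1).subset fun n hn => ?_)
      rw [Function.mem_support] at hn
      by_contra hne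
      apply hn
      rw [LSeries.term_def, LSeries.delta]
      simp only [Set.mem_singleton_iff] at hne
      simp [hne]
    refine ⟨?_, ?_⟩
    · rw [h1]
      exact h3.smul a
    · rw [h1, LSeries_smul, h2, LSeries_delta, MvPolynomial.aeval_C]
      simp
  | add P Q hP hQ =>
    have h1 : (fun n => MvPolynomial.aeval g (P + Q) n) =
        (fun n => MvPolynomial.aeval g P n) + fun n => MvPolynomial.aeval g Q n := by
      funext n
      rw [map_add]
      rfl
    refine ⟨?_, ?_⟩
    · rw [h1]
      exact hP.1.add hQ.1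
    · rw [h1, LSeries_add hP.1 hQ.1, hP.2, hQ.2, map_add]
  | mul_X P j hP =>
    have h1 : (fun n => MvPolynomial.aeval g (P * MvPolynomial.X j) n) =
        fun n => (MvPolynomial.aeval g P * g j) n := by
      rw [map_mul, MvPolynomial.aeval_X]
    refine ⟨?_, ?_⟩
    · rw [h1]
      exact ArithmeticFunction.LSeriesSummable_mul hP.1 (hg j)
    · rw [h1, ArithmeticFunction.LSeries_mul' hP.1 (hg j), hP.2, map_mul, MvPolynomial.aeval_X]

/-- the values of the functions at a real point -/
noncomputable def vals {β Λ Y : Type} (u : ℝ → ℝ) (b : β → ℝ → ℂ) (lam : Λ → ℝ) (g : Y → ArithmeticFunction ℂ)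
    (s : ℝ) : Option (β ⊕ Λ) ⊕ Y → ℂ :=
  Sum.elim (fun o => o.elim (u s : ℂ) (Sum.elim (fun i => b i s) fun l => ((Real.exp (lam l * s) : ℝ) : ℂ)))
    fun y => LSeries (fun n => g y n) s

/-- algebraic independence on a half-line -/
theorem raw {β Λ Y : Type} [Fintype β] [Fintype Λ] [Fintype Y] (u : ℝ → ℝ)
    (hu : ∀ C : ℝ, ∀ᶠ s in atTop, Real.exp (C * s) ≤ u s) (b : β → ℝ → ℂ) (hb : ∀ i, SE (b i))
    (hbi : ∀ P : MvPolynomial β ℂ, ES (fun s => MvPolynomial.aeval (fun i => b i s) P) → P = 0)
    (lam : Λ → ℝ) (hlam : ∀ (v : Λ → ℤ) (a c : ℕ), a ≠ 0 → c ≠ 0 → ∑ l, (v l : ℝ) * lam l = Real.log a - Real.log c →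
      v = 0)
    (g : Y → ArithmeticFunction ℂ) (hg : ∀ c : Y → ℂ, (∀ p : ℕ, p.Prime → ∑ y, c y * g y p = 0) → c = 0)
    (hgs : ∀ y, ∃ c : ℝ, LSeriesSummable (fun n => g y n) c)
    (P : MvPolynomial (Option (β ⊕ Λ) ⊕ Y) ℂ) (h0 : ∀ᶠ s : ℝ in atTop, MvPolynomial.aeval (vals u b lam g s) P = 0) :
    P = 0 := by
  classical
  -- a common half plane
  obtain ⟨c0, hc0⟩ : ∃ c0 : ℝ, ∀ y, ∀ s : ℝ, c0 ≤ s → LSeriesSummable (fun n => g y n) (s : ℂ) := by
    choose c hc using hgs
    refine ⟨∑ y, |c y|, fun y s hs => (hc y).of_re_le_re ?_⟩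
    simp only [Complex.ofReal_re]
    exact ((le_abs_self _).trans (Finset.single_le_sum (fun i _ => abs_nonneg (c i)) (Finset.mem_univ y))).trans hs
  set P' : MvPolynomial (Option (β ⊕ Λ)) (MvPolynomial Y ℂ) := MvPolynomial.sumRingEquiv ℂ _ _ P with hP'
  have hPP : P' = 0 → P = 0 := fun h => by
    have := (MvPolynomial.sumRingEquiv ℂ (Option (β ⊕ Λ)) Y).injective (a₁ := P) (a₂ := 0) (by rw [map_zero]; exact h)
    exact this
  -- evaluation through `P'`
  have hev : ∀ (z : Option (β ⊕ Λ) → ℂ) (w : Y → ℂ), MvPolynomial.aeval (Sum.elim z w) P =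
      ∑ a ∈ P'.support, (∏ o, z o ^ a o) * MvPolynomial.aeval w (P'.coeff a) := by
    intro z w
    have h1 : MvPolynomial.aeval (Sum.elim z w) P =
        MvPolynomial.eval₂Hom (MvPolynomial.aeval w : MvPolynomial Y ℂ →ₐ[ℂ] ℂ).toRingHom z P' := by
      have h2 : (MvPolynomial.aeval (Sum.elim z w) : MvPolynomial (Option (β ⊕ Λ) ⊕ Y) ℂ →ₐ[ℂ] ℂ).toRingHom =
          (MvPolynomial.eval₂Hom (MvPolynomial.aeval w : MvPolynomial Y ℂ →ₐ[ℂ] ℂ).toRingHom z).comp
            (MvPolynomial.sumRingEquiv ℂ (Option (β ⊕ Λ)) Y).toRingHom := by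
        refine MvPolynomial.ringHom_ext (fun r => ?_) fun i => ?_
        · simp
        · rcases i with i | i
          · simp
          · simp
      exact congrArg (fun φ : MvPolynomial (Option (β ⊕ Λ) ⊕ Y) ℂ →+* ℂ => φ P) h2
    rw [h1, MvPolynomial.coe_eval₂Hom, MvPolynomial.eval₂_eq']
    refine Finset.sum_congr rfl fun a _ => ?_
    rw [mul_comm]
    rfl
  refine hPP ?_
  by_contra hne
  -- the data for `inj`
  set J : Type := {a // a ∈ P'.support} with hJ
  have hJne : Nonempty J := by
    obtain ⟨a, ha⟩ := MvPolynomial.ne_zero_iff.1 hne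
    exact ⟨⟨a, MvPolynomial.mem_support_iff.2 ha⟩⟩
  have hinj := inj (J := J) u hu (fun a => a.1 none) (fun a => ∑ l, (a.1 (some (Sum.inr l)) : ℝ) * lam l)
    (fun a s => ∏ i, b i s ^ a.1 (some (Sum.inl i))) (fun a => MvPolynomial.aeval g (P'.coeff a.1))
    (fun a => ⟨c0, (LS_aeval g c0 (fun y => hc0 y c0 le_rfl) _).1⟩)
    (fun a => SE.prod _ fun i _ => (hb i).pow _) ?_ ?_ ?_
  · obtain ⟨a⟩ := hJne
    have h1 := hinj a
    exact (MvPolynomial.mem_support_iff.1 a.2) (aeval_inj g hg _ _ le_rfl h1)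
  · intro i j a c ha hc h
    have h1 : ∑ l, (((i.1 (some (Sum.inr l)) : ℤ) - (j.1 (some (Sum.inr l)) : ℤ) : ℤ) : ℝ) * lam l =
        Real.log a - Real.log c := by
      have h2 : ∑ l, (((i.1 (some (Sum.inr l)) : ℤ) - (j.1 (some (Sum.inr l)) : ℤ) : ℤ) : ℝ) * lam l =
          ∑ l, (i.1 (some (Sum.inr l)) : ℝ) * lam l - ∑ l, (j.1 (some (Sum.inr l)) : ℝ) * lam l := by
        rw [← Finset.sum_sub_distrib]
        refine Finset.sum_congr rfl fun l _ => ?_
        push_cast
        ring
      rw [h2]
      linarith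
    have h3 := hlam _ a c ha hc h1
    refine Finset.sum_congr rfl fun l _ => ?_
    have h4 : (i.1 (some (Sum.inr l)) : ℤ) - (j.1 (some (Sum.inr l)) : ℤ) = 0 := congrFun h3 l
    have h5 : i.1 (some (Sum.inr l)) = j.1 (some (Sum.inr l)) := by omega
    rw [h5]
  · intro κ w c hc hES
    -- the restriction of exponents
    set r : J → (β →₀ ℕ) := fun a => Finsupp.equivFunOnFinite.symm fun i => a.1 (some (Sum.inl i)) with hr
    have hr' : ∀ a i, r a i = a.1 (some (Sum.inl i)) := fun a i => rfl
    set Q : MvPolynomial β ℂ := ∑ a, MvPolynomial.monomial (r a) (c a) with hQ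
    have hQ0 : Q = 0 := by
      refine hbi Q (hES.congr' (Eventually.of_forall fun s => ?_))
      simp only
      rw [hQ, map_sum]
      refine Finset.sum_congr rfl fun a _ => ?_
      rw [MvPolynomial.aeval_monomial, Finsupp.prod_fintype _ _ (fun i => pow_zero _)]
      rfl
    funext a
    by_contra hca
    have hca' : c a ≠ 0 := hca
    have h1 : Q.coeff (r a) = c a := by
      rw [hQ, MvPolynomial.coeff_sum, Finset.sum_eq_single a]
      · rw [MvPolynomial.coeff_monomial, if_pos rfl]
      · intro a' _ hne'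
        rw [MvPolynomial.coeff_monomial]
        split_ifs with h2
        · by_contra hca2
          apply hne'
          obtain ⟨h3, h4⟩ := hc a' hca2
          obtain ⟨h5, h6⟩ := hc a hca'
          have h7 : ∀ l, a'.1 (some (Sum.inr l)) = a.1 (some (Sum.inr l)) := by
            have h8 : ∑ l, (((a'.1 (some (Sum.inr l)) : ℤ) - (a.1 (some (Sum.inr l)) : ℤ) : ℤ) : ℝ) * lam l =
                Real.log (1 : ℕ) - Real.log (1 : ℕ) := by
              rw [sub_self]
              have h9 : ∑ l, (((a'.1 (some (Sum.inr l)) : ℤ) - (a.1 (some (Sum.inr l)) : ℤ) : ℤ) : ℝ) * lam l =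
                  ∑ l, (a'.1 (some (Sum.inr l)) : ℝ) * lam l - ∑ l, (a.1 (some (Sum.inr l)) : ℝ) * lam l := by
                rw [← Finset.sum_sub_distrib]
                refine Finset.sum_congr rfl fun l _ => ?_
                push_cast
                ring
              rw [h9, h4, h6, sub_self]
            intro l
            have h10 : (a'.1 (some (Sum.inr l)) : ℤ) - (a.1 (some (Sum.inr l)) : ℤ) = 0 :=
              congrFun (hlam _ 1 1 one_ne_zero one_ne_zero h8) l
            omega
          refine Subtype.ext (Finsupp.ext fun o => ?_)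
          rcases o with _ | (i | l)
          · exact h3.trans h5.symm
          · rw [← hr' a' i, ← hr' a i, h2]
          · exact h7 l
        · rfl
      · intro h2
        exact absurd (Finset.mem_univ a) h2
    rw [hQ0, MvPolynomial.coeff_zero] at h1
    exact hca' h1.symm
  · filter_upwards [h0, eventually_ge_atTop c0] with s hs hsc
    rw [vals, hev] at hs
    rw [← hs, ← Finset.sum_coe_sort P'.support]
    refine Finset.sum_congr rfl fun a _ => ?_
    rw [(LS_aeval g s (fun y => hc0 y s hsc) _).2]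
    congr 1
    rw [Fintype.prod_option, Fintype.prod_sum_type]
    have h2 : ((Real.exp ((∑ l, (a.1 (some (Sum.inr l)) : ℝ) * lam l) * s) : ℝ) : ℂ) =
        ∏ l, ((Real.exp (lam l * s) : ℝ) : ℂ) ^ a.1 (some (Sum.inr l)) := by
      rw [Finset.sum_mul, Real.exp_sum, Complex.ofReal_prod]
      refine Finset.prod_congr rfl fun l _ => ?_
      rw [← Complex.ofReal_pow, ← Real.exp_nat_mul]
      congr 2
      ring
    rw [h2]
    simp only [Option.elim, Sum.elim_inl, Sum.elim_inr]
    ring

/-- values of polynomials at analytic functions are analytic -/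
theorem analyticAt_eval {σ : Type} (f : σ → ℂ → ℂ) (t : ℂ) (hf : ∀ i, AnalyticAt ℂ (f i) t)
    (P : MvPolynomial (Option σ) ℂ) :
    AnalyticAt ℂ (fun t => MvPolynomial.eval (fun o : Option σ => o.elim t fun y => f y t) P) t := by
  induction P using MvPolynomial.induction_on with
  | C a =>
    simp only [MvPolynomial.eval_C]
    exact analyticAt_const
  | add P Q hP hQ =>
    simp only [map_add]
    exact hP.add hQ
  | mul_X P o hP =>
    simp only [map_mul, MvPolynomial.eval_X]
    rcases o with _ | i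
    · exact hP.mul analyticAt_id
    · exact hP.mul (hf i)

/-- local independence from independence on a half-line -/
theorem locInd_of {σ ι : Type} (f : σ → ℂ → ℂ) (v : ℝ → ι → ℂ)
    (hv : ∀ P : MvPolynomial ι ℂ, (∀ᶠ s : ℝ in atTop, MvPolynomial.aeval (v s) P = 0) → P = 0)
    (e : Option σ → ι) (he : Function.Injective e) (hfe : ∀ᶠ s : ℝ in atTop, ∀ o : Option σ,
      (o.elim (s : ℂ) fun y => f y s) = v s (e o))
    (U : Set ℂ) (hUc : IsPreconnected U) (hU : ∀ᶠ s : ℝ in atTop, (s : ℂ) ∈ U)
    (han : ∀ i, AnalyticOnNhd ℂ (f i) U) (t : ℂ) (ht : t ∈ U) : Y124.LocInd f t := by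
  intro P hP
  have h1 : AnalyticOnNhd ℂ (fun t => MvPolynomial.eval (fun o : Option σ => o.elim t fun y => f y t) P) U :=
    fun z hz => analyticAt_eval f z (fun i => han i z hz) P
  have h2 := h1.eqOn_zero_of_preconnected_of_eventuallyEq_zero hUc ht hP
  refine MvPolynomial.rename_injective e he ?_
  rw [map_zero]
  refine hv _ ?_
  filter_upwards [hfe, hU] with s hs hsU
  have h3 := h2 hsU
  simp only [Pi.zero_apply] at h3
  rw [MvPolynomial.aeval_rename, ← h3, MvPolynomial.aeval_eq_eval]
  have h4 : v s ∘ e = fun o : Option σ => o.elim (s : ℂ) fun y => f y s := by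
    funext o
    exact (hs o).symm
  rw [h4]

end Pool.Agent.Y922.ZF
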