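import Mathlib

/-!
# Invariant ideals of a difference ring `K[X_j]` with `X_j ↦ X_j + b_j`
-/

set_option autoImplicit false

open Finset

namespace Pool.Agent.Y922.ZF

variable {K : Type} [Field K] {ι : Type} [Fintype ι]

/-- the degree drops by `k` from `D` -/
def LD (D k : ℕ) (P : MvPolynomial ι K) : Prop := ∀ m, P.coeff m ≠ 0 → m.degree + k ≤ D

theorem LD.mono {D k D' k' : ℕ} {P : MvPolynomial ι K} (h : LD D k P) (h' : D + k' ≤ D' + k) : LD D' k' P :=
  fun m hm => by
    have := h m hm
    omega

theorem LD.add {D k : ℕ} {P Q : MvPolynomial ι K} (hP : LD D k P) (hQ : LD D k Q) : LD D k (P + Q) := by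
  intro m hm
  rw [MvPolynomial.coeff_add] at hm
  by_cases h : P.coeff m = 0
  · rw [h, zero_add] at hm
    exact hQ m hm
  · exact hP m h

theorem LD.zero (D k : ℕ) : LD D k (0 : MvPolynomial ι K) := fun m hm => absurd (MvPolynomial.coeff_zero m) hm

theorem LD.C_mul {D k : ℕ} {P : MvPolynomial ι K} (a : K) (hP : LD D k P) : LD D k (MvPolynomial.C a * P) := by
  intro m hm
  rw [MvPolynomial.coeff_C_mul] at hm
  exact hP m (right_ne_zero_of_mul hm)

theorem LD.X_mul {D k : ℕ} {P : MvPolynomial ι K} (i : ι) (hP : LD D k P) : LD (D + 1) k (MvPolynomial.X i * P) := by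
  classical
  intro m hm
  rw [MvPolynomial.coeff_X_mul'] at hm
  split_ifs at hm with hi
  · have h1 := hP _ hm
    have h2 : m - Finsupp.single i 1 + Finsupp.single i 1 = m := by
      refine tsub_add_cancel_of_le ?_
      rw [Finsupp.single_le_iff]
      exact Nat.one_le_iff_ne_zero.2 (Finsupp.mem_support_iff.1 hi)
    have h3 : (m - Finsupp.single i 1).degree + 1 = m.degree := by
      conv_rhs => rw [← h2]
      rw [map_add, Finsupp.degree_single]
    omega
  · exact absurd rfl hm

theorem LD.sum {D k : ℕ} {J : Type} (s : Finset J) {P : J → MvPolynomial ι K} (hP : ∀ j ∈ s, LD D k (P j)) :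
    LD D k (∑ j ∈ s, P j) := by
  classical
  induction s using Finset.induction_on with
  | empty => simpa using LD.zero D k
  | insert j s hj ih =>
    rw [Finset.sum_insert hj]
    exact (hP j (Finset.mem_insert_self _ _)).add (ih fun i hi => hP i (Finset.mem_insert_of_mem hi))

/-- the translation -/
noncomputable def tau (b : ι → K) : MvPolynomial ι K →ₐ[K] MvPolynomial ι K :=
  MvPolynomial.aeval fun j => MvPolynomial.X j + MvPolynomial.C (b j)

/-- the second order remainder -/
noncomputable def E2 (b : ι → K) (P : MvPolynomial ι K) : MvPolynomial ι K :=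
  tau b P - P - ∑ j, MvPolynomial.C (b j) * MvPolynomial.pderiv j P

theorem tau_mon (b : ι → K) : ∀ (N : ℕ) (m : ι →₀ ℕ) (a : K), m.degree = N →
    LD N 1 (tau b (MvPolynomial.monomial m a) - MvPolynomial.monomial m a) ∧
      LD N 2 (E2 b (MvPolynomial.monomial m a)) := by
  classical
  intro N
  induction N with
  | zero =>
    intro m a hm
    have hm0 : m = 0 := (Finsupp.degree_eq_zero_iff m).1 hm
    subst hm0
    have h1 : tau b (MvPolynomial.monomial 0 a) = MvPolynomial.monomial 0 a := by
      rw [← MvPolynomial.C_apply, tau, MvPolynomial.aeval_C]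
      rfl
    refine ⟨?_, ?_⟩
    · rw [h1, sub_self]
      exact LD.zero _ _
    · rw [E2, h1, sub_self, zero_sub]
      have h2 : ∑ j, MvPolynomial.C (b j) * MvPolynomial.pderiv j (MvPolynomial.monomial (0 : ι →₀ ℕ) a) = 0 := by
        refine Finset.sum_eq_zero fun j _ => ?_
        rw [← MvPolynomial.C_apply, MvPolynomial.pderiv_C, mul_zero]
      rw [h2, neg_zero]
      exact LD.zero _ _
  | succ N ih =>
    intro m a hm
    have hm0 : m ≠ 0 := by
      rintro rfl
      simp at hm
    obtain ⟨i, hi⟩ := Finsupp.ne_iff.1 hm0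
    simp only [Finsupp.coe_zero, Pi.zero_apply] at hi
    set m' := m - Finsupp.single i 1 with hm'
    have h2 : m' + Finsupp.single i 1 = m := by
      refine tsub_add_cancel_of_le ?_
      rw [Finsupp.single_le_iff]
      exact Nat.one_le_iff_ne_zero.2 hi
    have h3 : m'.degree = N := by
      have : (m' + Finsupp.single i 1).degree = N + 1 := by rw [h2, hm]
      rw [map_add, Finsupp.degree_single] at this
      omega
    set Q : MvPolynomial ι K := MvPolynomial.monomial m' a with hQ
    have h4 : MvPolynomial.monomial m a = MvPolynomial.X i * Q := by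
      rw [hQ, ← h2, add_comm m', MvPolynomial.X, MvPolynomial.monomial_mul, one_mul]
    have hQ0 : LD N 0 Q := by
      intro n hn
      rw [hQ, MvPolynomial.coeff_monomial] at hn
      split_ifs at hn with h5
      · rw [← h5, h3, add_zero]
      · exact absurd rfl hn
    obtain ⟨h5, h6⟩ := ih m' a h3
    have h7 : tau b (MvPolynomial.X i * Q) = (MvPolynomial.X i + MvPolynomial.C (b i)) * tau b Q := by
      rw [map_mul]
      congr 1
      rw [tau, MvPolynomial.aeval_X]
    refine ⟨?_, ?_⟩
    · rw [h4, h7]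
      have h8 : (MvPolynomial.X i + MvPolynomial.C (b i)) * tau b Q - MvPolynomial.X i * Q =
          MvPolynomial.X i * (tau b Q - Q) + MvPolynomial.C (b i) * (tau b Q - Q) + MvPolynomial.C (b i) * Q := by
        ring
      rw [h8]
      exact ((h5.X_mul i).add ((h5.C_mul (b i)).mono (by omega))).add ((hQ0.C_mul (b i)).mono (by omega))
    · rw [h4, E2, h7]
      have h8 : ∑ j, MvPolynomial.C (b j) * MvPolynomial.pderiv j (MvPolynomial.X i * Q) =
          MvPolynomial.X i * ∑ j, MvPolynomial.C (b j) * MvPolynomial.pderiv j Q + MvPolynomial.C (b i) * Q := by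
        rw [Finset.mul_sum]
        have h9 : ∀ j, MvPolynomial.C (b j) * MvPolynomial.pderiv j (MvPolynomial.X i * Q) =
            MvPolynomial.X i * (MvPolynomial.C (b j) * MvPolynomial.pderiv j Q) +
              (if j = i then MvPolynomial.C (b i) * Q else 0) := by
          intro j
          rw [MvPolynomial.pderiv_mul, MvPolynomial.pderiv_X]
          by_cases hji : j = i
          · subst hji
            simp
            ring
          · rw [if_neg hji, Pi.single_apply, if_neg (fun h => hji h.symm)]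
            ring
        simp_rw [h9]
        rw [Finset.sum_add_distrib, Finset.sum_ite_eq' Finset.univ i]
        simp
      rw [h8]
      have h9 : (MvPolynomial.X i + MvPolynomial.C (b i)) * tau b Q - MvPolynomial.X i * Q -
          (MvPolynomial.X i * ∑ j, MvPolynomial.C (b j) * MvPolynomial.pderiv j Q + MvPolynomial.C (b i) * Q) =
          MvPolynomial.X i * E2 b Q + MvPolynomial.C (b i) * (tau b Q - Q) := by
        rw [E2]
        ring
      rw [h9]
      exact (h6.X_mul i).add ((h5.C_mul (b i)).mono (by omega))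

theorem E2_sum (b : ι → K) {J : Type} (s : Finset J) (P : J → MvPolynomial ι K) :
    E2 b (∑ j ∈ s, P j) = ∑ j ∈ s, E2 b (P j) := by
  classical
  simp only [E2]
  rw [Finset.sum_sub_distrib, Finset.sum_sub_distrib, map_sum]
  congr 1
  rw [Finset.sum_comm]
  refine Finset.sum_congr rfl fun i _ => ?_
  rw [map_sum, Finset.mul_sum]

theorem tau_LD (b : ι → K) (D : ℕ) (P : MvPolynomial ι K) (hP : LD D 0 P) :
    LD D 1 (tau b P - P) ∧ LD D 2 (E2 b P) := by
  classical
  have h1 : P = ∑ m ∈ P.support, MvPolynomial.monomial m (P.coeff m) := MvPolynomial.as_sum P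
  have h2 : ∀ m ∈ P.support, m.degree ≤ D := fun m hm => by
    have := hP m (MvPolynomial.mem_support_iff.1 hm)
    omega
  refine ⟨?_, ?_⟩
  · have h3 : tau b P - P = ∑ m ∈ P.support, (tau b (MvPolynomial.monomial m (P.coeff m)) -
        MvPolynomial.monomial m (P.coeff m)) := by
      rw [Finset.sum_sub_distrib, ← map_sum, ← h1]
    rw [h3]
    exact LD.sum _ fun m hm => ((tau_mon b _ m _ rfl).1).mono (by have := h2 m hm; omega)
  · have h3 : E2 b P = ∑ m ∈ P.support, E2 b (MvPolynomial.monomial m (P.coeff m)) := by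
      rw [← E2_sum, ← h1]
    rw [h3]
    exact LD.sum _ fun m hm => ((tau_mon b _ m _ rfl).2).mono (by have := h2 m hm; omega)

/-- the difference operator -/
noncomputable def sh (σ : K →+* K) (b : ι → K) (P : MvPolynomial ι K) : MvPolynomial ι K :=
  tau b (MvPolynomial.map σ P)

theorem sh_top (σ : K →+* K) (b : ι → K) (D : ℕ) (P : MvPolynomial ι K) (hP : LD D 0 P) (m : ι →₀ ℕ)
    (hm : m.degree = D) : (sh σ b P).coeff m = σ (P.coeff m) := by
  have h1 : LD D 0 (MvPolynomial.map σ P) := by
    intro n hn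
    rw [MvPolynomial.coeff_map] at hn
    exact hP n fun h => hn (by rw [h, map_zero])
  have h2 := (tau_LD b D _ h1).1
  have h3 : (tau b (MvPolynomial.map σ P) - MvPolynomial.map σ P).coeff m = 0 := by
    by_contra hne
    have := h2 m hne
    omega
  rw [MvPolynomial.coeff_sub, MvPolynomial.coeff_map, sub_eq_zero] at h3
  exact h3

theorem sh_next (σ : K →+* K) (b : ι → K) (D : ℕ) (P : MvPolynomial ι K) (hP : LD D 0 P) (m : ι →₀ ℕ)
    (hm : m.degree + 1 = D) : (sh σ b P).coeff m =
      σ (P.coeff m) + ∑ j, b j * (σ (P.coeff (m + Finsupp.single j 1)) * ((m j : K) + 1)) := by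
  classical
  have h1 : LD D 0 (MvPolynomial.map σ P) := by
    intro n hn
    rw [MvPolynomial.coeff_map] at hn
    exact hP n fun h => hn (by rw [h, map_zero])
  have h2 := (tau_LD b D _ h1).2
  have h3 : (E2 b (MvPolynomial.map σ P)).coeff m = 0 := by
    by_contra hne
    have := h2 m hne
    omega
  rw [E2, MvPolynomial.coeff_sub, MvPolynomial.coeff_sub, MvPolynomial.coeff_map, MvPolynomial.coeff_sum,
    sub_eq_zero, sub_eq_iff_eq_add] at h3
  rw [sh, h3, add_comm]
  congr 1
  refine Finset.sum_congr rfl fun j _ => ?_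
  rw [MvPolynomial.coeff_C_mul, MvPolynomial.coeff_pderiv, MvPolynomial.coeff_map]

theorem LD_totalDegree (P : MvPolynomial ι K) : LD P.totalDegree 0 P := by
  intro m hm
  have h1 := MvPolynomial.le_totalDegree (MvPolynomial.mem_support_iff.2 hm)
  have h2 : (m.sum fun _ e => e) = m.degree := rfl
  omega

theorem totalDegree_le_of_LD {D : ℕ} {P : MvPolynomial ι K} (h : LD D 0 P) : P.totalDegree ≤ D := by
  rw [MvPolynomial.totalDegree]
  refine Finset.sup_le fun m hm => ?_
  have h1 := h m (MvPolynomial.mem_support_iff.1 hm)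
  have h2 : (m.sum fun _ e => e) = m.degree := rfl
  omega

/-- An invariant proper ideal is zero. -/
theorem ideal_zero [CharZero K] (σ : K →+* K) (b : ι → K)
    (hNT : ∀ c : ι → K, (∀ j, σ (c j) = c j) → ∀ q : K, σ q - q = ∑ j, c j * b j → c = 0)
    (I : Ideal (MvPolynomial ι K)) (hI : ∀ P ∈ I, sh σ b P ∈ I) (h1 : (1 : MvPolynomial ι K) ∉ I) :
    ∀ P ∈ I, P = 0 := by
  classical
  by_contra hcon
  push Not at hcon
  have hex : ∃ d : ℕ, ∃ P ∈ I, P ≠ 0 ∧ P.totalDegree = d := by
    obtain ⟨P, hP, hP0⟩ := hcon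
    exact ⟨_, P, hP, hP0, rfl⟩
  set d := Nat.find hex with hd
  have hex2 : ∃ N : ℕ, ∃ P ∈ I, P ≠ 0 ∧ P.totalDegree = d ∧ (P.support.filter fun m => m.degree = d).card = N := by
    obtain ⟨P, hP, hP0, hPd⟩ := Nat.find_spec hex
    exact ⟨_, P, hP, hP0, hPd, rfl⟩
  obtain ⟨P, hP, hP0, hPd, hPN⟩ := Nat.find_spec hex2
  have hmin1 : ∀ Q ∈ I, Q ≠ 0 → d ≤ Q.totalDegree := fun Q hQ hQ0 => Nat.find_min' hex ⟨Q, hQ, hQ0, rfl⟩
  have hmin2 : ∀ Q ∈ I, Q ≠ 0 → Q.totalDegree = d →
      (P.support.filter fun m => m.degree = d).card ≤ (Q.support.filter fun m => m.degree = d).card := by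
    intro Q hQ hQ0 hQd
    rw [hPN]
    exact Nat.find_min' hex2 ⟨Q, hQ, hQ0, hQd, rfl⟩
  -- the degree is positive
  have hdpos : d ≠ 0 := by
    intro h0
    rw [h0] at hPd
    have h2 := MvPolynomial.totalDegree_eq_zero_iff_eq_C.1 hPd
    have h3 : P.coeff 0 ≠ 0 := fun h => hP0 (by rw [h2, h, map_zero])
    apply h1
    have h4 : (1 : MvPolynomial ι K) = MvPolynomial.C (P.coeff 0)⁻¹ * P := by
      conv_rhs => rw [h2, MvPolynomial.coeff_C, if_pos rfl]
      rw [← map_mul, inv_mul_cancel₀ h3, map_one]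
    rw [h4]
    exact I.mul_mem_left _ hP
  -- a leading monomial
  obtain ⟨M, hM, hMd⟩ : ∃ M, P.coeff M ≠ 0 ∧ M.degree = d := by
    have h2 : P.support.Nonempty := MvPolynomial.support_nonempty.2 hP0
    obtain ⟨M, hM, hMd⟩ := Finset.exists_mem_eq_sup P.support h2 fun m => m.sum fun _ e => e
    refine ⟨M, MvPolynomial.mem_support_iff.1 hM, ?_⟩
    have h3 : (M.sum fun _ e => e) = M.degree := rfl
    rw [← h3, ← hMd, ← hPd]
    rfl
  set P1 := MvPolynomial.C (P.coeff M)⁻¹ * P with hP1
  have hP1I : P1 ∈ I := I.mul_mem_left _ hP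
  have hP1c : ∀ m, P1.coeff m = (P.coeff M)⁻¹ * P.coeff m := fun m => by rw [hP1, MvPolynomial.coeff_C_mul]
  have hP1M : P1.coeff M = 1 := by rw [hP1c, inv_mul_cancel₀ hM]
  have hP1LD : LD d 0 P1 := by
    have := (LD_totalDegree P).C_mul (P.coeff M)⁻¹
    rw [hPd] at this
    exact this
  set Q := sh σ b P1 - P1 with hQ
  have hQI : Q ∈ I := I.sub_mem (hI _ hP1I) hP1I
  have hQtop : ∀ m, m.degree = d → Q.coeff m = σ (P1.coeff m) - P1.coeff m := by
    intro m hm
    rw [hQ, MvPolynomial.coeff_sub, sh_top σ b d P1 hP1LD m hm]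
  have hshLD : LD d 0 (sh σ b P1) := by
    have h2 : LD d 0 (MvPolynomial.map σ P1) := by
      intro n hn
      rw [MvPolynomial.coeff_map] at hn
      exact hP1LD n fun h => hn (by rw [h, map_zero])
    have h3 := ((tau_LD b d _ h2).1).mono (D' := d) (k' := 0) (by omega)
    have h4 := h3.add h2
    rw [sub_add_cancel] at h4
    exact h4
  have hQ0 : Q = 0 := by
    by_contra hne
    have h2 : LD d 0 Q := by
      have := hshLD.add (hP1LD.C_mul (-1))
      have h3 : sh σ b P1 + MvPolynomial.C (-1) * P1 = Q := by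
        rw [hQ, map_neg, map_one]
        ring
      rw [h3] at this
      exact this
    have h3 : Q.totalDegree = d := le_antisymm (totalDegree_le_of_LD h2) (hmin1 Q hQI hne)
    have h4 := hmin2 Q hQI hne h3
    have h5 : (Q.support.filter fun m => m.degree = d) ⊆ (P.support.filter fun m => m.degree = d).erase M := by
      intro m hm
      obtain ⟨h6, h7⟩ := Finset.mem_filter.1 hm
      have h8 := MvPolynomial.mem_support_iff.1 h6
      rw [hQtop m h7] at h8
      refine Finset.mem_erase.2 ⟨?_, Finset.mem_filter.2 ⟨?_, h7⟩⟩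
      · rintro rfl
        rw [hP1M, map_one, sub_self] at h8
        exact h8 rfl
      · rw [MvPolynomial.mem_support_iff]
        intro h9
        rw [hP1c, h9, mul_zero, map_zero, sub_self] at h8
        exact h8 rfl
    have h6 := Finset.card_le_card h5
    have h7 : M ∈ P.support.filter fun m => m.degree = d :=
      Finset.mem_filter.2 ⟨MvPolynomial.mem_support_iff.2 hM, hMd⟩
    rw [Finset.card_erase_of_mem h7] at h6
    have h8 := Finset.card_pos.2 ⟨M, h7⟩
    omega
  have hinv : sh σ b P1 = P1 := sub_eq_zero.1 hQ0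
  have hMne : M ≠ 0 := by
    rintro rfl
    rw [map_zero] at hMd
    exact hdpos hMd.symm
  obtain ⟨i, hi⟩ := Finsupp.ne_iff.1 hMne
  simp only [Finsupp.coe_zero, Pi.zero_apply] at hi
  set m := M - Finsupp.single i 1 with hm
  have hmM : m + Finsupp.single i 1 = M := by
    refine tsub_add_cancel_of_le ?_
    rw [Finsupp.single_le_iff]
    exact Nat.one_le_iff_ne_zero.2 hi
  have hmd : m.degree + 1 = d := by
    have : (m + Finsupp.single i 1).degree = d := by rw [hmM, hMd]
    rw [map_add, Finsupp.degree_single] at this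
    exact this
  have htopinv : ∀ n, n.degree = d → σ (P1.coeff n) = P1.coeff n := by
    intro n hn
    have h2 := sh_top σ b d P1 hP1LD n hn
    rw [hinv] at h2
    exact h2.symm
  have h2 := sh_next σ b d P1 hP1LD m hmd
  rw [hinv] at h2
  have hdeg : ∀ j, (m + Finsupp.single j 1).degree = d := fun j => by
    rw [map_add, Finsupp.degree_single, hmd]
  have h3 := hNT (fun j => -(P1.coeff (m + Finsupp.single j 1) * ((m j : K) + 1))) (fun j => by
    rw [map_neg, map_mul, htopinv _ (hdeg j), map_add, map_natCast, map_one]) (P1.coeff m) (by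
      have h4 : σ (P1.coeff m) - P1.coeff m =
          -∑ j, b j * (σ (P1.coeff (m + Finsupp.single j 1)) * ((m j : K) + 1)) := by
        conv_lhs => rw [h2]
        rw [← h2]
        rw [eq_neg_iff_add_eq_zero]
        have : P1.coeff m = σ (P1.coeff m) + ∑ j, b j * (σ (P1.coeff (m + Finsupp.single j 1)) * ((m j : K) + 1)) := h2
        linear_combination -this
      rw [h4, ← Finset.sum_neg_distrib]
      refine Finset.sum_congr rfl fun j _ => ?_
      rw [htopinv _ (hdeg j)]
      ring)
  have h4 := congrFun h3 i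
  simp only [Pi.zero_apply] at h4
  rw [hmM, hP1M, one_mul, neg_eq_zero] at h4
  have h5 : ((m i + 1 : ℕ) : K) = 0 := by
    push_cast
    exact h4
  exact absurd (Nat.cast_eq_zero.1 h5) (by omega)

end Pool.Agent.Y922.ZF
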