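import Pool.Agent.Y922.ZF.RatM

/-!
# Invariant ideals of the difference ring `ℂ(s)[X_j]` with `X_j ↦ m_j X_j + b_j`
-/

set_option autoImplicit false

open Finset

namespace Pool.Agent.Y922.ZF

variable {ι : Type} [Fintype ι]

/-- scaling of the variables by constants -/
noncomputable def scl (z : ι → ℂ) : MvPolynomial ι KK →ₐ[KK] MvPolynomial ι KK :=
  MvPolynomial.aeval fun j => MvPolynomial.C (io (Polynomial.C (z j))) * MvPolynomial.X j

/-- monomials in the multipliers -/
noncomputable def zp (z : ι → ℂ) (m : ι →₀ ℕ) : ℂ := ∏ j, z j ^ m j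

theorem zp_ne {z : ι → ℂ} (hz : ∀ j, z j ≠ 0) (m : ι →₀ ℕ) : zp z m ≠ 0 :=
  Finset.prod_ne_zero_iff.2 fun j _ => pow_ne_zero _ (hz j)

theorem zp_single [DecidableEq ι] (z : ι → ℂ) (m : ι →₀ ℕ) (j : ι) :
    zp z (m + Finsupp.single j 1) = zp z m * z j := by
  rw [zp, zp]
  simp only [Finsupp.add_apply, pow_add, Finset.prod_mul_distrib]
  congr 1
  rw [Finset.prod_eq_single j]
  · simp
  · intro i _ hij
    rw [Finsupp.single_eq_of_ne hij, pow_zero]
  · intro h
    exact absurd (Finset.mem_univ j) h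

theorem scl_coeff (z : ι → ℂ) (P : MvPolynomial ι KK) (m : ι →₀ ℕ) :
    (scl z P).coeff m = io (Polynomial.C (zp z m)) * P.coeff m := by
  classical
  induction P using MvPolynomial.induction_on' with
  | monomial n a =>
    rw [scl, MvPolynomial.aeval_monomial, Finsupp.prod_fintype _ _ (fun _ => pow_zero _)]
    simp only [mul_pow, Finset.prod_mul_distrib]
    have h1 : ∏ j, (MvPolynomial.X j : MvPolynomial ι KK) ^ n j = MvPolynomial.monomial n 1 := by
      rw [MvPolynomial.monomial_eq, Finsupp.prod_fintype _ _ (fun _ => pow_zero _), map_one, one_mul]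
    have h2 : ∏ j, (MvPolynomial.C (io (Polynomial.C (z j))) : MvPolynomial ι KK) ^ n j =
        MvPolynomial.C (io (Polynomial.C (zp z n))) := by
      rw [zp, map_prod, map_prod, map_prod]
      refine Finset.prod_congr rfl fun j _ => ?_
      rw [map_pow, map_pow, map_pow]
    rw [h1, h2, MvPolynomial.algebraMap_eq, ← mul_assoc, ← map_mul, MvPolynomial.C_mul_monomial, mul_one,
      MvPolynomial.coeff_monomial, MvPolynomial.coeff_monomial]
    split_ifs with h3
    · rw [h3, mul_comm]
    · rw [mul_zero]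
  | add P Q hP hQ =>
    rw [map_add, MvPolynomial.coeff_add, MvPolynomial.coeff_add, hP, hQ, mul_add]

/-- the difference operator -/
noncomputable def shM (z : ι → ℂ) (b : ι → KK) (P : MvPolynomial ι KK) : MvPolynomial ι KK :=
  tau (fun j => b j / io (Polynomial.C (z j))) (scl z (MvPolynomial.map sg P))

theorem scl_LD (z : ι → ℂ) {D k : ℕ} {P : MvPolynomial ι KK} (hP : LD D k P) : LD D k (scl z P) := by
  intro m hm
  rw [scl_coeff] at hm
  exact hP m (right_ne_zero_of_mul hm)

omit [Fintype ι] in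
theorem map_LD {D k : ℕ} {P : MvPolynomial ι KK} (hP : LD D k P) : LD D k (MvPolynomial.map sg P) := by
  intro n hn
  rw [MvPolynomial.coeff_map] at hn
  exact hP n fun h => hn (by rw [h, map_zero])

theorem shM_top (z : ι → ℂ) (b : ι → KK) (D : ℕ) (P : MvPolynomial ι KK) (hP : LD D 0 P) (m : ι →₀ ℕ)
    (hm : m.degree = D) : (shM z b P).coeff m = io (Polynomial.C (zp z m)) * sg (P.coeff m) := by
  have h2 := (tau_LD (fun j => b j / io (Polynomial.C (z j))) D _ (scl_LD z (map_LD hP))).1
  have h3 : (tau (fun j => b j / io (Polynomial.C (z j))) (scl z (MvPolynomial.map sg P)) -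
      scl z (MvPolynomial.map sg P)).coeff m = 0 := by
    by_contra hne
    have := h2 m hne
    omega
  rw [MvPolynomial.coeff_sub, scl_coeff, MvPolynomial.coeff_map, sub_eq_zero] at h3
  exact h3

theorem shM_next (z : ι → ℂ) (hz : ∀ j, z j ≠ 0) (b : ι → KK) (D : ℕ) (P : MvPolynomial ι KK) (hP : LD D 0 P)
    (m : ι →₀ ℕ) (hm : m.degree + 1 = D) : (shM z b P).coeff m = io (Polynomial.C (zp z m)) *
      (sg (P.coeff m) + ∑ j, b j * (sg (P.coeff (m + Finsupp.single j 1)) * ((m j : KK) + 1))) := by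
  classical
  have h2 := (tau_LD (fun j => b j / io (Polynomial.C (z j))) D _ (scl_LD z (map_LD hP))).2
  have h3 : (E2 (fun j => b j / io (Polynomial.C (z j))) (scl z (MvPolynomial.map sg P))).coeff m = 0 := by
    by_contra hne
    have := h2 m hne
    omega
  rw [E2, MvPolynomial.coeff_sub, MvPolynomial.coeff_sub, scl_coeff, MvPolynomial.coeff_map, MvPolynomial.coeff_sum,
    sub_eq_zero, sub_eq_iff_eq_add] at h3
  rw [shM, h3, add_comm, mul_add]
  congr 1
  rw [Finset.mul_sum]
  refine Finset.sum_congr rfl fun j _ => ?_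
  rw [MvPolynomial.coeff_C_mul, MvPolynomial.coeff_pderiv, scl_coeff, MvPolynomial.coeff_map, zp_single, map_mul,
    map_mul]
  have h4 : io (Polynomial.C (z j)) ≠ 0 := io_ne (Polynomial.C_ne_zero.2 (hz j))
  field_simp

/-- An invariant proper ideal is zero. -/
theorem ideal_zeroM (z : ι → ℂ) (hz : ∀ j, z j ≠ 0) (b : ι → KK)
    (hNT : ∀ (μ : ℂ) (c : ι → KK), (∀ j, sg (c j) = c j) → (∀ j, c j ≠ 0 → z j = μ) → ∀ q : KK,
      sg q - io (Polynomial.C μ) * q = ∑ j, c j * b j → c = 0)
    (I : Ideal (MvPolynomial ι KK)) (hI : ∀ P ∈ I, shM z b P ∈ I) (h1 : (1 : MvPolynomial ι KK) ∉ I) :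
    ∀ P ∈ I, P = 0 := by
  classical
  have : CharZero KK := charZero_of_injective_algebraMap (R := Polynomial ℂ) io_inj
  by_contra hcon
  push Not at hcon
  have hex : ∃ d : ℕ, ∃ P ∈ I, P ≠ 0 ∧ P.totalDegree = d := by
    obtain ⟨P, hP, hP0⟩ := hcon
    exact ⟨_, P, hP, hP0, rfl⟩
  set d := Nat.find hex with hd
  have hex2 : ∃ N : ℕ, ∃ P ∈ I, P ≠ 0 ∧ P.totalDegree = d ∧ (P.support.filter fun m => m.degree = d).card = N := by
    obtain ⟨P, hP, hP0, hPd⟩ := Nat.find_spec hex
    exact ⟨_, P, hP, hP0, hPd, rfl⟩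
  obtain ⟨P, hP, hP0, hPd, hPN⟩ := Nat.find_spec hex2
  have hmin1 : ∀ Q ∈ I, Q ≠ 0 → d ≤ Q.totalDegree := fun Q hQ hQ0 => Nat.find_min' hex ⟨Q, hQ, hQ0, rfl⟩
  have hmin2 : ∀ Q ∈ I, Q ≠ 0 → Q.totalDegree = d →
      (P.support.filter fun m => m.degree = d).card ≤ (Q.support.filter fun m => m.degree = d).card := by
    intro Q hQ hQ0 hQd
    rw [hPN]
    exact Nat.find_min' hex2 ⟨Q, hQ, hQ0, hQd, rfl⟩
  -- the degree is positive
  have hdpos : d ≠ 0 := by
    intro h0
    rw [h0] at hPd
    have h2 := MvPolynomial.totalDegree_eq_zero_iff_eq_C.1 hPd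
    have h3 : P.coeff 0 ≠ 0 := fun h => hP0 (by rw [h2, h, map_zero])
    apply h1
    have h4 : (1 : MvPolynomial ι KK) = MvPolynomial.C (P.coeff 0)⁻¹ * P := by
      conv_rhs => rw [h2, MvPolynomial.coeff_C, if_pos rfl]
      rw [← map_mul, inv_mul_cancel₀ h3, map_one]
    rw [h4]
    exact I.mul_mem_left _ hP
  -- a leading monomial
  obtain ⟨M, hM, hMd⟩ : ∃ M, P.coeff M ≠ 0 ∧ M.degree = d := by
    have h2 : P.support.Nonempty := MvPolynomial.support_nonempty.2 hP0
    obtain ⟨M, hM, hMd⟩ := Finset.exists_mem_eq_sup P.support h2 fun m => m.sum fun _ e => e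
    refine ⟨M, MvPolynomial.mem_support_iff.1 hM, ?_⟩
    have h3 : (M.sum fun _ e => e) = M.degree := rfl
    rw [← h3, ← hMd, ← hPd]
    rfl
  set P1 := MvPolynomial.C (P.coeff M)⁻¹ * P with hP1
  have hP1I : P1 ∈ I := I.mul_mem_left _ hP
  have hP1c : ∀ m, P1.coeff m = (P.coeff M)⁻¹ * P.coeff m := fun m => by rw [hP1, MvPolynomial.coeff_C_mul]
  have hP1M : P1.coeff M = 1 := by rw [hP1c, inv_mul_cancel₀ hM]
  have hP1LD : LD d 0 P1 := by
    have := (LD_totalDegree P).C_mul (P.coeff M)⁻¹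
    rw [hPd] at this
    exact this
  set μ0 : ℂ := zp z M with hμ0
  have hμ0' : μ0 ≠ 0 := zp_ne hz M
  set κ : KK := io (Polynomial.C μ0) with hκ
  set Q := shM z b P1 - MvPolynomial.C κ * P1 with hQ
  have hQI : Q ∈ I := I.sub_mem (hI _ hP1I) (I.mul_mem_left _ hP1I)
  have hQtop : ∀ m, m.degree = d → Q.coeff m = io (Polynomial.C (zp z m)) * sg (P1.coeff m) - κ * P1.coeff m := by
    intro m hm
    rw [hQ, MvPolynomial.coeff_sub, shM_top z b d P1 hP1LD m hm, MvPolynomial.coeff_C_mul m κ P1]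
  have hshLD : LD d 0 (shM z b P1) := by
    have h2 : LD d 0 (scl z (MvPolynomial.map sg P1)) := scl_LD z (map_LD hP1LD)
    have h3 := ((tau_LD (fun j => b j / io (Polynomial.C (z j))) d _ h2).1).mono (D' := d) (k' := 0) (by omega)
    have h4 := h3.add h2
    rw [sub_add_cancel] at h4
    exact h4
  have hQ0 : Q = 0 := by
    by_contra hne
    have h2 : LD d 0 Q := by
      have := hshLD.add (hP1LD.C_mul (-κ))
      have h3 : shM z b P1 + MvPolynomial.C (-κ) * P1 = Q := by
        rw [hQ, map_neg]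
        ring
      rw [h3] at this
      exact this
    have h3 : Q.totalDegree = d := le_antisymm (totalDegree_le_of_LD h2) (hmin1 Q hQI hne)
    have h4 := hmin2 Q hQI hne h3
    have h5 : (Q.support.filter fun m => m.degree = d) ⊆ (P.support.filter fun m => m.degree = d).erase M := by
      intro m hm
      obtain ⟨h6, h7⟩ := Finset.mem_filter.1 hm
      have h8 := MvPolynomial.mem_support_iff.1 h6
      rw [hQtop m h7] at h8
      refine Finset.mem_erase.2 ⟨?_, Finset.mem_filter.2 ⟨?_, h7⟩⟩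
      · rintro rfl
        rw [hP1M, map_one, sub_self] at h8
        exact h8 rfl
      · rw [MvPolynomial.mem_support_iff]
        intro h9
        rw [hP1c, h9, mul_zero, map_zero, mul_zero, mul_zero, sub_self] at h8
        exact h8 rfl
    have h6 := Finset.card_le_card h5
    have h7 : M ∈ P.support.filter fun m => m.degree = d :=
      Finset.mem_filter.2 ⟨MvPolynomial.mem_support_iff.2 hM, hMd⟩
    rw [Finset.card_erase_of_mem h7] at h6
    have h8 := Finset.card_pos.2 ⟨M, h7⟩
    omega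
  have hinv : shM z b P1 = MvPolynomial.C κ * P1 := sub_eq_zero.1 hQ0
  have hMne : M ≠ 0 := by
    rintro rfl
    rw [map_zero] at hMd
    exact hdpos hMd.symm
  obtain ⟨i, hi⟩ := Finsupp.ne_iff.1 hMne
  simp only [Finsupp.coe_zero, Pi.zero_apply] at hi
  set m := M - Finsupp.single i 1 with hm
  have hmM : m + Finsupp.single i 1 = M := by
    refine tsub_add_cancel_of_le ?_
    rw [Finsupp.single_le_iff]
    exact Nat.one_le_iff_ne_zero.2 hi
  have hmd : m.degree + 1 = d := by
    have : (m + Finsupp.single i 1).degree = d := by rw [hmM, hMd]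
    rw [map_add, Finsupp.degree_single] at this
    exact this
  have htop0 : ∀ n, n.degree = d → io (Polynomial.C (zp z n)) * sg (P1.coeff n) = κ * P1.coeff n := by
    intro n hn
    have h2 := shM_top z b d P1 hP1LD n hn
    rw [hinv, MvPolynomial.coeff_C_mul] at h2
    exact h2.symm
  have htopz : ∀ n, n.degree = d → P1.coeff n ≠ 0 → zp z n = μ0 := fun n hn h0 =>
    mult_one _ _ _ h0 (htop0 n hn)
  have htopinv : ∀ n, n.degree = d → sg (P1.coeff n) = P1.coeff n := by
    intro n hn
    by_cases h0 : P1.coeff n = 0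
    · rw [h0, map_zero]
    · have h2 := htop0 n hn
      rw [htopz n hn h0] at h2
      exact mul_left_cancel₀ (io_ne (Polynomial.C_ne_zero.2 hμ0')) h2
  have h2 := shM_next z hz b d P1 hP1LD m hmd
  rw [hinv, MvPolynomial.coeff_C_mul] at h2
  have hdeg : ∀ j, (m + Finsupp.single j 1).degree = d := fun j => by
    rw [map_add, Finsupp.degree_single, hmd]
  have hzm := zp_ne hz m
  have hzm' : io (Polynomial.C (zp z m)) ≠ 0 := io_ne (Polynomial.C_ne_zero.2 hzm)
  have h3 := hNT (μ0 / zp z m) (fun j => -(P1.coeff (m + Finsupp.single j 1) * ((m j : KK) + 1))) (fun j => by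
    rw [map_neg, map_mul, htopinv _ (hdeg j), map_add, map_natCast, map_one]) (fun j hj => by
      have h4 : P1.coeff (m + Finsupp.single j 1) ≠ 0 := by
        intro h5
        apply hj
        rw [h5, zero_mul, neg_zero]
      have h5 := htopz _ (hdeg j) h4
      rw [zp_single] at h5
      rw [eq_div_iff hzm, mul_comm]
      exact h5) (P1.coeff m) (by
      have h4 : io (Polynomial.C (μ0 / zp z m)) * io (Polynomial.C (zp z m)) = κ := by
        rw [← map_mul, ← map_mul, div_mul_cancel₀ _ hzm]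
      have h5 : io (Polynomial.C (μ0 / zp z m)) * P1.coeff m = sg (P1.coeff m) +
          ∑ j, b j * (sg (P1.coeff (m + Finsupp.single j 1)) * ((m j : KK) + 1)) := by
        apply mul_left_cancel₀ hzm'
        rw [← h2, ← h4]
        ring
      rw [h5]
      have h6 : ∑ j, -(P1.coeff (m + Finsupp.single j 1) * ((m j : KK) + 1)) * b j =
          -∑ j, b j * (sg (P1.coeff (m + Finsupp.single j 1)) * ((m j : KK) + 1)) := by
        rw [← Finset.sum_neg_distrib]
        refine Finset.sum_congr rfl fun j _ => ?_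
        rw [htopinv _ (hdeg j)]
        ring
      rw [h6]
      ring)
  have h4 := congrFun h3 i
  simp only [Pi.zero_apply] at h4
  rw [hmM, hP1M, one_mul, neg_eq_zero] at h4
  have h5 : ((m i + 1 : ℕ) : KK) = 0 := by
    push_cast
    exact h4
  exact absurd (Nat.cast_eq_zero.1 h5) (by omega)

end Pool.Agent.Y922.ZF
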