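import Pool.Agent.Y922.ZF.GenJ

/-!
# Dilations of the Riemann zeta function and of families which are independent at the primes
-/

set_option autoImplicit false

open Finset Filter Asymptotics Topology

namespace Pool.Agent.Y922.ZF

/-- dilations of a family -/
theorem PL_dil {Y : Type} [Fintype Y] (f : Y → ℕ → ℂ) (hf : PP f) (J v : ℕ) :
    PL (fun (y : Y × Fin J) => f y.1) (fun y => (y.2 : ℕ) + 1) v := by
  classical
  refine PL_of_PP _ _ v fun j c hc0 hc => ?_
  funext ⟨y, i⟩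
  by_cases hi : (i : ℕ) + 1 = j
  · have h1 := hf (fun y => c (y, i)) (fun p hp => by
      rw [← hc p hp, Fintype.sum_prod_type]
      refine Finset.sum_congr rfl fun z _ => ?_
      rw [Finset.sum_eq_single i]
      · intro k _ hk
        rw [hc0 (z, k) (fun h => hk (Fin.ext (by have h' : (k : ℕ) + 1 = j := h; omega)))]
        simp
      · intro h
        exact absurd (Finset.mem_univ i) h)
    exact congrFun h1 y
  · exact hc0 (y, i) hi

theorem PP_one : PP fun (_ : Unit) (_ : ℕ) => (1 : ℂ) :=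
  PP_of_PI _ (PI_one _ (Nat.infinite_setOfPred_prime.mono fun _ hp => ⟨hp, one_ne_zero⟩))

/-- dilations of the zeta function -/
theorem PL_zeta (J v : ℕ) : PL (fun (_ : Fin J) (_ : ℕ) => (1 : ℂ)) (fun y => (y : ℕ) + 1) v := by
  classical
  refine PL_of_PP _ _ v fun j c hc0 hc => ?_
  funext i
  by_cases hi : (i : ℕ) + 1 = j
  · have h1 := PP_one (fun _ => c i) (fun p hp => by
      rw [← hc p hp, Finset.sum_eq_single i]
      · simp
      · intro k _ hk
        rw [hc0 k (fun h => hk (Fin.ext (by have h' : (k : ℕ) + 1 = j := h; omega)))]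
        simp
      · intro h
        exact absurd (Finset.mem_univ i) h)
    exact congrFun h1 ()
  · exact hc0 i hi

/-- exponentials and derivatives of the zeta function at multiples of the argument -/
noncomputable def vZ {h : ℕ} (β : Fin h → ℝ) (J w : ℕ) (s : ℂ) : Fin h ⊕ (Fin J × Fin w) → ℂ :=
  vK β (fun _ : Fin J => riemannZeta) (fun y => (y : ℕ) + 1) w s

theorem oneZ (g : ℕ) {h : ℕ} (β : Fin h → ℝ) (hβ0 : ∀ l, 0 < β l)
    (hβ : ∀ v : Fin h → ℤ, (∃ x : ℚ, ∏ l, β l ^ v l = x) → v = 0) (J w : ℕ) (L : Set ℂ) (hL : IsCompact L)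
    (hL1 : ∀ s ∈ L, ∀ j : Fin J, ((j : ℂ) + 1) * s ≠ 1) :
    Y124.OneV g (fun R T => {t | t ∈ L ∧ Y120.Pt R T t}) (vZ β J w) := by
  classical
  have hcast : ∀ j : Fin J, ((((j : ℕ) + 1 : ℕ)) : ℂ) = (j : ℂ) + 1 := fun j => by push_cast; rfl
  refine oneK g β hβ0 hβ (fun (_ : Fin J) (_ : ℕ) => (1 : ℂ)) (fun y => (y : ℕ) + 1) (fun y => Nat.succ_ne_zero _) w
    (PL_zeta J w) 1 (fun _ s hs => LSeriesSummable_one_iff.2 hs) (fun _ => riemannZeta)
    (fun _ s hs => (LSeries_one_eq_riemannZeta hs).symm) {s | ∀ j : Fin J, ((j : ℂ) + 1) * s ≠ 1} ?_ ?_ ?_ L hL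
    (fun s hs => hL1 s hs)
  · have h1 : {s : ℂ | ∀ j : Fin J, ((j : ℂ) + 1) * s ≠ 1} = (Set.range fun j : Fin J => ((j : ℂ) + 1)⁻¹)ᶜ := by
      ext z
      rw [Set.mem_ofPred_eq, Set.mem_compl_iff, Set.mem_range, not_exists]
      refine forall_congr' fun j => ?_
      rw [not_iff_not]
      have hj : (j : ℂ) + 1 ≠ 0 := by exact_mod_cast Nat.succ_ne_zero (j : ℕ)
      constructor
      · intro h1
        exact (eq_inv_of_mul_eq_one_right h1).symm
      · rintro rfl
        exact mul_inv_cancel₀ hj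
    rw [h1]
    exact pre_of_countable (Set.countable_range _)
  · filter_upwards [eventually_gt_atTop 1] with s hs j h1
    have h2 := congrArg Complex.re h1
    have h3 : (((j : ℂ) + 1) * (s : ℂ)).re = ((j : ℝ) + 1) * s := by simp
    rw [h3, Complex.one_re] at h2
    have h4 : (0 : ℝ) ≤ j := Nat.cast_nonneg _
    nlinarith
  · intro j s hs
    have h1 : (((j : ℕ) + 1 : ℕ) : ℂ) * s ≠ 1 := by
      rw [hcast]
      exact hs j
    have h2 := L_analytic 1 (1 : DirichletCharacter ℂ 1) 0 0 ((((j : ℕ) + 1 : ℕ) : ℂ) * s) (Or.inl (by rwa [add_zero]))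
    rw [DirichletCharacter.LFunction_modOne_eq] at h2
    simpa using h2

end Pool.Agent.Y922.ZF
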